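import Pool.Agent.H266.RP.Stm

/-!
# Greedy choice (task S_GREEDY, by helper878)
-/

set_option autoImplicit false

open MeasureTheory Set Metric
open scoped Pointwise RealInnerProductSpace ENNReal

namespace Pool.Agent.H266.RP

/-- one step of the greedy choice -/
private theorem greedy_step {Ω : Type} [MeasurableSpace Ω] (P : Measure Ω)
    [IsProbabilityMeasure P] {α : Type} (U : Finset α) (C : α → Set Ω) (p : ℝ)
    (hC : ∀ v ∈ U, MeasurableSet (C v)) (hP : ∀ v ∈ U, ENNReal.ofReal p ≤ P (C v)) :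
    ∃ ω : Ω, ∀ W : Finset α, W ⊆ U → (∀ v ∈ W, ω ∉ C v) → (W.card : ℝ) ≤ (1 - p) * U.card := by
  classical
  set f : Ω → ℝ := fun ω => ∑ v ∈ U, (C v)ᶜ.indicator (fun _ => (1 : ℝ)) ω with hf
  have hint : ∀ v ∈ U, Integrable ((C v)ᶜ.indicator (fun _ => (1 : ℝ))) P := fun v hv =>
    (integrable_const (1 : ℝ)).indicator (hC v hv).compl
  have hfi : Integrable f P := integrable_finsetSum U hint
  obtain ⟨ω, hω⟩ := exists_le_integral hfi
  refine ⟨ω, fun W hWU hW => ?_⟩
  have h1 : (W.card : ℝ) ≤ f ω := by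
    have h2 : (W.card : ℝ) = ∑ v ∈ W, (C v)ᶜ.indicator (fun _ => (1 : ℝ)) ω := by
      rw [Finset.sum_congr rfl fun v hv => by
        rw [indicator_of_mem (show ω ∈ (C v)ᶜ from hW v hv)]]
      simp
    rw [h2]
    exact Finset.sum_le_sum_of_subset_of_nonneg hWU fun v _ _ =>
      indicator_nonneg (fun _ _ => zero_le_one) _
  refine h1.trans (hω.trans ?_)
  have h3 : ∫ a, f a ∂P = ∑ v ∈ U, ∫ a, (C v)ᶜ.indicator (fun _ => (1 : ℝ)) a ∂P :=
    integral_finsetSum U hint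
  rw [h3]
  have h4 : ∀ v ∈ U, ∫ a, (C v)ᶜ.indicator (fun _ => (1 : ℝ)) a ∂P ≤ 1 - p := by
    intro v hv
    rw [integral_indicator (hC v hv).compl, setIntegral_const, smul_eq_mul, mul_one,
      probReal_compl_eq_one_sub (hC v hv)]
    have h5 : p ≤ P.real (C v) :=
      (ENNReal.ofReal_le_iff_le_toReal (measure_ne_top _ _)).1 (hP v hv)
    linarith
  refine (Finset.sum_le_sum h4).trans ?_
  rw [Finset.sum_const, nsmul_eq_mul, mul_comm]

theorem p_greedy : S_GREEDY := by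
  classical
  intro Ω _ P _ α V C p hp0 hp1 hC hP
  have key : ∀ M : ℕ, ∃ S : Finset Ω, S.card ≤ M ∧
      ((V.filter (fun v => ∀ ω ∈ S, ω ∉ C v)).card : ℝ) ≤ (1 - p) ^ M * V.card := by
    intro M
    induction M with
    | zero =>
      refine ⟨∅, le_rfl, ?_⟩
      rw [pow_zero, one_mul]
      exact_mod_cast Finset.card_filter_le _ _
    | succ M ih =>
      obtain ⟨S, hS, hc⟩ := ih
      set U := V.filter (fun v => ∀ ω ∈ S, ω ∉ C v) with hU
      have hUV : ∀ v ∈ U, v ∈ V := fun v hv => (Finset.mem_filter.1 hv).1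
      obtain ⟨ω, hω⟩ := greedy_step P U C p (fun v hv => hC v (hUV v hv))
        (fun v hv => hP v (hUV v hv))
      refine ⟨insert ω S, (Finset.card_insert_le _ _).trans (Nat.succ_le_succ hS), ?_⟩
      have h1 := hω (V.filter (fun v => ∀ ω' ∈ insert ω S, ω' ∉ C v)) (fun v hv => by
          rw [Finset.mem_filter] at hv
          rw [hU, Finset.mem_filter]
          exact ⟨hv.1, fun ω' hω' => hv.2 ω' (Finset.mem_insert_of_mem hω')⟩)
        (fun v hv => (Finset.mem_filter.1 hv).2 ω (Finset.mem_insert_self _ _))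
      refine h1.trans ?_
      have h2 : 0 ≤ 1 - p := by linarith
      calc (1 - p) * (U.card : ℝ) ≤ (1 - p) * ((1 - p) ^ M * V.card) :=
            mul_le_mul_of_nonneg_left hc h2
        _ = (1 - p) ^ (M + 1) * V.card := by ring
  intro M hM
  obtain ⟨S, hS, hc⟩ := key M
  refine ⟨S, hS, fun v hv => ?_⟩
  by_contra hno
  have h1 : v ∈ V.filter (fun v => ∀ ω ∈ S, ω ∉ C v) := by
    rw [Finset.mem_filter]
    exact ⟨hv, fun ω hω hωC => hno ⟨ω, hω, hωC⟩⟩
  have h2 : 1 ≤ (V.filter (fun v => ∀ ω ∈ S, ω ∉ C v)).card := Finset.card_pos.2 ⟨v, h1⟩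
  have h3 : (1 : ℝ) ≤ ((V.filter (fun v => ∀ ω ∈ S, ω ∉ C v)).card : ℝ) := by exact_mod_cast h2
  linarith

end Pool.Agent.H266.RP
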