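import Pool.Agent.H266.RP.Stm

/-!
# Nets of the unit sphere (helper402)
-/

set_option autoImplicit false

open MeasureTheory Set Metric
open scoped Pointwise RealInnerProductSpace ENNReal

namespace Pool.Agent.H266.RP

private lemma pnet_card {d : ℕ} {δ : ℝ} (hδ : 0 < δ) (V : Finset (E d)) (h1 : ∀ v ∈ V, ‖v‖ = 1)
    (hsep : ∀ v ∈ V, ∀ w ∈ V, v ≠ w → δ < ‖v - w‖) : (V.card : ℝ) ≤ (1 + 2 / δ) ^ d := by
  classical
  have hδ2 : 0 < δ / 2 := by positivity
  have hfin : Module.finrank ℝ (E d) = d := by simp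
  have hdisj : (V : Set (E d)).PairwiseDisjoint (fun v => ball v (δ / 2)) := by
    intro v hv w hw hvw
    refine Set.disjoint_left.mpr fun x hx hx' => ?_
    rw [mem_ball] at hx hx'
    have h2 := hsep v hv w hw hvw
    have h3 : dist v w ≤ dist x v + dist x w := by
      rw [dist_comm x v]
      exact dist_triangle v x w
    rw [dist_eq_norm] at h3
    linarith
  have hsub : (⋃ v ∈ V, ball v (δ / 2)) ⊆ ball (0 : E d) (1 + δ / 2) := by
    intro x hx
    simp only [Set.mem_iUnion, exists_prop] at hx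
    obtain ⟨v, hv, hxv⟩ := hx
    rw [mem_ball] at hxv
    rw [mem_ball]
    have h3 : dist x 0 ≤ dist x v + dist v 0 := dist_triangle x v 0
    rw [dist_zero_right v, h1 v hv] at h3
    linarith
  have hvol : (V.card : ℝ≥0∞) * (ENNReal.ofReal ((δ / 2) ^ d) * volume (ball (0 : E d) 1)) ≤
      ENNReal.ofReal ((1 + δ / 2) ^ d) * volume (ball (0 : E d) 1) := by
    calc (V.card : ℝ≥0∞) * (ENNReal.ofReal ((δ / 2) ^ d) * volume (ball (0 : E d) 1))
        = ∑ v ∈ V, volume (ball v (δ / 2)) := by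
          rw [Finset.sum_congr rfl (fun v _ => Measure.addHaar_ball_of_pos volume v hδ2), hfin,
            Finset.sum_const, nsmul_eq_mul]
      _ = volume (⋃ v ∈ V, ball v (δ / 2)) :=
          (measure_biUnion_finset hdisj (fun v _ => measurableSet_ball)).symm
      _ ≤ volume (ball (0 : E d) (1 + δ / 2)) := measure_mono hsub
      _ = _ := by rw [Measure.addHaar_ball_of_pos volume (0 : E d) (by positivity), hfin]
  have hb0 : volume (ball (0 : E d) 1) ≠ 0 := (measure_ball_pos volume (0 : E d) one_pos).ne'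
  have hbt : volume (ball (0 : E d) 1) ≠ ⊤ := measure_ball_lt_top.ne
  rw [← mul_assoc] at hvol
  have h4 := (ENNReal.mul_le_mul_iff_left hb0 hbt).mp hvol
  have h5 : (V.card : ℝ) * (δ / 2) ^ d ≤ (1 + δ / 2) ^ d := by
    have h6 := ENNReal.toReal_mono ENNReal.ofReal_ne_top h4
    rw [ENNReal.toReal_mul, ENNReal.toReal_natCast, ENNReal.toReal_ofReal (by positivity),
      ENNReal.toReal_ofReal (by positivity)] at h6
    exact h6
  have h7 : (1 + 2 / δ) ^ d * (δ / 2) ^ d = (1 + δ / 2) ^ d := by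
    rw [← mul_pow]
    congr 1
    field_simp
    ring
  rw [← h7] at h5
  exact le_of_mul_le_mul_right h5 (by positivity)

theorem p_net : S_NET := by
  classical
  intro d δ hδ
  set P : ℕ → Prop := fun k => ∃ V : Finset (E d), V.card = k ∧ (∀ v ∈ V, ‖v‖ = 1) ∧
    ∀ v ∈ V, ∀ w ∈ V, v ≠ w → δ < ‖v - w‖ with hP
  have h0 : P 0 := ⟨∅, rfl, by simp, by simp⟩
  have hle : ∀ k, P k → k ≤ ⌊(1 + 2 / δ) ^ d⌋₊ := by
    rintro k ⟨V, rfl, h1, h2⟩
    exact Nat.le_floor (pnet_card hδ V h1 h2)
  obtain ⟨V, hVc, hV1, hV2⟩ := Nat.findGreatest_spec (P := P) (Nat.zero_le ⌊(1 + 2 / δ) ^ d⌋₊) h0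
  refine ⟨V, pnet_card hδ V hV1 hV2, hV1, fun u hu => ?_⟩
  by_contra hcon
  push Not at hcon
  have huV : u ∉ V := by
    intro h
    have := hcon u h
    rw [sub_self, norm_zero] at this
    linarith
  have hP1 : P (V.card + 1) := by
    refine ⟨insert u V, Finset.card_insert_of_notMem huV, ?_, ?_⟩
    · intro v hv
      rcases Finset.mem_insert.mp hv with rfl | hv
      · exact hu
      · exact hV1 v hv
    · intro v hv w hw hvw
      rcases Finset.mem_insert.mp hv with h3 | h3
      · rcases Finset.mem_insert.mp hw with h4 | h4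
        · exact absurd (h3.trans h4.symm) hvw
        · rw [h3]; exact hcon w h4
      · rcases Finset.mem_insert.mp hw with h4 | h4
        · rw [h4, norm_sub_rev]; exact hcon v h3
        · exact hV2 v h3 w h4 hvw
  have h8 := Nat.le_findGreatest (hle _ hP1) hP1
  omega

end Pool.Agent.H266.RP
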