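import Pool.Agent.H266.RP.Stm

set_option autoImplicit false

open MeasureTheory Set Metric Filter
open scoped Pointwise RealInnerProductSpace ENNReal Topology

namespace Pool.Agent.H266.RP

lemma unif_isProb (d : ℕ) : IsProbabilityMeasure (unif d) := by
  have h0 : volume (closedBall (0 : E d) 1) ≠ 0 := (measure_closedBall_pos _ _ one_pos).ne'
  have h1 : volume (closedBall (0 : E d) 1) ≠ ⊤ := measure_closedBall_lt_top.ne
  refine ⟨?_⟩
  rw [unif, Measure.smul_apply, Measure.restrict_apply MeasurableSet.univ, univ_inter, smul_eq_mul]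
  exact ENNReal.inv_mul_cancel h0 h1

lemma unif_ball (d : ℕ) : ∀ᵐ x ∂(unif d), ‖x‖ ≤ 1 := by
  have h : ∀ᵐ x ∂(volume.restrict (closedBall (0 : E d) 1)), ‖x‖ ≤ 1 := by
    rw [ae_restrict_iff' measurableSet_closedBall]
    exact Eventually.of_forall fun x hx => by simpa using hx
  unfold unif
  exact Measure.ae_smul_measure h _

/-- powers beat linear functions -/
lemma lin_le_pow {h : ℝ} (hh : 1 < h) (C : ℝ) : ∀ᶠ d : ℕ in atTop, C * d ≤ h ^ d := by
  have h1 : Tendsto (fun n : ℕ => (n : ℝ) ^ 1 / h ^ n) atTop (𝓝 0) :=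
    tendsto_pow_const_div_const_pow_of_one_lt 1 hh
  have h2 : ∀ᶠ n : ℕ in atTop, (n : ℝ) ^ 1 / h ^ n < 1 / (|C| + 1) :=
    h1.eventually_lt_const (by positivity)
  filter_upwards [h2] with n hn
  have hp : (0 : ℝ) < h ^ n := by positivity
  rw [pow_one, div_lt_iff₀ hp] at hn
  have h3 : (|C| + 1) * n < h ^ n := by
    have : (0 : ℝ) < |C| + 1 := by positivity
    calc (|C| + 1) * n < (|C| + 1) * (1 / (|C| + 1) * h ^ n) := by
          exact mul_lt_mul_of_pos_left hn this
      _ = h ^ n := by field_simp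
  have h4 : C * n ≤ (|C| + 1) * n := by
    have : C ≤ |C| + 1 := (le_abs_self C).trans (by linarith)
    exact mul_le_mul_of_nonneg_right this (Nat.cast_nonneg n)
  linarith

lemma const_le_pow {h : ℝ} (hh : 1 < h) (C : ℝ) : ∀ᶠ d : ℕ in atTop, C ≤ h ^ d :=
  (tendsto_pow_atTop_atTop_of_one_lt hh).eventually_ge_atTop C

/-- double exponential smallness -/
lemma dexp {B c g : ℝ} (hB : 0 < B) (hc : 0 < c) (hg : 1 < g) :
    ∃ c' : ℝ, 0 < c' ∧ ∀ᶠ d : ℕ in atTop,
      B ^ d * Real.exp (-(c * g ^ d)) ≤ Real.exp (-Real.exp (c' * d)) := by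
  set h := Real.sqrt g with hh
  have hg0 : (0 : ℝ) ≤ g := by linarith
  have h1 : 1 < h := by rw [hh]; exact Real.lt_sqrt_of_sq_lt (by simpa using hg)
  have h0 : 0 < h := by linarith
  have hsq : h ^ 2 = g := Real.sq_sqrt hg0
  refine ⟨Real.log h, Real.log_pos h1, ?_⟩
  filter_upwards [lin_le_pow h1 (Real.log B), const_le_pow h1 (2 / c)] with d h2 h3
  have e1 : Real.exp (Real.log h * d) = h ^ d := by
    rw [mul_comm, Real.exp_nat_mul, Real.exp_log h0]
  have e2 : B ^ d = Real.exp (Real.log B * d) := by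
    rw [mul_comm, Real.exp_nat_mul, Real.exp_log hB]
  have e3 : g ^ d = h ^ d * h ^ d := by rw [← hsq]; ring
  rw [e1, e2, e3, ← Real.exp_add]
  apply Real.exp_le_exp.2
  have hp : 0 < h ^ d := by positivity
  have h4 : 2 ≤ c * h ^ d := by
    rw [div_le_iff₀ hc] at h3; linarith
  nlinarith

end Pool.Agent.H266.RP
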