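import Mathlib

/-!
# Covering numbers of random polytopes: definitions
-/

set_option autoImplicit false

open MeasureTheory Set Metric
open scoped Pointwise RealInnerProductSpace ENNReal

namespace Pool.Agent.H266.RP

/-- `d`-dimensional Euclidean space -/
abbrev E (d : ℕ) := EuclideanSpace ℝ (Fin d)

/-- The law `μ` on `ℝ^d` is invariant under all rotations (linear isometries). -/
def Isotropic {d : ℕ} (μ : Measure (E d)) : Prop := ∀ U : E d ≃ₗᵢ[ℝ] E d, μ.map U = μ

/-- `K` is covered by the translates `t + int K`, `t ∈ T`. -/
def CoveredBy {d : ℕ} (T : Finset (E d)) (K : Set (E d)) : Prop :=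
  K ⊆ ⋃ t ∈ T, (fun y => t + y) '' interior K

/-- the polytope spanned by the points `x i` -/
def poly {d N : ℕ} (x : Fin N → E d) : Set (E d) := convexHull ℝ (range x)

/-- the centrally symmetric polytope spanned by the points `x i` and `- x i` -/
def symPoly {d N : ℕ} (x : Fin N → E d) : Set (E d) :=
  convexHull ℝ (range x ∪ range (fun i => - x i))

/-- the uniform distribution on the closed unit ball -/
noncomputable def unif (d : ℕ) : Measure (E d) :=
  (volume (closedBall (0 : E d) 1))⁻¹ • volume.restrict (closedBall (0 : E d) 1)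

/-- the cone of the nonzero vectors `v` which form with `x` an angle of cosine at least `κ`;
all nonzero vectors if `x = 0` -/
def Cone {d : ℕ} (κ : ℝ) (x : E d) : Set (E d) := {v | κ * ‖x‖ * ‖v‖ ≤ ⟪x, v⟫ ∧ v ≠ 0}

/-- the indices `i` such that fewer than `m` of the numbers are larger than `r i` -/
noncomputable def Top {N : ℕ} (r : Fin N → ℝ) (m : ℕ) : Finset (Fin N) :=
  Finset.univ.filter (fun i => (Finset.univ.filter (fun j => r i < r j)).card < m)

/-- the component of `x` orthogonal to the unit vector `w` -/
noncomputable def proj {d : ℕ} (w x : E d) : E d := x - ⟪x, w⟫ • w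

end Pool.Agent.H266.RP
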