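import Pool.Agent.H266.RP.Stm

/-!
# Proof of `S_BALL` (helper600)
-/

set_option autoImplicit false

open MeasureTheory Set Metric
open scoped Pointwise RealInnerProductSpace ENNReal

namespace Pool.Agent.H266.RP

theorem p_ball : S_BALL := by
  intro d ι _ y V κ δ ρ hd hV hnet hρ hδκ hy z hz
  by_contra hzK
  have hKc : IsClosed (convexHull ℝ (range y)) :=
    ((Set.finite_range y).isCompact_convexHull (𝕜 := ℝ)).isClosed
  obtain ⟨f, c, hf, hfz⟩ := geometric_hahn_banach_closed_point (convex_convexHull ℝ (range y)) hKc hzK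
  set g : E d := (InnerProductSpace.toDual ℝ (E d)).symm f with hg
  have hfg : ∀ x, f x = ⟪g, x⟫ := by
    intro x
    rw [hg, InnerProductSpace.toDual_symm_apply]
  -- a point of the hull
  have hu0 : ∃ u : E d, ‖u‖ = 1 := by
    haveI : Nonempty (Fin d) := ⟨⟨0, hd⟩⟩
    obtain ⟨j⟩ := (inferInstance : Nonempty (Fin d))
    exact ⟨EuclideanSpace.single j 1, by simp⟩
  obtain ⟨u0, hu0⟩ := hu0
  obtain ⟨v0, hv0, -⟩ := hnet u0 hu0
  obtain ⟨i0, -, -⟩ := hy v0 hv0
  have hmem : ∀ i, y i ∈ convexHull ℝ (range y) := fun i =>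
    subset_convexHull ℝ _ (mem_range_self i)
  have hlt : ∀ i, ⟪g, y i⟫ < ⟪g, z⟫ := by
    intro i
    have := hf (y i) (hmem i)
    rw [hfg] at this hfz
    linarith
  have hg0 : g ≠ 0 := by
    intro h0
    have := hlt i0
    rw [h0] at this
    simp at this
  have hgn : 0 < ‖g‖ := norm_pos_iff.mpr hg0
  set u : E d := (‖g‖)⁻¹ • g with hu
  have hun : ‖u‖ = 1 := by
    rw [hu, norm_smul, norm_inv, norm_norm, inv_mul_cancel₀ hgn.ne']
  obtain ⟨v, hvV, huv⟩ := hnet u hun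
  obtain ⟨i, hρi, hκi⟩ := hy v hvV
  have h1 : ⟪u, y i⟫ < ⟪u, z⟫ := by
    rw [hu, real_inner_smul_left, real_inner_smul_left]
    exact mul_lt_mul_of_pos_left (hlt i) (inv_pos.mpr hgn)
  have h2 : ⟪u, z⟫ ≤ ‖z‖ := by
    have := real_inner_le_norm u z
    rwa [hun, one_mul] at this
  have h3 : ‖z‖ ≤ (κ - δ) * ρ := by
    simpa using hz
  have h4 : ⟪v - u, y i⟫ ≤ δ * ‖y i‖ := by
    refine (real_inner_le_norm _ _).trans ?_
    rw [norm_sub_rev]
    exact mul_le_mul_of_nonneg_right huv (norm_nonneg _)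
  rw [inner_sub_left, real_inner_comm] at h4
  have h5 : (κ - δ) * ρ ≤ (κ - δ) * ‖y i‖ := mul_le_mul_of_nonneg_left hρi (by linarith)
  nlinarith

end Pool.Agent.H266.RP
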