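import Pool.Agent.H266.RP.Stm

set_option autoImplicit false

open MeasureTheory Set Metric
open scoped Pointwise RealInnerProductSpace ENNReal

namespace Pool.Agent.H266.RP

namespace PCap

theorem unit_exists {d : ℕ} (hd : 1 ≤ d) : ∃ u : E d, ‖u‖ = 1 :=
  ⟨EuclideanSpace.single ⟨0, hd⟩ 1, by simp⟩

theorem dir {d : ℕ} (hd : 1 ≤ d) (κ : ℝ) (x : E d) : ∃ u : E d, ‖u‖ = 1 ∧
    ∀ v : E d, κ * ‖v‖ ≤ ⟪u, v⟫ → v ≠ 0 → v ∈ Cone κ x := by
  by_cases hx : x = 0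
  · obtain ⟨u, hu⟩ := unit_exists hd
    refine ⟨u, hu, fun v _ hv => ⟨?_, hv⟩⟩
    subst hx
    simp
  · have hx' : 0 < ‖x‖ := norm_pos_iff.2 hx
    refine ⟨‖x‖⁻¹ • x, ?_, fun v h hv => ⟨?_, hv⟩⟩
    · rw [norm_smul, norm_inv, norm_norm, inv_mul_cancel₀ hx'.ne']
    · rw [real_inner_smul_left] at h
      calc κ * ‖x‖ * ‖v‖ = ‖x‖ * (κ * ‖v‖) := by ring
        _ ≤ ‖x‖ * (‖x‖⁻¹ * ⟪x, v⟫) := mul_le_mul_of_nonneg_left h hx'.le
        _ = ⟪x, v⟫ := by rw [← mul_assoc, mul_inv_cancel₀ hx'.ne', one_mul]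

/-- the slabs -/
def slab {d : ℕ} (a η : ℝ) (u : E d) (k : ℕ) : Set (E d) :=
  {y | ‖y‖ ≤ a ∧ (k : ℝ) * η ≤ ⟪y, u⟫ ∧ ⟪y, u⟫ ≤ ((k : ℝ) + 1) * η}

theorem slab_le {d : ℕ} {a η : ℝ} (ha : 0 < a) (hη : 0 < η) {u : E d} (hu : ‖u‖ = 1) (k : ℕ) :
    volume (slab a η u k) ≤ volume (slab a η u 0) := by
  have h : slab a η u k ⊆ (fun y => y + (-(((k : ℝ) * η) • u))) ⁻¹' slab a η u 0 := by
    rintro y ⟨h1, h2, h3⟩
    have huu : ⟪u, u⟫ = (1 : ℝ) := by rw [real_inner_self_eq_norm_sq, hu, one_pow]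
    have e : ⟪y + (-(((k : ℝ) * η) • u)), u⟫ = ⟪y, u⟫ - k * η := by
      rw [inner_add_left, inner_neg_left, real_inner_smul_left, huu]
      ring
    refine ⟨?_, ?_, ?_⟩
    · have hsq : ‖y + (-(((k : ℝ) * η) • u))‖ ^ 2 ≤ a ^ 2 := by
        rw [← sub_eq_add_neg, @norm_sub_sq_real, real_inner_smul_right, norm_smul, hu, mul_one,
          Real.norm_eq_abs, sq_abs]
        have h0 : 0 ≤ (k : ℝ) * η := by positivity
        have h4 : ‖y‖ ^ 2 ≤ a ^ 2 := by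
          exact pow_le_pow_left₀ (norm_nonneg _) h1 2
        nlinarith [mul_le_mul_of_nonneg_left h2 h0]
      exact le_of_sq_le_sq hsq ha.le
    · show ((0 : ℕ) : ℝ) * η ≤ ⟪y + (-(((k : ℝ) * η) • u)), u⟫
      rw [e]
      push_cast
      linarith
    · show ⟪y + (-(((k : ℝ) * η) • u)), u⟫ ≤ (((0 : ℕ) : ℝ) + 1) * η
      rw [e]
      push_cast
      linarith
  calc volume (slab a η u k) ≤ volume ((fun y => y + (-(((k : ℝ) * η) • u))) ⁻¹' slab a η u 0) :=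
        measure_mono h
    _ = volume (slab a η u 0) := measure_preimage_add_right _ _ _

theorem half {d : ℕ} {a η : ℝ} (hη : 0 < η) {u : E d} (hu : ‖u‖ = 1) {K : ℕ}
    (hK : a < K * η) {y : E d} (hy : ‖y‖ ≤ a) (h0 : 0 ≤ ⟪y, u⟫) :
    y ∈ ⋃ k ∈ Finset.range K, slab a η u k := by
  have hle : ⟪y, u⟫ ≤ a := (real_inner_le_norm y u).trans (by rw [hu, mul_one]; exact hy)
  have hq : 0 ≤ ⟪y, u⟫ / η := div_nonneg h0 hη.le
  have h1 := Nat.floor_le hq
  have h2 := Nat.lt_floor_add_one (⟪y, u⟫ / η)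
  rw [le_div_iff₀ hη] at h1
  rw [div_lt_iff₀ hη] at h2
  refine mem_iUnion₂.2 ⟨⌊⟪y, u⟫ / η⌋₊, Finset.mem_range.2 ?_, hy, h1, h2.le⟩
  rw [Nat.floor_lt hq, div_lt_iff₀ hη]
  linarith

theorem ball_le {d : ℕ} {a η : ℝ} (ha : 0 < a) (hη : 0 < η) {u : E d} (hu : ‖u‖ = 1) {K : ℕ}
    (hK : a < K * η) :
    volume (closedBall (0 : E d) a) ≤ 2 * (K * volume (slab a η u 0)) := by
  have hs : volume (⋃ k ∈ Finset.range K, slab a η u k) ≤ K * volume (slab a η u 0) := by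
    refine (measure_biUnion_finset_le _ _).trans ?_
    refine (Finset.sum_le_sum fun k _ => slab_le ha hη hu k).trans ?_
    rw [Finset.sum_const, Finset.card_range, nsmul_eq_mul]
  have hsub : closedBall (0 : E d) a ⊆ (⋃ k ∈ Finset.range K, slab a η u k) ∪
      (fun y => -y) ⁻¹' (⋃ k ∈ Finset.range K, slab a η u k) := by
    intro y hy
    rw [mem_closedBall_zero_iff] at hy
    rcases le_total 0 ⟪y, u⟫ with h | h
    · exact Or.inl (half hη hu hK hy h)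
    · refine Or.inr (half hη hu hK (by rw [norm_neg]; exact hy) ?_)
      rw [inner_neg_left]
      linarith
  calc volume (closedBall (0 : E d) a) ≤ _ := measure_mono hsub
    _ ≤ _ := measure_union_le _ _
    _ ≤ K * volume (slab a η u 0) + K * volume (slab a η u 0) := by
        refine add_le_add hs ?_
        have : volume ((fun y : E d => -y) ⁻¹' (⋃ k ∈ Finset.range K, slab a η u k)) =
            volume (⋃ k ∈ Finset.range K, slab a η u k) := Measure.measure_preimage_neg _ _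
        rw [this]
        exact hs
    _ = _ := by rw [two_mul]

theorem piece {d : ℕ} {κ a η : ℝ} (hκ : 0 < κ) (hη : 2 * κ * η = 1 - κ ^ 2 - a ^ 2)
    {u x : E d} (hu : ‖u‖ = 1) (hx : ∀ v : E d, κ * ‖v‖ ≤ ⟪u, v⟫ → v ≠ 0 → v ∈ Cone κ x) :
    volume (slab a η u 0) ≤ volume (Cone κ x ∩ closedBall (0 : E d) 1) := by
  have h : (fun v => v + (-(κ • u))) ⁻¹' slab a η u 0 ⊆ Cone κ x ∩ closedBall (0 : E d) 1 := by
    rintro v ⟨h1, h2, h3⟩
    have huu : ⟪u, u⟫ = (1 : ℝ) := by rw [real_inner_self_eq_norm_sq, hu, one_pow]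
    have e : ⟪v + (-(κ • u)), u⟫ = ⟪v, u⟫ - κ := by
      rw [inner_add_left, inner_neg_left, real_inner_smul_left, huu]
      ring
    have h2' : 0 ≤ ⟪v, u⟫ - κ := by
      rw [← e]
      have := h2
      push_cast at this
      linarith
    have h3' : ⟪v, u⟫ - κ ≤ η := by
      rw [← e]
      have := h3
      push_cast at this
      linarith
    have hsq : ‖v‖ ^ 2 ≤ 1 ^ 2 := by
      have e2 : ‖v + (-(κ • u))‖ ^ 2 = ‖v‖ ^ 2 - 2 * (κ * ⟪v, u⟫) + κ ^ 2 := by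
        rw [← sub_eq_add_neg, @norm_sub_sq_real, real_inner_smul_right, norm_smul, hu, mul_one,
          Real.norm_eq_abs, sq_abs]
      have e3 : ‖v + (-(κ • u))‖ ^ 2 ≤ a ^ 2 := pow_le_pow_left₀ (norm_nonneg _) h1 2
      nlinarith [mul_le_mul_of_nonneg_left h3' hκ.le]
    have hv1 : ‖v‖ ≤ 1 := le_of_sq_le_sq hsq zero_le_one
    refine ⟨hx v ?_ ?_, mem_closedBall_zero_iff.2 hv1⟩
    · rw [real_inner_comm]
      nlinarith [mul_le_mul_of_nonneg_left hv1 hκ.le]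
    · rintro rfl
      rw [inner_zero_left] at h2'
      linarith
  calc volume (slab a η u 0) = volume ((fun v => v + (-(κ • u))) ⁻¹' slab a η u 0) :=
        (measure_preimage_add_right _ _ _).symm
    _ ≤ _ := measure_mono h

end PCap

open PCap in
theorem p_cap : S_CAP := by
  intro κ a hκ ha h
  set η : ℝ := (1 - κ ^ 2 - a ^ 2) / (2 * κ) with hηdef
  have hη : 0 < η := div_pos (by linarith) (by positivity)
  have hη2 : 2 * κ * η = 1 - κ ^ 2 - a ^ 2 := by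
    rw [hηdef]
    field_simp
  set K : ℕ := ⌊a / η⌋₊ + 1 with hKdef
  have hK : a < K * η := by
    have := Nat.lt_floor_add_one (a / η)
    rw [div_lt_iff₀ hη] at this
    rw [hKdef]
    push_cast
    exact this
  have hKpos : (0 : ℝ) < K := by
    rw [hKdef]
    positivity
  refine ⟨1 / (2 * K), by positivity, fun d hd x => ?_⟩
  obtain ⟨u, hu, hx⟩ := dir hd κ x
  have h1 := ball_le ha hη hu hK
  have h2 := piece hκ hη2 hu hx
  have hB : volume (closedBall (0 : E d) a) =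
      ENNReal.ofReal (a ^ d) * volume (closedBall (0 : E d) 1) := by
    rw [Measure.addHaar_closedBall' _ _ ha.le, finrank_euclideanSpace_fin]
  have hB0 : volume (closedBall (0 : E d) 1) ≠ 0 := (measure_closedBall_pos _ _ one_pos).ne'
  have hBt : volume (closedBall (0 : E d) 1) ≠ ⊤ := measure_closedBall_lt_top.ne
  set B := volume (closedBall (0 : E d) 1) with hBdef
  rw [hB] at h1
  have h3 : ENNReal.ofReal (a ^ d) * B ≤ (2 * K) * volume (Cone κ x ∩ closedBall (0 : E d) 1) := by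
    refine h1.trans ?_
    rw [← mul_assoc]
    exact mul_le_mul_right h2 _
  have hc : ENNReal.ofReal (1 / (2 * K) * a ^ d) = (2 * (K : ℝ≥0∞))⁻¹ * ENNReal.ofReal (a ^ d) := by
    rw [ENNReal.ofReal_mul (by positivity), one_div, ENNReal.ofReal_inv_of_pos (by positivity),
      ENNReal.ofReal_mul (by norm_num), ENNReal.ofReal_natCast]
    norm_num
  have hK0 : (2 * (K : ℝ≥0∞)) ≠ 0 := by
    have : (K : ℝ≥0∞) ≠ 0 := by
      rw [Nat.cast_ne_zero, hKdef]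
      omega
    exact mul_ne_zero two_ne_zero this
  have hKt : (2 * (K : ℝ≥0∞)) ≠ ⊤ := ENNReal.mul_ne_top (by simp) (by simp)
  rw [hc]
  have h4 : unif d (Cone κ x) = B⁻¹ * (volume.restrict (closedBall (0 : E d) 1)) (Cone κ x) := rfl
  rw [h4]
  calc (2 * (K : ℝ≥0∞))⁻¹ * ENNReal.ofReal (a ^ d)
      = (2 * (K : ℝ≥0∞))⁻¹ * (B⁻¹ * (ENNReal.ofReal (a ^ d) * B)) := by
        rw [mul_comm (ENNReal.ofReal (a ^ d)) B, ← mul_assoc B⁻¹, ENNReal.inv_mul_cancel hB0 hBt, one_mul]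
    _ ≤ (2 * (K : ℝ≥0∞))⁻¹ * (B⁻¹ * ((2 * K) * volume (Cone κ x ∩ closedBall (0 : E d) 1))) := by
        gcongr
    _ = B⁻¹ * volume (Cone κ x ∩ closedBall (0 : E d) 1) := by
        rw [mul_left_comm, ← mul_assoc _ (2 * (K : ℝ≥0∞)), ENNReal.inv_mul_cancel hK0 hKt, one_mul]
    _ ≤ _ := mul_le_mul_right (Measure.le_restrict_apply _ _) _

end Pool.Agent.H266.RP
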