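import Pool.Agent.H266.RP.Stm2

/-!
# Covering numbers of random polytopes: a binomial coefficient estimate (by helper981)
-/

set_option autoImplicit false

open MeasureTheory Set Metric
open scoped Pointwise RealInnerProductSpace ENNReal

namespace Pool.Agent.H266.RP

theorem p_choose : S_CHOOSE := by
  intro N k c hc hk h
  have hkf : (0 : ℝ) < (k.factorial : ℝ) := by exact_mod_cast k.factorial_pos
  have he : (0 : ℝ) < Real.exp 1 := Real.exp_pos 1
  have h1 : (N.choose k : ℝ) ≤ (N : ℝ) ^ k / (k.factorial : ℝ) := Nat.choose_le_pow_div k N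
  have h2 : (N : ℝ) * c ≤ (k : ℝ) / (2 * Real.exp 1) := by
    rw [le_div_iff₀ (by positivity)]
    linarith
  have h3 : (k : ℝ) ^ k / (k.factorial : ℝ) ≤ Real.exp (k : ℝ) :=
    Real.pow_div_factorial_le_exp (k : ℝ) (Nat.cast_nonneg k) k
  have h4 : Real.exp (k : ℝ) = (Real.exp 1) ^ k := by
    rw [← Real.exp_nat_mul, mul_one]
  have h5 : (0 : ℝ) ≤ (N : ℝ) * c := by positivity
  calc (N.choose k : ℝ) * c ^ k ≤ (N : ℝ) ^ k / (k.factorial : ℝ) * c ^ k :=
        mul_le_mul_of_nonneg_right h1 (pow_nonneg hc k)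
    _ = ((N : ℝ) * c) ^ k / (k.factorial : ℝ) := by rw [mul_pow]; ring
    _ ≤ ((k : ℝ) / (2 * Real.exp 1)) ^ k / (k.factorial : ℝ) := by
        apply div_le_div_of_nonneg_right (pow_le_pow_left₀ h5 h2 k) hkf.le
    _ = (k : ℝ) ^ k / (k.factorial : ℝ) * (1 / (2 * Real.exp 1)) ^ k := by
        rw [div_pow, div_pow, one_pow]; ring
    _ ≤ (Real.exp 1) ^ k * (1 / (2 * Real.exp 1)) ^ k := by
        rw [← h4]
        exact mul_le_mul_of_nonneg_right h3 (by positivity)
    _ = (1 / 2) ^ k := by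
        rw [← mul_pow]
        congr 1
        field_simp

end Pool.Agent.H266.RP
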