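import Pool.Agent.H266.RP.Stm

set_option autoImplicit false

/-!
# Coverings of the sphere by caps: `S_COV` from `S_NET`, `S_CAP`, `S_GREEDY`
-/

open MeasureTheory Set Metric Filter Topology
open scoped Pointwise RealInnerProductSpace ENNReal

namespace Pool.Agent.H266.RP

namespace PCov

lemma unif_prob (d : ℕ) : IsProbabilityMeasure (unif d) := by
  constructor
  have h0 : volume (closedBall (0 : E d) 1) ≠ 0 := (measure_closedBall_pos volume 0 one_pos).ne'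
  have h1 : volume (closedBall (0 : E d) 1) ≠ ⊤ := measure_closedBall_lt_top.ne
  unfold unif
  rw [Measure.smul_apply, Measure.restrict_apply_univ, smul_eq_mul]
  exact ENNReal.inv_mul_cancel h0 h1

lemma cone_meas {d : ℕ} (κ : ℝ) (x : E d) : MeasurableSet (Cone κ x) := by
  have h1 : MeasurableSet {v : E d | κ * ‖x‖ * ‖v‖ ≤ ⟪x, v⟫} :=
    (isClosed_le (by fun_prop) (by fun_prop)).measurableSet
  have h2 : MeasurableSet {v : E d | v ≠ 0} := isOpen_ne.measurableSet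
  exact h1.inter h2

lemma grow (c B r : ℝ) (hc : 0 < c) (hr : 1 < r) :
    ∃ d₀ : ℕ, ∀ d : ℕ, d₀ ≤ d → (d : ℝ) * B + c < c * r ^ d := by
  have h1 := tendsto_pow_const_div_const_pow_of_one_lt 1 hr
  have h2 := tendsto_pow_const_div_const_pow_of_one_lt 0 hr
  have h3 : Tendsto (fun n : ℕ => B * ((n : ℝ) ^ 1 / r ^ n) + c * ((n : ℝ) ^ 0 / r ^ n)) atTop
      (𝓝 (B * 0 + c * 0)) := (h1.const_mul B).add (h2.const_mul c)
  rw [mul_zero, mul_zero, add_zero] at h3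
  have h4 : ∀ᶠ n : ℕ in atTop, B * ((n : ℝ) ^ 1 / r ^ n) + c * ((n : ℝ) ^ 0 / r ^ n) < c :=
    h3.eventually (gt_mem_nhds hc)
  obtain ⟨d₀, hd⟩ := eventually_atTop.mp h4
  refine ⟨d₀, fun d hdd => ?_⟩
  have h5 := hd d hdd
  have hp : 0 < r ^ d := by positivity
  have h6 : B * ((d : ℝ) ^ 1 / r ^ d) + c * ((d : ℝ) ^ 0 / r ^ d) = ((d : ℝ) * B + c) / r ^ d := by
    rw [pow_one, pow_zero]
    field_simp
  rw [h6, div_lt_iff₀ hp] at h5
  exact h5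

end PCov

open PCov

theorem p_cov (hnet : S_NET) (hcap : S_CAP) (hgr : S_GREEDY) : S_COV := by
  intro κ a q hκ ha hka hqa
  classical
  have ha1 : a < 1 := by nlinarith
  have hq1 : 1 < q := by nlinarith
  -- the larger cosine
  obtain ⟨δ, hδ, hδ2⟩ : ∃ δ : ℝ, 0 < δ ∧ (κ + δ) ^ 2 + a ^ 2 < 1 := by
    refine ⟨(1 - κ ^ 2 - a ^ 2) / (2 * (2 * κ + 1)), ?_, ?_⟩
    · apply div_pos <;> linarith
    · set t := (1 - κ ^ 2 - a ^ 2) / (2 * (2 * κ + 1)) with ht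
      have h1 : t * (2 * (2 * κ + 1)) = 1 - κ ^ 2 - a ^ 2 := by
        rw [ht]
        field_simp
      have h0 : 0 < t := by
        rw [ht]
        apply div_pos <;> linarith
      have h2 : t < 1 := by
        by_contra h
        have h' : 1 ≤ t := not_lt.mp h
        nlinarith [sq_nonneg κ, sq_nonneg a, mul_le_mul_of_nonneg_right h' (by linarith : 0 ≤ 2 * (2 * κ + 1))]
      nlinarith
  obtain ⟨c, hc, hcap'⟩ := hcap (κ + δ) a (by linarith) ha hδ2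
  obtain ⟨c', hc'0, hc'1, hc'c⟩ : ∃ c' : ℝ, 0 < c' ∧ c' ≤ 1 ∧ c' ≤ c :=
    ⟨min 1 c, lt_min one_pos hc, min_le_left _ _, min_le_right _ _⟩
  obtain ⟨d₀, hd₀⟩ := grow c' (Real.log (1 + 2 / δ)) (q * a) hc'0 hqa
  refine ⟨max d₀ 1, fun d hd => ?_⟩
  have hd1 : 1 ≤ d := (le_max_right _ _).trans hd
  have hdd := hd₀ d ((le_max_left _ _).trans hd)
  have hB : 0 < 1 + 2 / δ := by positivity
  have hP := unif_prob d
  obtain ⟨V, hVc, hV1, hVn⟩ := hnet d δ hδ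
  have had : 0 < a ^ d := by positivity
  have had1 : a ^ d ≤ 1 := pow_le_one₀ ha.le ha1.le
  have hqd : 0 < q ^ d := by positivity
  obtain ⟨S, hSc, hS⟩ := hgr (E d) (unif d) (E d) V (fun v => Cone (κ + δ) v) (c' * a ^ d)
    (by positivity) (mul_le_one₀ hc'1 had.le had1) (fun v _ => cone_meas _ v)
    (fun v _ => (ENNReal.ofReal_le_ofReal (mul_le_mul_of_nonneg_right hc'c had.le)).trans
      (hcap' d hd1 v)) ⌊q ^ d⌋₊ (by
      have h1 : (1 - c' * a ^ d) ^ ⌊q ^ d⌋₊ ≤ Real.exp (-(c' * a ^ d)) ^ ⌊q ^ d⌋₊ :=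
        pow_le_pow_left₀ (by
          have := mul_le_one₀ hc'1 had.le had1
          linarith) (Real.one_sub_le_exp_neg _) _
      have h2 : Real.exp (-(c' * a ^ d)) ^ ⌊q ^ d⌋₊ =
          Real.exp ((⌊q ^ d⌋₊ : ℝ) * (-(c' * a ^ d))) := by
        rw [← Real.exp_nat_mul]
      have h3 : (V.card : ℝ) ≤ Real.exp ((d : ℝ) * Real.log (1 + 2 / δ)) := by
        rw [Real.exp_nat_mul, Real.exp_log hB]
        exact hVc
      calc (1 - c' * a ^ d) ^ ⌊q ^ d⌋₊ * (V.card : ℝ)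
          ≤ Real.exp ((⌊q ^ d⌋₊ : ℝ) * (-(c' * a ^ d))) *
            Real.exp ((d : ℝ) * Real.log (1 + 2 / δ)) :=
            mul_le_mul (h1.trans h2.le) h3 (Nat.cast_nonneg _) (Real.exp_pos _).le
        _ = Real.exp ((⌊q ^ d⌋₊ : ℝ) * (-(c' * a ^ d)) +
            (d : ℝ) * Real.log (1 + 2 / δ)) := (Real.exp_add _ _).symm
        _ < 1 := by
            rw [Real.exp_lt_one_iff]
            have h4 : q ^ d - 1 < (⌊q ^ d⌋₊ : ℝ) := Nat.sub_one_lt_floor _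
            have h5 : (q ^ d - 1) * (c' * a ^ d) ≤ (⌊q ^ d⌋₊ : ℝ) * (c' * a ^ d) :=
              mul_le_mul_of_nonneg_right h4.le (by positivity)
            have h6 : (q * a) ^ d = q ^ d * a ^ d := mul_pow _ _ _
            rw [h6] at hdd
            have h7 : c' * a ^ d ≤ c' := by nlinarith
            nlinarith)
  obtain ⟨W, hW⟩ : ∃ W : Finset (E d), W = (S.filter (fun ω => ω ≠ 0)).image
    (fun ω => ‖ω‖⁻¹ • ω) := ⟨_, rfl⟩
  have hWc : W.card ≤ ⌊q ^ d⌋₊ := by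
    rw [hW]
    exact (Finset.card_image_le.trans (Finset.card_filter_le _ _)).trans hSc
  -- the unit vectors
  have key : ∀ x : E d, ‖x‖ = 1 → ∃ u ∈ W, κ ≤ ⟪x, u⟫ := by
    intro x hx
    obtain ⟨v, hv, hxv⟩ := hVn x hx
    obtain ⟨ω, hω, hωC⟩ := hS v hv
    have hω0 : ω ≠ 0 := hωC.2
    have hωn : 0 < ‖ω‖ := norm_pos_iff.mpr hω0
    have hωi : (κ + δ) * ‖v‖ * ‖ω‖ ≤ ⟪v, ω⟫ := hωC.1
    rw [hV1 v hv, mul_one] at hωi
    refine ⟨‖ω‖⁻¹ • ω, ?_, ?_⟩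
    · rw [hW, Finset.mem_image]
      exact ⟨ω, Finset.mem_filter.mpr ⟨hω, hω0⟩, rfl⟩
    · have h1 : κ + δ ≤ ⟪v, ‖ω‖⁻¹ • ω⟫ := by
        rw [real_inner_smul_right, inv_mul_eq_div, le_div_iff₀ hωn]
        exact hωi
      have hun : ‖‖ω‖⁻¹ • ω‖ = 1 := by
        rw [norm_smul, norm_inv, norm_norm, inv_mul_cancel₀ hωn.ne']
      have h2 : -δ ≤ ⟪x - v, ‖ω‖⁻¹ • ω⟫ := by
        have h3 := abs_real_inner_le_norm (x - v) (‖ω‖⁻¹ • ω)
        rw [hun, mul_one] at h3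
        have h4 := (abs_le.mp (h3.trans hxv)).1
        exact h4
      have h5 : ⟪x, ‖ω‖⁻¹ • ω⟫ = ⟪v, ‖ω‖⁻¹ • ω⟫ + ⟪x - v, ‖ω‖⁻¹ • ω⟫ := by
        rw [← inner_add_left]
        congr 1
        abel
      rw [h5]
      linarith
  refine ⟨W, ?_, ?_, ?_⟩
  · calc (W.card : ℝ) ≤ (⌊q ^ d⌋₊ : ℝ) := by exact_mod_cast hWc
      _ ≤ q ^ d := Nat.floor_le hqd.le
  · intro u hu
    rw [hW, Finset.mem_image] at hu
    obtain ⟨ω, hω, rfl⟩ := hu
    have hω0 : ω ≠ 0 := (Finset.mem_filter.mp hω).2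
    rw [norm_smul, norm_inv, norm_norm, inv_mul_cancel₀ (norm_ne_zero_iff.mpr hω0)]
  · intro x
    by_cases hx : x = 0
    · have he : ‖(EuclideanSpace.single (⟨0, hd1⟩ : Fin d) (1 : ℝ) : E d)‖ = 1 := by
        simp
      obtain ⟨u, hu, _⟩ := key _ he
      refine ⟨u, hu, ?_⟩
      rw [hx, norm_zero, mul_zero, inner_zero_left]
    · have hxn : 0 < ‖x‖ := norm_pos_iff.mpr hx
      have h1 : ‖‖x‖⁻¹ • x‖ = 1 := by
        rw [norm_smul, norm_inv, norm_norm, inv_mul_cancel₀ hxn.ne']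
      obtain ⟨u, hu, hκu⟩ := key _ h1
      refine ⟨u, hu, ?_⟩
      rw [real_inner_smul_left, inv_mul_eq_div, le_div_iff₀ hxn] at hκu
      exact hκu

end Pool.Agent.H266.RP
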