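import Pool.Agent.H266.RP.Stm

/-!
# Covering numbers of random polytopes: `S_DET` and `S_FEW` from `S_ILL` (helper348)
-/

set_option autoImplicit false

open MeasureTheory Set Metric
open scoped Pointwise RealInnerProductSpace ENNReal

namespace Pool.Agent.H266.RP

theorem PDet.ball_aux {d : ℕ} (y u : E d) (b κ ρ : ℝ) (hρ : 0 < ρ) (hb : 0 < b) (hκ : 0 < κ)
    (hbκ : 1 - κ ^ 2 < b ^ 2) (hy : ‖y‖ ≤ ρ) (hu : ‖u‖ = 1) (h : κ * ‖y‖ ≤ ⟪y, u⟫) :
    ‖y + ⟪y, u⟫ • (-u)‖ < b * ρ := by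
  set τ : ℝ := ⟪y, u⟫ with hτ
  have h1 : ‖y + τ • (-u)‖ ^ 2 = ‖y‖ ^ 2 - τ ^ 2 := by
    rw [smul_neg, ← sub_eq_add_neg, norm_sub_sq_real, inner_smul_right, ← hτ, norm_smul, hu,
      mul_one, Real.norm_eq_abs, sq_abs]
    ring
  have h2 : (κ * ‖y‖) ^ 2 ≤ τ ^ 2 := pow_le_pow_left₀ (by positivity) h 2
  have h3 : ‖y‖ ^ 2 ≤ ρ ^ 2 := pow_le_pow_left₀ (norm_nonneg _) hy 2
  have h4 : (1 - κ ^ 2) * ‖y‖ ^ 2 < (b * ρ) ^ 2 := by
    rcases le_or_gt (1 - κ ^ 2) 0 with h5 | h5
    · have h6 : (1 - κ ^ 2) * ‖y‖ ^ 2 ≤ 0 := mul_nonpos_of_nonpos_of_nonneg h5 (sq_nonneg _)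
      have h7 : 0 < (b * ρ) ^ 2 := by positivity
      linarith
    · calc (1 - κ ^ 2) * ‖y‖ ^ 2 ≤ (1 - κ ^ 2) * ρ ^ 2 := mul_le_mul_of_nonneg_left h3 h5.le
        _ < b ^ 2 * ρ ^ 2 := mul_lt_mul_of_pos_right hbκ (by positivity)
        _ = (b * ρ) ^ 2 := by ring
  have h5 : ‖y + τ • (-u)‖ ^ 2 < (b * ρ) ^ 2 := by
    rw [h1]
    nlinarith
  exact lt_of_pow_lt_pow_left₀ 2 (by positivity) h5

theorem p_det (hill : S_ILL) : S_DET := by
  classical
  intro d ι _ y J W b κ ρ hρ hb hκ hbκ hball hJ hW hcov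
  have hint : ball (0 : E d) (b * ρ) ⊆ interior (convexHull ℝ (range y)) :=
    interior_maximal (ball_subset_closedBall.trans hball) isOpen_ball
  have h0 : (0 : E d) ∈ interior (convexHull ℝ (range y)) :=
    hint (mem_ball_self (by positivity))
  obtain ⟨T, hT, hTL⟩ := hill d ι y
    (J.image (fun i => - y i) ∪ W.image (fun u => -u) ∪ {0}) (by
      intro i
      by_cases hi : i ∈ J
      · refine ⟨- y i, ?_, 1, one_pos, ?_⟩
        · exact Finset.mem_union_left _ (Finset.mem_union_left _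
            (Finset.mem_image_of_mem (fun i => - y i) hi))
        · rw [one_smul, add_neg_cancel]
          exact h0
      · by_cases hy : y i = 0
        · refine ⟨0, ?_, 1, one_pos, ?_⟩
          · exact Finset.mem_union_right _ (Finset.mem_singleton_self _)
          · rw [hy, one_smul, add_zero]
            exact h0
        · obtain ⟨u, hu, h⟩ := hcov (y i)
          have hpos : 0 < κ * ‖y i‖ := mul_pos hκ (norm_pos_iff.2 hy)
          refine ⟨-u, ?_, ⟪y i, u⟫, hpos.trans_le h, ?_⟩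
          · exact Finset.mem_union_left _ (Finset.mem_union_right _
              (Finset.mem_image_of_mem (fun u => -u) hu))
          · apply hint
            rw [mem_ball_zero_iff]
            exact PDet.ball_aux (y i) u b κ ρ hρ hb hκ hbκ (hJ i hi) (hW u hu) h)
  refine ⟨T, hT.trans ?_, hTL⟩
  refine (Finset.card_union_le _ _).trans ?_
  refine Nat.add_le_add ?_ (Finset.card_singleton _).le
  refine (Finset.card_union_le _ _).trans ?_
  exact Nat.add_le_add Finset.card_image_le Finset.card_image_le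

theorem p_few (hill : S_ILL) : S_FEW := by
  classical
  intro d ι _ y J hne hJ
  obtain ⟨c, hc⟩ := hne
  obtain ⟨T, hT, hTL⟩ := hill d ι y (J.image (fun i => c - y i) ∪ {c}) (by
      intro i
      by_cases hi : i ∈ J
      · refine ⟨c - y i, ?_, 1, one_pos, ?_⟩
        · exact Finset.mem_union_left _ (Finset.mem_image_of_mem (fun i => c - y i) hi)
        · rw [one_smul, add_sub_cancel]
          exact hc
      · refine ⟨c, ?_, 1, one_pos, ?_⟩
        · exact Finset.mem_union_right _ (Finset.mem_singleton_self _)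
        · rw [hJ i hi, one_smul, zero_add]
          exact hc)
  refine ⟨T, hT.trans ?_, hTL⟩
  refine (Finset.card_union_le _ _).trans ?_
  exact Nat.add_le_add Finset.card_image_le (Finset.card_singleton _).le

end Pool.Agent.H266.RP
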