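import Pool.Agent.H266.RP.Stm2

/-!
# Covering numbers of random polytopes: basic properties of the law of the direction
-/

set_option autoImplicit false

open MeasureTheory Set Metric
open scoped Pointwise RealInnerProductSpace ENNReal

namespace Pool.Agent.H266.RP

namespace PDir

theorem dprob (d : ℕ) : IsProbabilityMeasure (unif d) := by
  refine ⟨?_⟩
  have h0 : volume (closedBall (0 : E d) 1) ≠ 0 :=
    (measure_closedBall_pos volume (0 : E d) one_pos).ne'
  have h1 : volume (closedBall (0 : E d) 1) ≠ ∞ := measure_closedBall_lt_top.ne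
  unfold unif
  rw [Measure.smul_apply, Measure.restrict_apply_univ, smul_eq_mul]
  exact ENNReal.inv_mul_cancel h0 h1

theorem dmeas (d : ℕ) : Measurable (fun y : E d => ‖y‖⁻¹ • y) :=
  (measurable_norm.inv).smul measurable_id

theorem diso (d : ℕ) (U : E d ≃ₗᵢ[ℝ] E d) : (unif d).map U = unif d := by
  have hU : MeasurePreserving U volume volume := U.measurePreserving
  have hUm : Measurable U := hU.measurable
  have hpre : (U ⁻¹' closedBall (0 : E d) 1) = closedBall (0 : E d) 1 := by
    ext x
    simp only [mem_preimage, mem_closedBall, dist_zero_right, U.norm_map]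
  unfold unif
  rw [Measure.map_smul]
  congr 1
  have h := Measure.restrict_map (μ := (volume : Measure (E d))) hUm
    (measurableSet_closedBall (x := (0 : E d)) (ε := 1))
  rw [hpre, hU.map_eq] at h
  exact h.symm

end PDir

theorem p_dir : S_DIR := by
  intro d hd
  have := PDir.dprob d
  refine ⟨Measure.isProbabilityMeasure_map (PDir.dmeas d).aemeasurable, ?_, ?_⟩
  · intro U
    have hUm : Measurable U := U.measurePreserving.measurable
    unfold dirLaw
    rw [Measure.map_map hUm (PDir.dmeas d)]
    have e : (U ∘ fun y : E d => ‖y‖⁻¹ • y) = (fun y : E d => ‖y‖⁻¹ • y) ∘ U := by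
      funext y
      simp only [Function.comp_apply, map_smul, U.norm_map]
    rw [e, ← Measure.map_map (PDir.dmeas d) hUm, PDir.diso d U]
  · have hms : MeasurableSet {x : E d | ‖x‖ = 1} := measurableSet_eq_fun measurable_norm
      measurable_const
    unfold dirLaw
    rw [ae_map_iff (PDir.dmeas d).aemeasurable hms]
    have hne : ∀ᵐ y ∂(unif d), y ≠ (0 : E d) := by
      rw [ae_iff]
      have e : {a : E d | ¬ a ≠ 0} = {0} := by
        ext a
        simp
      rw [e]
      have : Nonempty (Fin d) := ⟨⟨0, hd⟩⟩
      have : Nontrivial (E d) := inferInstance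
      unfold unif
      rw [Measure.smul_apply, smul_eq_mul]
      have : (volume.restrict (closedBall (0 : E d) 1)) {(0 : E d)} = 0 :=
        le_antisymm ((Measure.restrict_apply_le _ _).trans (by simp)) zero_le
      rw [this, mul_zero]
    filter_upwards [hne] with y hy
    rw [norm_smul, norm_inv, norm_norm]
    exact inv_mul_cancel₀ (norm_ne_zero_iff.2 hy)

end Pool.Agent.H266.RP
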