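import Pool.Agent.H266.RP.Stm

/-!
# Illumination implies covering
-/

set_option autoImplicit false

open MeasureTheory Set Metric
open scoped Pointwise RealInnerProductSpace ENNReal

namespace Pool.Agent.H266.RP

namespace IllL

variable {F : Type*} [NormedAddCommGroup F] [NormedSpace ℝ F]

theorem weights {ι : Type*} [Fintype ι] (y : ι → F) (x : F) (hx : x ∈ convexHull ℝ (range y)) :
    ∃ l : ι → ℝ, (∀ i, 0 ≤ l i) ∧ ∑ i, l i = 1 ∧ ∑ i, l i • y i = x := by
  classical
  rw [convexHull_range_eq_exists_affineCombination] at hx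
  obtain ⟨s, w, h0, h1, h2⟩ := hx
  rw [s.affineCombination_eq_linear_combination y w h1] at h2
  refine ⟨fun i => if i ∈ s then w i else 0, ?_, ?_, ?_⟩
  · intro i
    dsimp only
    split_ifs with h
    · exact h0 i h
    · exact le_rfl
  · rw [Finset.sum_ite_mem, Finset.univ_inter]
    exact h1
  · rw [← h2]
    simp only [ite_smul, zero_smul]
    rw [Finset.sum_ite_mem, Finset.univ_inter]

theorem step {ι : Type*} [Fintype ι] (y : ι → F) (l : ι → ℝ) (hl : ∀ i, 0 ≤ l i)
    (hl1 : ∑ i, l i = 1) (i : ι) (hi : 0 < l i) (w : F) (s : ℝ)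
    (h : y i + (s / l i) • w ∈ interior (convexHull ℝ (range y))) :
    ∑ i, l i • y i + s • w ∈ interior (convexHull ℝ (range y)) := by
  classical
  set x := ∑ i, l i • y i with hx
  set g : F → F := fun z => y i + (l i)⁻¹ • (z - x) with hg
  have hgc : Continuous g := by
    rw [hg]
    fun_prop
  have hV : IsOpen (g ⁻¹' interior (convexHull ℝ (range y))) := isOpen_interior.preimage hgc
  have hsub : g ⁻¹' interior (convexHull ℝ (range y)) ⊆ convexHull ℝ (range y) := by
    intro z hz
    have hz1 : g z ∈ convexHull ℝ (range y) := interior_subset hz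
    have e1 : z = ∑ j, l j • (Function.update y i (g z)) j := by
      have e2 : ∑ j, l j • (Function.update y i (g z)) j - x = l i • (g z - y i) := by
        rw [hx, ← Finset.sum_sub_distrib, Finset.sum_eq_single i]
        · rw [Function.update_self, smul_sub]
        · intro j _ hj
          rw [Function.update_of_ne hj, sub_self]
        · intro h'
          exact absurd (Finset.mem_univ i) h'
      have e3 : l i • (g z - y i) = z - x := by
        rw [hg]
        simp only [add_sub_cancel_left]
        rw [smul_smul, mul_inv_cancel₀ hi.ne', one_smul]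
      rw [e3] at e2
      exact (sub_left_injective e2).symm
    rw [e1]
    apply (convex_convexHull ℝ (range y)).sum_mem (fun j _ => hl j) hl1
    intro j _
    by_cases hj : j = i
    · rw [hj, Function.update_self]
      exact hz1
    · rw [Function.update_of_ne hj]
      exact subset_convexHull ℝ _ ⟨j, rfl⟩
  have hmem : x + s • w ∈ g ⁻¹' interior (convexHull ℝ (range y)) := by
    show y i + (l i)⁻¹ • (x + s • w - x) ∈ interior (convexHull ℝ (range y))
    rw [add_sub_cancel_left, smul_smul, inv_mul_eq_div]
    exact h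
  exact interior_maximal hsub hV hmem

theorem big {ι : Type*} [Fintype ι] [Nonempty ι] (l : ι → ℝ) (hl1 : ∑ i, l i = 1) :
    ∃ i, 1 / (Fintype.card ι : ℝ) ≤ l i := by
  by_contra h
  push Not at h
  have h1 : ∑ i, l i < ∑ _i : ι, 1 / (Fintype.card ι : ℝ) :=
    Finset.sum_lt_sum_of_nonempty Finset.univ_nonempty (fun i _ => h i)
  have hc : (0 : ℝ) < Fintype.card ι := by exact_mod_cast Fintype.card_pos
  rw [Finset.sum_const, Finset.card_univ, nsmul_eq_mul, mul_one_div_cancel hc.ne', hl1] at h1
  exact lt_irrefl _ h1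

end IllL

theorem p_ill : S_ILL := by
  classical
  intro d ι _ y W hW
  rcases isEmpty_or_nonempty ι with hι | hι
  · refine ⟨∅, by simp, ?_⟩
    intro L z hz
    rw [range_eq_empty, convexHull_empty, empty_add] at hz
    exact absurd hz (notMem_empty z)
  choose w hwW τ hτ hint using hW
  obtain ⟨i₀, _, hi₀⟩ := Finset.exists_min_image Finset.univ τ Finset.univ_nonempty
  have hc : (0 : ℝ) < Fintype.card ι := by exact_mod_cast Fintype.card_pos
  set s : ℝ := τ i₀ / Fintype.card ι with hs
  have hs0 : 0 < s := div_pos (hτ i₀) hc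
  refine ⟨W.image (fun w => -(s • w)), Finset.card_image_le, ?_⟩
  intro L z hz
  obtain ⟨k, hk, b, hb, rfl⟩ := hz
  obtain ⟨l, hl0, hl1, hlk⟩ := IllL.weights y k hk
  obtain ⟨i, hi⟩ := IllL.big l hl1
  have hli : 0 < l i := lt_of_lt_of_le (by positivity) hi
  have hsl : s / l i ≤ τ i := by
    rw [div_le_iff₀ hli]
    have h1 : s = τ i₀ * (1 / (Fintype.card ι : ℝ)) := by
      rw [hs]
      ring
    rw [h1]
    exact mul_le_mul (hi₀ i (Finset.mem_univ i)) hi (by positivity) (hτ i).le
  have hmem : y i + (s / l i) • w i ∈ interior (convexHull ℝ (range y)) := by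
    have h1 := (convex_convexHull ℝ (range y)).add_smul_mem_interior
      (subset_convexHull ℝ _ ⟨i, rfl⟩) (hint i) (t := (s / l i) / τ i)
      ⟨by
        have := hτ i
        positivity, by
        rw [div_le_one (hτ i)]
        exact hsl⟩
    rw [smul_smul, div_mul_cancel₀ _ (hτ i).ne'] at h1
    exact h1
  have hfin := IllL.step y l hl0 hl1 i hli (w i) s hmem
  rw [hlk] at hfin
  rw [mem_iUnion₂]
  refine ⟨-(s • w i), Finset.mem_image_of_mem _ (hwW i), ?_⟩
  refine ⟨k + s • w i + b, ?_, ?_⟩
  · exact subset_interior_add_left (add_mem_add hfin hb)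
  · show -(s • w i) + (k + s • w i + b) = k + b
    abel

end Pool.Agent.H266.RP
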