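import Pool.Agent.H266.RP.Stm2

/-!
# Covering numbers of random polytopes: one translate covers few points, symmetric hull
-/

set_option autoImplicit false

open MeasureTheory Set Metric
open scoped Pointwise RealInnerProductSpace ENNReal

namespace Pool.Agent.H266.RP

namespace Low1H166

theorem inner_proj_self {d : ℕ} {w : E d} (hw : ‖w‖ = 1) (x : E d) : ⟪proj w x, w⟫ = 0 := by
  unfold proj
  rw [inner_sub_left, inner_smul_left, real_inner_self_eq_norm_sq, hw]
  simp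

theorem inner_proj {d : ℕ} {w : E d} (hw : ‖w‖ = 1) (x y : E d) :
    ⟪proj w x, y⟫ = ⟪proj w x, proj w y⟫ := by
  have h : proj w y = y - ⟪y, w⟫ • w := rfl
  rw [h, inner_sub_right, inner_smul_right, inner_proj_self hw, mul_zero, sub_zero]

theorem exists_unit {d : ℕ} (hd : 1 ≤ d) (t : E d) : ∃ w : E d, ‖w‖ = 1 ∧ ∃ c : ℝ, t = c • w := by
  by_cases ht : t = 0
  · refine ⟨EuclideanSpace.single (⟨0, by omega⟩ : Fin d) (1 : ℝ), ?_, 0, ?_⟩
    · rw [EuclideanSpace.norm_single, norm_one]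
    · rw [ht, zero_smul]
  · have hn : ‖t‖ ≠ 0 := norm_ne_zero_iff.mpr ht
    refine ⟨‖t‖⁻¹ • t, ?_, ‖t‖, ?_⟩
    · rw [norm_smul, norm_inv, norm_norm, inv_mul_cancel₀ hn]
    · rw [smul_smul, mul_inv_cancel₀ hn, one_smul]

end Low1H166

open Low1H166 in
theorem p_low1 : S_LOW1 := by
  intro d N x hd hN t
  obtain ⟨w, hw, c, hc⟩ := exists_unit hd t
  refine ⟨w, hw, ?_⟩
  intro i hi
  obtain ⟨y, hy, hyt⟩ := hi
  have hyt' : t + y = x i := hyt
  obtain ⟨f, hf⟩ : ∃ f, f = proj w (x i) := ⟨_, rfl⟩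
  have hfw : ⟪f, w⟫ = 0 := by rw [hf]; exact inner_proj_self hw _
  have hft : ⟪f, t⟫ = 0 := by rw [hc, inner_smul_right, hfw, mul_zero]
  have hfx : ⟪f, x i⟫ = ‖f‖ ^ 2 := by
    rw [hf, inner_proj hw, real_inner_self_eq_norm_sq]
  have hfy : ⟪f, y⟫ = ‖f‖ ^ 2 := by
    rw [← hfx, ← hyt', inner_add_right, hft, zero_add]
  rw [← hf]
  by_cases hf0 : f = 0
  · obtain ⟨j, hj⟩ : ∃ j : Fin N, j ≠ i := by
      have : Nontrivial (Fin N) := Fin.nontrivial_iff_two_le.mpr hN
      exact exists_ne i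
    refine ⟨j, hj, ?_⟩
    rw [hf0, norm_zero]
    have := abs_nonneg (⟪(0 : E d), x j⟫)
    simpa using this
  · have hfn : 0 < ‖f‖ := norm_pos_iff.mpr hf0
    obtain ⟨ε, hε, hball⟩ := Metric.isOpen_iff.mp isOpen_interior y hy
    obtain ⟨s, hs⟩ : ∃ s, s = ε / 2 / ‖f‖ := ⟨_, rfl⟩
    have hs0 : 0 < s := by rw [hs]; positivity
    have hmem : y + s • f ∈ interior (symPoly x) := by
      apply hball
      rw [Metric.mem_ball, dist_eq_norm, add_sub_cancel_left, norm_smul,
        Real.norm_of_nonneg hs0.le, hs]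
      field_simp
      linarith
    have hmem2 : y + s • f ∈ convexHull ℝ (range x ∪ range (fun i => - x i)) :=
      interior_subset hmem
    have hj : ∃ j, ⟪f, y⟫ < |⟪f, x j⟫| := by
      by_contra hcon
      push Not at hcon
      have hconv : Convex ℝ {z : E d | ⟪f, z⟫ ≤ ⟪f, y⟫} := by
        apply convex_halfSpace_le (f := fun z : E d => ⟪f, z⟫)
        exact ⟨fun a b => inner_add_right f a b, fun r a => inner_smul_right f a r⟩
      have hsub : convexHull ℝ (range x ∪ range (fun i => - x i)) ⊆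
          {z : E d | ⟪f, z⟫ ≤ ⟪f, y⟫} := by
        apply convexHull_min _ hconv
        rintro z (⟨j, rfl⟩ | ⟨j, rfl⟩)
        · exact (le_abs_self _).trans (hcon j)
        · show ⟪f, - x j⟫ ≤ ⟪f, y⟫
          rw [inner_neg_right]
          exact (neg_le_abs _).trans (hcon j)
      have h1 : ⟪f, y + s • f⟫ ≤ ⟪f, y⟫ := hsub hmem2
      rw [inner_add_right, inner_smul_right, real_inner_self_eq_norm_sq] at h1
      have h2 : 0 < s * ‖f‖ ^ 2 := by positivity
      linarith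
    obtain ⟨j, hj⟩ := hj
    rw [hfy] at hj
    refine ⟨j, ?_, hj.le⟩
    rintro rfl
    rw [hfx, abs_of_nonneg (sq_nonneg _)] at hj
    exact lt_irrefl _ hj

end Pool.Agent.H266.RP
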