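import Pool.Agent.H266.RP.Stm

/-!
# Covering numbers of random polytopes: the main probability estimate (`S_PROB`)
-/

set_option autoImplicit false

open MeasureTheory Set Metric
open scoped Pointwise RealInnerProductSpace ENNReal

namespace Pool.Agent.H266.RP

namespace PProb

theorem unif_prob (d : ℕ) : IsProbabilityMeasure (unif d) := by
  refine ⟨?_⟩
  have h0 : volume (closedBall (0 : E d) 1) ≠ 0 :=
    (measure_closedBall_pos volume (0 : E d) one_pos).ne'
  have h1 : volume (closedBall (0 : E d) 1) ≠ ∞ := measure_closedBall_lt_top.ne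
  unfold unif
  rw [Measure.smul_apply, Measure.restrict_apply_univ, smul_eq_mul]
  exact ENNReal.inv_mul_cancel h0 h1

theorem unif_noAtoms (d : ℕ) [Nontrivial (E d)] : NullSingletonClass (unif d) := by
  refine ⟨fun x => ?_⟩
  unfold unif
  rw [Measure.smul_apply, smul_eq_mul]
  have : (volume.restrict (closedBall (0 : E d) 1)) {x} = 0 :=
    le_antisymm ((Measure.restrict_apply_le _ _).trans (by simp)) zero_le
  rw [this, mul_zero]

theorem meas_top {d N : ℕ} (m : ℕ) (i : Fin N) :
    MeasurableSet {x : Fin N → E d | i ∈ Top (fun j => ‖x j‖) m} := by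
  have h : {x : Fin N → E d | i ∈ Top (fun j => ‖x j‖) m} =
      {x | (∑ j : Fin N, if ‖x i‖ < ‖x j‖ then 1 else 0 : ℕ) < m} := by
    ext x
    simp only [Top, Finset.mem_filter, Finset.mem_univ, true_and, mem_ofPred_eq,
      Finset.card_filter]
  rw [h]
  refine measurableSet_lt ?_ measurable_const
  refine Finset.measurable_sum _ fun j _ => ?_
  refine Measurable.ite ?_ measurable_const measurable_const
  exact measurableSet_lt (measurable_pi_apply i).norm (measurable_pi_apply j).norm

theorem rot {d : ℕ} {v w : E d} (hv : ‖v‖ = 1) (hw : w ≠ 0) :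
    ∃ U : E d ≃ₗᵢ[ℝ] E d, ∀ x : E d, ⟪U x, v⟫ * ‖w‖ = ⟪x, w⟫ := by
  have hw0 : ‖w‖ ≠ 0 := norm_ne_zero_iff.2 hw
  have hn : ‖(‖w‖⁻¹ • w : E d)‖ = ‖v‖ := by
    rw [hv, norm_smul, norm_inv, norm_norm, inv_mul_cancel₀ hw0]
  have h := Submodule.reflection_sub hn
  refine ⟨(ℝ ∙ (‖w‖⁻¹ • w - v))ᗮ.reflection, fun x => ?_⟩
  have h2 := LinearIsometryEquiv.inner_map_map (ℝ ∙ (‖w‖⁻¹ • w - v))ᗮ.reflection x (‖w‖⁻¹ • w)
  rw [h, real_inner_smul_right] at h2
  rw [h2]
  field_simp

end PProb

open PProb in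
theorem p_prob (htop : S_TOP) : S_PROB := by
  intro d N m μ _ hiso hd hm κ p hκ hp0 hp1 hcone v hv
  have hnt : Nontrivial (E d) := ⟨v, 0, by
    intro h
    rw [h, norm_zero] at hv
    exact zero_ne_one hv⟩
  have hprob := unif_prob d
  have hna := unif_noAtoms d
  set A : Set (Fin N → E d) :=
    {x | ∀ i ∈ Top (fun j => ‖x j‖) m, ⟪x i, v⟫ < κ * ‖x i‖} with hA
  set S : Set ((Fin N → E d) × (Fin N → E d)) :=
    {z | ∀ i ∈ Top (fun j => ‖z.1 j‖) m, ⟪z.1 i, z.2 i⟫ < κ * ‖z.1 i‖ * ‖z.2 i‖} with hS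
  have hAm : MeasurableSet A := by
    have e : A = ⋂ i : Fin N, ({x | i ∈ Top (fun j => ‖x j‖) m}ᶜ ∪ {x | ⟪x i, v⟫ < κ * ‖x i‖}) := by
      ext x
      simp only [hA, mem_ofPred_eq, mem_iInter, mem_union, mem_compl_iff]
      exact forall_congr' fun i => by tauto
    rw [e]
    refine MeasurableSet.iInter fun i => (meas_top m i).compl.union ?_
    exact measurableSet_lt ((measurable_pi_apply i).inner measurable_const)
      ((measurable_pi_apply i).norm.const_mul κ)
  have hSm : MeasurableSet S := by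
    have e : S = ⋂ i : Fin N, ((Prod.fst ⁻¹' {x | i ∈ Top (fun j => ‖x j‖) m})ᶜ ∪
        {z : (Fin N → E d) × (Fin N → E d) | ⟪z.1 i, z.2 i⟫ < κ * ‖z.1 i‖ * ‖z.2 i‖}) := by
      ext x
      simp only [hS, mem_ofPred_eq, mem_iInter, mem_union, mem_compl_iff, mem_preimage]
      exact forall_congr' fun i => by tauto
    rw [e]
    refine MeasurableSet.iInter fun i => (measurable_fst (meas_top m i)).compl.union ?_
    have h1 : Measurable fun z : (Fin N → E d) × (Fin N → E d) => z.1 i :=
      (measurable_pi_apply i).comp measurable_fst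
    have h2 : Measurable fun z : (Fin N → E d) × (Fin N → E d) => z.2 i :=
      (measurable_pi_apply i).comp measurable_snd
    exact measurableSet_lt (h1.inner h2) ((h1.norm.const_mul κ).mul h2.norm)
  have h1 : ∀ v' : Fin N → E d, (∀ i, v' i ≠ 0) →
      Measure.pi μ ((fun x => (x, v')) ⁻¹' S) = Measure.pi μ A := by
    intro v' hv'
    choose U hU using fun i => rot hv (hv' i)
    have hmp : MeasurePreserving (fun (x : Fin N → E d) (i : Fin N) => U i (x i))
        (Measure.pi μ) (Measure.pi μ) :=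
      measurePreserving_pi μ μ fun i => ⟨(U i).continuous.measurable, hiso i (U i)⟩
    rw [← hmp.measure_preimage hAm.nullMeasurableSet]
    congr 1
    ext x
    simp only [hS, hA, mem_preimage, mem_ofPred_eq, LinearIsometryEquiv.norm_map]
    refine forall_congr' fun i => imp_congr Iff.rfl ?_
    rw [← hU i (x i)]
    exact mul_lt_mul_iff_left₀ (norm_pos_iff.2 (hv' i))
  have h2 : ∀ᵐ v' ∂(Measure.pi fun _ : Fin N => unif d), ∀ i, v' i ≠ 0 := by
    rw [ae_all_iff]
    intro i
    exact Measure.ae_eval_ne (fun _ : Fin N => unif d) i 0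
  have h3 : ((Measure.pi μ).prod (Measure.pi fun _ : Fin N => unif d)) S = Measure.pi μ A := by
    rw [Measure.prod_apply_symm hSm, lintegral_congr_ae (h2.mono h1), lintegral_const,
      measure_univ, mul_one]
  have hc1 : ∀ x : E d, unif d {u | ⟪x, u⟫ < κ * ‖x‖ * ‖u‖} ≤ ENNReal.ofReal (1 - p) := by
    intro x
    have hcm : MeasurableSet (Cone κ x) := by
      refine MeasurableSet.inter ?_ ?_
      · exact measurableSet_le (measurable_norm.const_mul _)
          (measurable_const.inner measurable_id)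
      · exact (measurableSet_singleton (0 : E d)).compl
    have hsub : {u : E d | ⟪x, u⟫ < κ * ‖x‖ * ‖u‖} ⊆ (Cone κ x)ᶜ := by
      intro u hu hu'
      exact absurd hu'.1 (not_le.2 hu)
    refine (measure_mono hsub).trans ?_
    rw [prob_compl_eq_one_sub hcm, ENNReal.ofReal_sub _ hp0, ENNReal.ofReal_one]
    exact tsub_le_tsub_left (hcone x) 1
  have hmT : ∀ x : Fin N → E d, m ≤ (Top (fun j => ‖x j‖) m).card := by
    intro x
    rcases Nat.eq_zero_or_pos m with h0 | h0
    · omega
    · obtain ⟨_, _, _, h, _⟩ := htop N m (fun j => ‖x j‖) h0 hm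
      exact h
  have h4 : ∀ x : Fin N → E d, (Measure.pi fun _ : Fin N => unif d) (Prod.mk x ⁻¹' S) ≤
      ENNReal.ofReal ((1 - p) ^ m) := by
    intro x
    have e : (Prod.mk x ⁻¹' S) = Set.pi univ (fun i => if i ∈ Top (fun j => ‖x j‖) m then
        {u : E d | ⟪x i, u⟫ < κ * ‖x i‖ * ‖u‖} else univ) := by
      ext u
      simp only [hS, mem_preimage, mem_ofPred_eq, mem_pi, mem_univ, true_implies]
      refine forall_congr' fun i => ?_
      by_cases hi : i ∈ Top (fun j => ‖x j‖) m
      · simp only [hi, true_implies, if_true, mem_ofPred_eq]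
      · simp only [hi, false_implies, if_false, mem_univ]
    rw [e, Measure.pi_pi]
    have h5 : ∏ i : Fin N, unif d (if i ∈ Top (fun j => ‖x j‖) m then
        {u : E d | ⟪x i, u⟫ < κ * ‖x i‖ * ‖u‖} else univ) ≤
        ∏ i : Fin N, (if i ∈ Top (fun j => ‖x j‖) m then ENNReal.ofReal (1 - p) else 1) := by
      refine Finset.prod_le_prod' fun i _ => ?_
      split_ifs with hi
      · exact hc1 (x i)
      · exact prob_le_one
    refine h5.trans ?_
    rw [Finset.prod_ite_mem, Finset.univ_inter, Finset.prod_const, ENNReal.ofReal_pow (by linarith)]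
    exact pow_le_pow_right_of_le_one' (by
      rw [ENNReal.ofReal_le_one]
      linarith) (hmT x)
  rw [← h3, Measure.prod_apply hSm]
  refine (lintegral_mono h4).trans ?_
  rw [lintegral_const, measure_univ, mul_one]

end Pool.Agent.H266.RP
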