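import Pool.Agent.H266.RP.Stm2

/-!
# Covering numbers of random polytopes: the section bound
-/

set_option autoImplicit false

open MeasureTheory Set Metric
open scoped Pointwise RealInnerProductSpace ENNReal

namespace Pool.Agent.H266.RP

namespace PSec

variable {d : ℕ}

theorem proj_orth {w : E d} (hw : ‖w‖ = 1) (x : E d) : ⟪proj w x, w⟫ = 0 := by
  unfold proj
  rw [inner_sub_left, inner_smul_left, real_inner_self_eq_norm_sq, hw]
  simp

theorem inner_proj {w : E d} (hw : ‖w‖ = 1) (x y : E d) :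
    ⟪proj w x, proj w y⟫ = ⟪proj w x, y⟫ := by
  have e : proj w y = y - ⟪y, w⟫ • w := rfl
  rw [e, inner_sub_right, inner_smul_right, proj_orth hw, mul_zero, sub_zero]

theorem proj_sq_le {w : E d} (hw : ‖w‖ = 1) (y : E d) : ‖proj w y‖ ^ 2 ≤ ‖y‖ ^ 2 := by
  rw [← real_inner_self_eq_norm_sq, inner_proj hw]
  have e : proj w y = y - ⟪y, w⟫ • w := rfl
  rw [e, inner_sub_left, inner_smul_left, real_inner_self_eq_norm_sq, real_inner_comm y w]
  have h := sq_nonneg (⟪y, w⟫ : ℝ)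
  simp only [conj_trivial]
  rw [real_inner_comm w y] at *
  nlinarith

theorem pt {w : E d} (hw : ‖w‖ = 1) {θ δ : ℝ} (h1 : 1 / 2 ≤ θ) (h2 : θ ≤ 1) (hδ : 0 < δ)
    {x y : E d} (hy : ‖y‖ ≤ 1) (hf : θ ≤ ‖proj w x‖ ^ 2 ∨ θ = 1 / 2)
    (h : ‖proj w x‖ ^ 2 ≤ |⟪proj w x, y⟫| + 4 * δ) :
    ‖proj w x - θ • proj w y‖ ≤ √(θ - θ ^ 2 + 8 * δ) ∨
      ‖proj w x - (-θ) • proj w y‖ ≤ √(θ - θ ^ 2 + 8 * δ) := by
  have hp : ‖proj w y‖ ^ 2 ≤ 1 := by
    refine (proj_sq_le hw y).trans ?_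
    have := norm_nonneg y
    nlinarith
  have key : ∀ τ : ℝ, τ ^ 2 = θ ^ 2 → τ * ⟪proj w x, y⟫ = θ * |⟪proj w x, y⟫| →
      ‖proj w x - τ • proj w y‖ ≤ √(θ - θ ^ 2 + 8 * δ) := by
    intro τ ht hτ
    have h3 : ‖proj w x - τ • proj w y‖ ^ 2 ≤ θ - θ ^ 2 + 8 * δ := by
      rw [norm_sub_sq_real, inner_smul_right, inner_proj hw, hτ, norm_smul, mul_pow,
        Real.norm_eq_abs, sq_abs, ht]
      set n := ‖proj w x‖ ^ 2 with hn
      set m := |⟪proj w x, y⟫| with hm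
      have hθ : 0 ≤ θ ^ 2 := sq_nonneg θ
      have h4 : θ ^ 2 * ‖proj w y‖ ^ 2 ≤ θ ^ 2 := by nlinarith
      have h5 : θ * n ≤ θ * (m + 4 * δ) := mul_le_mul_of_nonneg_left h (by linarith)
      rcases hf with hf | hf
      · have h6 : (2 * θ - 1) * θ ≤ (2 * θ - 1) * n := mul_le_mul_of_nonneg_left hf (by linarith)
        have h7 : θ * δ ≤ 1 * δ := mul_le_mul_of_nonneg_right h2 hδ.le
        nlinarith
      · rw [hf] at h4 h5 ⊢
        nlinarith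
    have h8 := Real.abs_le_sqrt h3
    rwa [abs_of_nonneg (norm_nonneg _)] at h8
  rcases le_total 0 (⟪proj w x, y⟫ : ℝ) with hs | hs
  · left
    refine key θ rfl ?_
    rw [abs_of_nonneg hs]
  · right
    refine key (-θ) (by ring) ?_
    rw [abs_of_nonpos hs]
    ring

end PSec

open PSec

theorem p_sec (hsph : S_SPH) : S_SEC := by
  intro θ δ h1 h2 hδ
  obtain ⟨A, hA, hcyl⟩ := hsph δ hδ
  refine ⟨A, hA, fun d hd w hw N y hy => ?_⟩
  set ρ := √(θ - θ ^ 2 + 8 * δ) with hρ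
  have hρ0 : 0 ≤ ρ := Real.sqrt_nonneg _
  set S1 : Set (E d) := {x | 1 / 2 < θ ∧ ‖proj w x‖ ^ 2 ≤ θ} with hS1
  set Cp : Fin N → Set (E d) := fun j => {x | ‖proj w x - θ • proj w (y j)‖ ≤ ρ} with hCp
  set Cm : Fin N → Set (E d) := fun j => {x | ‖proj w x - (-θ) • proj w (y j)‖ ≤ ρ} with hCm
  have hsub : {x | (1 / 2 < θ ∧ ‖proj w x‖ ^ 2 ≤ θ) ∨ ((θ ≤ ‖proj w x‖ ^ 2 ∨ θ = 1 / 2) ∧
      ∃ j, ‖proj w x‖ ^ 2 ≤ |⟪proj w x, y j⟫| + 4 * δ)} ⊆ S1 ∪ ⋃ j, (Cp j ∪ Cm j) := by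
    rintro x (hx | ⟨hf, j, hj⟩)
    · exact Or.inl hx
    · right
      refine mem_iUnion.2 ⟨j, ?_⟩
      exact pt hw h1 h2 hδ (hy j) hf hj
  have m1 : dirLaw d S1 ≤ ENNReal.ofReal (if θ = 1 / 2 then 0 else A * (√θ + δ) ^ d) := by
    by_cases hθ : θ = 1 / 2
    · have e : S1 = ∅ := by
        refine Set.eq_empty_of_forall_notMem fun x hx => ?_
        have : 1 / 2 < θ := hx.1
        linarith
      rw [e, measure_empty]
      exact bot_le
    · rw [if_neg hθ]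
      refine (measure_mono ?_).trans (hcyl d hd w 0 hw (√θ) (Real.sqrt_nonneg _))
      intro x hx
      have h3 := Real.abs_le_sqrt hx.2
      rw [abs_of_nonneg (norm_nonneg _)] at h3
      show ‖proj w x - 0‖ ≤ √θ
      rw [sub_zero]
      exact h3
  have m2 : ∀ j, dirLaw d (Cp j ∪ Cm j) ≤ ENNReal.ofReal (A * (ρ + δ) ^ d) +
      ENNReal.ofReal (A * (ρ + δ) ^ d) := fun j =>
    (measure_union_le _ _).trans (add_le_add (hcyl d hd w _ hw ρ hρ0) (hcyl d hd w _ hw ρ hρ0))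
  have hb : 0 ≤ A * (ρ + δ) ^ d := by positivity
  have ha : 0 ≤ (if θ = 1 / 2 then 0 else A * (√θ + δ) ^ d : ℝ) := by
    split_ifs
    · exact le_rfl
    · positivity
  have e2 : ENNReal.ofReal (2 * N * (A * (ρ + δ) ^ d)) =
      (N : ℝ≥0∞) * (ENNReal.ofReal (A * (ρ + δ) ^ d) + ENNReal.ofReal (A * (ρ + δ) ^ d)) := by
    rw [← ENNReal.ofReal_add hb hb, ← ENNReal.ofReal_natCast N,
      ← ENNReal.ofReal_mul (Nat.cast_nonneg N)]
    congr 1
    ring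
  rw [ENNReal.ofReal_add ha (by positivity), e2]
  refine (measure_mono hsub).trans ((measure_union_le _ _).trans (add_le_add m1 ?_))
  refine (measure_iUnion_fintype_le _ _).trans ((Finset.sum_le_sum fun j _ => m2 j).trans ?_)
  rw [Finset.sum_const, Finset.card_univ, Fintype.card_fin, nsmul_eq_mul]

end Pool.Agent.H266.RP
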