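import Pool.Agent.H266.RP.Stm

set_option autoImplicit false

open MeasureTheory Set
open scoped ENNReal

namespace Pool.Agent.H266.RP

namespace Seq

theorem lint_update {ι : Type} [Fintype ι] [DecidableEq ι] {Ω : Type} [MeasurableSpace Ω]
    (μ : ι → Measure Ω) [∀ i, IsProbabilityMeasure (μ i)] (f : (ι → Ω) → ℝ≥0∞)
    (hf : Measurable f) (i : ι) :
    ∫⁻ x, f x ∂Measure.pi μ = ∫⁻ x, ∫⁻ y, f (Function.update x i y) ∂μ i ∂Measure.pi μ := by
  have hne : Nonempty Ω := nonempty_of_isProbabilityMeasure (μ i)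
  obtain ⟨ω⟩ := hne
  have hg : Measurable fun x : ι → Ω => ∫⁻ y, f (Function.update x i y) ∂μ i := by
    have h1 := hf.lmarginal μ (s := {i})
    rwa [show (∫⋯∫⁻_{i}, f ∂μ) = fun x : ι → Ω => ∫⁻ y, f (Function.update x i y) ∂μ i from
      lmarginal_singleton f i] at h1
  rw [lintegral_eq_lmarginal_univ (fun _ => ω), lintegral_eq_lmarginal_univ (fun _ => ω),
    lmarginal_erase' f hf (Finset.mem_univ i), lmarginal_erase' _ hg (Finset.mem_univ i)]
  congr 2
  funext x
  have h2 : ∀ y z : Ω, Function.update (Function.update x i y) i z = Function.update x i z :=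
    fun y z => Function.update_idem _ _ _
  simp only [h2]
  rw [lintegral_const, measure_univ, mul_one]

/-- one step -/
theorem step {ι : Type} [Fintype ι] [DecidableEq ι] {Ω : Type} [MeasurableSpace Ω]
    (μ : ι → Measure Ω) [∀ i, IsProbabilityMeasure (μ i)] (A H : Set (ι → Ω)) (c : ℝ≥0∞) (i : ι)
    (hA : MeasurableSet A) (hH : MeasurableSet H)
    (hAi : ∀ x y, Function.update x i y ∈ A ↔ x ∈ A)
    (hc : ∀ x : ι → Ω, μ i {y | Function.update x i y ∈ H} ≤ c) :
    Measure.pi μ (A ∩ H) ≤ c * Measure.pi μ A := by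
  have hm : ∀ x : ι → Ω, Measurable fun y : Ω => Function.update x i y := fun x =>
    measurable_update x
  have h1 : Measure.pi μ (A ∩ H) = ∫⁻ x, (A ∩ H).indicator 1 x ∂Measure.pi μ := by
    rw [lintegral_indicator_one (hA.inter hH)]
  rw [h1, lint_update μ _ (measurable_one.indicator (hA.inter hH)) i]
  have h2 : c * Measure.pi μ A = ∫⁻ x, A.indicator (fun _ => c) x ∂Measure.pi μ := by
    rw [lintegral_indicator_const hA]
  rw [h2]
  refine lintegral_mono fun x => ?_
  by_cases hx : x ∈ A
  · rw [indicator_of_mem hx]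
    refine le_trans (le_of_eq ?_) (hc x)
    have h3 : ∀ y : Ω, (A ∩ H).indicator (1 : (ι → Ω) → ℝ≥0∞) (Function.update x i y) =
        ({y | Function.update x i y ∈ H} : Set Ω).indicator 1 y := by
      intro y
      by_cases hy : Function.update x i y ∈ H
      · rw [indicator_of_mem (show Function.update x i y ∈ A ∩ H from ⟨(hAi x y).mpr hx, hy⟩),
          indicator_of_mem (show y ∈ {y | Function.update x i y ∈ H} from hy)]
        rfl
      · rw [indicator_of_notMem (fun h : Function.update x i y ∈ A ∩ H => hy h.2),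
          indicator_of_notMem (show y ∉ {y | Function.update x i y ∈ H} from hy)]
    rw [lintegral_congr h3, lintegral_indicator_one]
    exact hm x hH
  · rw [indicator_of_notMem hx]
    have h3 : ∀ y : Ω, (A ∩ H).indicator (1 : (ι → Ω) → ℝ≥0∞) (Function.update x i y) = 0 := by
      intro y
      exact indicator_of_notMem (fun h : Function.update x i y ∈ A ∩ H => hx ((hAi x y).mp h.1)) _
    rw [lintegral_congr h3, lintegral_zero]

/-- the bound for a fixed set of indices -/
theorem fixed {ι : Type} [Fintype ι] [LinearOrder ι] {Ω : Type} [MeasurableSpace Ω]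
    (μ : ι → Measure Ω) [∀ i, IsProbabilityMeasure (μ i)] (H : ι → Set (ι → Ω)) (c : ℝ≥0∞)
    (hH : ∀ i, MeasurableSet (H i))
    (hdep : ∀ (i : ι) (x y : ι → Ω), (∀ j, j ≤ i → x j = y j) → x ∈ H i → y ∈ H i)
    (hc : ∀ (i : ι) (x : ι → Ω), μ i {y | Function.update x i y ∈ H i} ≤ c) (J : Finset ι) :
    Measure.pi μ {x | ∀ i ∈ J, x ∈ H i} ≤ c ^ J.card := by
  induction J using Finset.induction_on_max with
  | empty =>
    rw [Finset.card_empty, pow_zero]
    exact prob_le_one
  | insert a s has ih =>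
    have ha : a ∉ s := fun h => lt_irrefl _ (has a h)
    rw [Finset.card_insert_of_notMem ha, pow_succ, mul_comm]
    have h1 : {x : ι → Ω | ∀ i ∈ insert a s, x ∈ H i} = {x | ∀ i ∈ s, x ∈ H i} ∩ H a := by
      ext x
      constructor
      · intro h
        exact ⟨fun i hi => h i (Finset.mem_insert_of_mem hi), h a (Finset.mem_insert_self _ _)⟩
      · rintro ⟨h2, h3⟩ i hi
        rcases Finset.mem_insert.mp hi with rfl | hi
        · exact h3
        · exact h2 i hi
    have hA : MeasurableSet {x : ι → Ω | ∀ i ∈ s, x ∈ H i} := by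
      have h2 : {x : ι → Ω | ∀ i ∈ s, x ∈ H i} = ⋂ i ∈ s, H i := by
        ext x
        rw [mem_iInter₂]
        exact Iff.rfl
      rw [h2]
      exact Finset.measurableSet_biInter s fun i _ => hH i
    rw [h1]
    refine (step μ _ (H a) c a hA (hH a) ?_ (hc a)).trans (mul_le_mul_right ih c)
    intro x y
    constructor
    · intro h i hi
      refine hdep i _ _ (fun j hj => ?_) (h i hi)
      rw [Function.update_of_ne (ne_of_lt (lt_of_le_of_lt hj (has i hi)))]
    · intro h i hi
      refine hdep i _ _ (fun j hj => ?_) (h i hi)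
      rw [Function.update_of_ne (ne_of_lt (lt_of_le_of_lt hj (has i hi)))]

end Seq

theorem p_seq : S_SEQ := by
  intro ι _ _ Ω _ μ _ H c hH hdep hc k
  have h1 : {x : ι → Ω | ∃ J : Finset ι, J.card = k ∧ ∀ i ∈ J, x ∈ H i} ⊆
      ⋃ J ∈ Finset.powersetCard k (Finset.univ : Finset ι), {x : ι → Ω | ∀ i ∈ J, x ∈ H i} := by
    rintro x ⟨J, hJ, hx⟩
    rw [mem_iUnion₂]
    exact ⟨J, Finset.mem_powersetCard.mpr ⟨Finset.subset_univ _, hJ⟩, hx⟩
  refine (measure_mono h1).trans ((measure_biUnion_finset_le _ _).trans ?_)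
  have h2 : ∀ J ∈ Finset.powersetCard k (Finset.univ : Finset ι),
      Measure.pi μ {x : ι → Ω | ∀ i ∈ J, x ∈ H i} ≤ c ^ k := by
    intro J hJ
    have h3 := Seq.fixed μ H c hH hdep hc J
    rwa [(Finset.mem_powersetCard.mp hJ).2] at h3
  refine (Finset.sum_le_sum h2).trans ?_
  rw [Finset.sum_const, Finset.card_powersetCard, nsmul_eq_mul, mul_pow, Finset.card_univ]
  refine mul_le_mul_left ?_ _
  exact_mod_cast Nat.choose_le_pow _ _

end Pool.Agent.H266.RP
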