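import Pool.Agent.H266.RP.Stm2
import Pool.Agent.H266.RP.PSeq

set_option autoImplicit false

open MeasureTheory Set
open scoped ENNReal

namespace Pool.Agent.H266.RP

theorem p_seq2 : S_SEQ2 := by
  intro ι _ _ Ω _ μ _ H c hH hdep hc k
  have h1 : {x : ι → Ω | ∃ J : Finset ι, J.card = k ∧ ∀ i ∈ J, x ∈ H i} ⊆
      ⋃ J ∈ Finset.powersetCard k (Finset.univ : Finset ι), {x : ι → Ω | ∀ i ∈ J, x ∈ H i} := by
    rintro x ⟨J, hJ, hx⟩
    rw [mem_iUnion₂]
    exact ⟨J, Finset.mem_powersetCard.mpr ⟨Finset.subset_univ _, hJ⟩, hx⟩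
  refine (measure_mono h1).trans ((measure_biUnion_finset_le _ _).trans ?_)
  have h2 : ∀ J ∈ Finset.powersetCard k (Finset.univ : Finset ι),
      Measure.pi μ {x : ι → Ω | ∀ i ∈ J, x ∈ H i} ≤ c ^ k := by
    intro J hJ
    have h3 := Seq.fixed μ H c hH hdep hc J
    rwa [(Finset.mem_powersetCard.mp hJ).2] at h3
  refine (Finset.sum_le_sum h2).trans ?_
  rw [Finset.sum_const, Finset.card_powersetCard, nsmul_eq_mul, Finset.card_univ]

end Pool.Agent.H266.RP
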