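import Pool.Agent.H266.RP.Stm2

/-! # RP, S_SPH (helper738): upper bound for cylinders, uniform law on the sphere -/

set_option autoImplicit false

open MeasureTheory Set Metric
open scoped Pointwise RealInnerProductSpace ENNReal

namespace Pool.Agent.H266.RP

namespace PSph

theorem cover {d : ℕ} (η ρ : ℝ) (hη : 0 < η) (w z : E d) (hw : ‖w‖ = 1) (M : ℤ)
    (hM : 1 / η + 1 ≤ M) :
    {x | ‖proj w x - z‖ ≤ ρ} ∩ closedBall (0 : E d) 1 ⊆
      ⋃ k ∈ Finset.Icc (-M) M, closedBall (z + ((k : ℝ) * η) • w) (ρ + η) := by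
  rintro x ⟨hx1, hx2⟩
  have hx1' : ‖proj w x - z‖ ≤ ρ := hx1
  have hxn : ‖x‖ ≤ 1 := by simpa using hx2
  have ha : |⟪x, w⟫| ≤ 1 := by
    have h := abs_real_inner_le_norm x w
    rw [hw, mul_one] at h
    exact h.trans hxn
  obtain ⟨a, hae⟩ : ∃ a : ℝ, a = ⟪x, w⟫ := ⟨_, rfl⟩
  rw [← hae] at ha
  rw [abs_le] at ha
  have hf1 : (⌊a / η⌋ : ℝ) ≤ a / η := Int.floor_le _
  have hf2 : a / η < ⌊a / η⌋ + 1 := Int.lt_floor_add_one _
  have h1 : a / η ≤ 1 / η := div_le_div_of_nonneg_right ha.2 hη.le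
  have h2 : -(1 / η) ≤ a / η := by
    rw [← neg_div]
    exact div_le_div_of_nonneg_right ha.1 hη.le
  rw [mem_iUnion₂]
  refine ⟨⌊a / η⌋, ?_, ?_⟩
  · rw [Finset.mem_Icc]
    constructor
    · have : (-(M : ℝ)) ≤ (⌊a / η⌋ : ℝ) := by linarith
      exact_mod_cast this
    · have : (⌊a / η⌋ : ℝ) ≤ (M : ℝ) := by linarith
      exact_mod_cast this
  · rw [mem_closedBall, dist_eq_norm]
    have e : x - (z + ((⌊a / η⌋ : ℝ) * η) • w) =
        (proj w x - z) + (a - (⌊a / η⌋ : ℝ) * η) • w := by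
      unfold proj
      rw [← hae, sub_smul]
      abel
    rw [e]
    have h3 : (⌊a / η⌋ : ℝ) * η ≤ a := (le_div_iff₀ hη).1 hf1
    have h4 : a < ((⌊a / η⌋ : ℝ) + 1) * η := (div_lt_iff₀ hη).1 hf2
    have h5 : |a - (⌊a / η⌋ : ℝ) * η| ≤ η := by
      rw [abs_le]
      constructor <;> linarith
    calc ‖(proj w x - z) + (a - (⌊a / η⌋ : ℝ) * η) • w‖
        ≤ ‖proj w x - z‖ + ‖(a - (⌊a / η⌋ : ℝ) * η) • w‖ := norm_add_le _ _
      _ = ‖proj w x - z‖ + |a - (⌊a / η⌋ : ℝ) * η| := by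
          rw [norm_smul, hw, mul_one, Real.norm_eq_abs]
      _ ≤ ρ + η := by linarith

theorem norm_proj_le {d : ℕ} (w x : E d) (hw : ‖w‖ = 1) : ‖proj w x‖ ≤ ‖x‖ := by
  have h1 : ‖proj w x‖ ^ 2 = ‖x‖ ^ 2 - ⟪x, w⟫ ^ 2 := by
    unfold proj
    rw [norm_sub_sq_real, norm_smul, hw, mul_one, Real.norm_eq_abs, sq_abs, inner_smul_right]
    ring
  have h2 : ‖proj w x‖ ^ 2 ≤ ‖x‖ ^ 2 := by
    rw [h1]
    linarith [sq_nonneg ⟪x, w⟫]
  exact (pow_le_pow_iff_left₀ (norm_nonneg _) (norm_nonneg _) two_ne_zero).1 h2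

theorem proj_smul {d : ℕ} (w x : E d) (c : ℝ) : proj w (c • x) = c • proj w x := by
  unfold proj
  rw [smul_sub, inner_smul_left, smul_smul]
  rfl

/-- the cone -/
def cone {d : ℕ} (w z : E d) (r : ℝ) : Set (E d) := {y | ‖proj w (‖y‖⁻¹ • y) - z‖ ≤ r}

theorem cone_smul {d : ℕ} (w z : E d) (r s : ℝ) (hs : 0 < s) :
    s • (cone w z r ∩ closedBall (0 : E d) 1) = cone w z r ∩ closedBall (0 : E d) s := by
  have key : ∀ y : E d, ‖s⁻¹ • y‖⁻¹ • (s⁻¹ • y) = ‖y‖⁻¹ • y := by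
    intro y
    rw [norm_smul, Real.norm_of_nonneg (inv_nonneg.2 hs.le), mul_inv, inv_inv, smul_smul]
    congr 1
    field_simp
  ext y
  rw [mem_smul_set_iff_inv_smul_mem₀ hs.ne']
  constructor
  · rintro ⟨h1, h2⟩
    refine ⟨?_, ?_⟩
    · have h3 : ‖proj w (‖s⁻¹ • y‖⁻¹ • (s⁻¹ • y)) - z‖ ≤ r := h1
      rw [key] at h3
      exact h3
    · rw [mem_closedBall_zero_iff] at h2 ⊢
      rw [norm_smul, Real.norm_of_nonneg (inv_nonneg.2 hs.le), inv_mul_le_iff₀ hs, mul_one] at h2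
      exact h2
  · rintro ⟨h1, h2⟩
    refine ⟨?_, ?_⟩
    · show ‖proj w (‖s⁻¹ • y‖⁻¹ • (s⁻¹ • y)) - z‖ ≤ r
      rw [key]
      exact h1
    · rw [mem_closedBall_zero_iff] at h2 ⊢
      rw [norm_smul, Real.norm_of_nonneg (inv_nonneg.2 hs.le), inv_mul_le_iff₀ hs, mul_one]
      exact h2

/-- the shell part of the cone is in a cylinder -/
theorem shell {d : ℕ} (w z : E d) (hw : ‖w‖ = 1) (r s : ℝ) (hs : 0 < s) :
    (cone w z r ∩ closedBall (0 : E d) 1) \ closedBall (0 : E d) s ⊆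
      {x | ‖proj w x - z‖ ≤ r + (1 - s)} ∩ closedBall (0 : E d) 1 := by
  rintro y ⟨⟨h1, h2⟩, h3⟩
  refine ⟨?_, h2⟩
  have h1' : ‖proj w (‖y‖⁻¹ • y) - z‖ ≤ r := h1
  rw [mem_closedBall_zero_iff] at h2 h3
  push Not at h3
  have hy : 0 < ‖y‖ := hs.trans h3
  have e1 : proj w y = ‖y‖ • proj w (‖y‖⁻¹ • y) := by
    rw [← proj_smul, smul_smul, mul_inv_cancel₀ hy.ne', one_smul]
  have e2 : ‖proj w (‖y‖⁻¹ • y)‖ ≤ 1 := by
    refine (norm_proj_le w _ hw).trans ?_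
    rw [norm_smul, norm_inv, norm_norm, inv_mul_cancel₀ hy.ne']
  have e3 : proj w y - z = (proj w (‖y‖⁻¹ • y) - z) - (1 - ‖y‖) • proj w (‖y‖⁻¹ • y) := by
    rw [e1, sub_smul, one_smul]
    abel
  show ‖proj w y - z‖ ≤ r + (1 - s)
  rw [e3]
  refine (norm_sub_le _ _).trans ?_
  rw [norm_smul, Real.norm_of_nonneg (by linarith : 0 ≤ 1 - ‖y‖)]
  have h4 : (1 - ‖y‖) * ‖proj w (‖y‖⁻¹ • y)‖ ≤ (1 - ‖y‖) * 1 :=
    mul_le_mul_of_nonneg_left e2 (by linarith)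
  linarith

theorem meas_dir (d : ℕ) : Measurable (fun y : E d => ‖y‖⁻¹ • y) :=
  (measurable_norm.inv).smul measurable_id

theorem meas_cyl {d : ℕ} (w z : E d) (r : ℝ) : MeasurableSet {x : E d | ‖proj w x - z‖ ≤ r} := by
  refine (isClosed_le ?_ continuous_const).measurableSet
  unfold proj
  fun_prop

end PSph

theorem p_sph : S_SPH := by
  intro δ₀ hδ₀
  obtain ⟨δ, hδ, hδ1, hδδ⟩ : ∃ δ : ℝ, 0 < δ ∧ δ ≤ 1 ∧ δ ≤ δ₀ :=
    ⟨min δ₀ 1, lt_min hδ₀ one_pos, min_le_right _ _, min_le_left _ _⟩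
  obtain ⟨M, hM⟩ : ∃ M : ℤ, 1 / (δ / 2) + 1 ≤ (M : ℝ) := ⟨⌈1 / (δ / 2) + 1⌉, Int.le_ceil _⟩
  have hM0 : (0 : ℤ) ≤ M := by
    have h1 : 0 < 1 / (δ / 2) := one_div_pos.2 (by positivity)
    have h2 : (0 : ℝ) ≤ (M : ℝ) := by linarith
    exact_mod_cast h2
  have hcard : (0 : ℝ) < ((Finset.Icc (-M) M).card : ℝ) := by
    have h : 0 < (Finset.Icc (-M) M).card := Finset.card_pos.2 ⟨0, by
      rw [Finset.mem_Icc]
      constructor <;> omega⟩
    exact_mod_cast h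
  obtain ⟨c, hc⟩ : ∃ c : ℕ, c = (Finset.Icc (-M) M).card := ⟨_, rfl⟩
  rw [← hc] at hcard
  refine ⟨2 / δ * (c : ℝ), by positivity, ?_⟩
  intro d hd w z hw r hr
  have hrδ : (0 : ℝ) ≤ r + δ := by linarith
  have hs0 : (0 : ℝ) < 1 - δ / 2 := by linarith
  have hB0 : volume (closedBall (0 : E d) 1) ≠ 0 := by
    have := measure_closedBall_pos (volume : Measure (E d)) (0 : E d) one_pos
    exact this.ne'
  have hBt : volume (closedBall (0 : E d) 1) ≠ ∞ := measure_closedBall_lt_top.ne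
  -- the cylinder
  have h1 : volume ({x | ‖proj w x - z‖ ≤ r + (1 - (1 - δ / 2))} ∩ closedBall (0 : E d) 1) ≤
      (c : ℝ≥0∞) *
        (ENNReal.ofReal ((r + δ) ^ d) * volume (closedBall (0 : E d) 1)) := by
    refine (measure_mono (PSph.cover (δ / 2) _ (by positivity) w z hw M hM)).trans ?_
    refine (measure_biUnion_finset_le _ _).trans ?_
    have h2 : ∀ k ∈ Finset.Icc (-M) M,
        volume (closedBall (z + ((k : ℝ) * (δ / 2)) • w) (r + (1 - (1 - δ / 2)) + δ / 2)) =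
          ENNReal.ofReal ((r + δ) ^ d) * volume (closedBall (0 : E d) 1) := by
      intro k _
      rw [show r + (1 - (1 - δ / 2)) + δ / 2 = r + δ by ring]
      rw [Measure.addHaar_closedBall' volume _ hrδ, finrank_euclideanSpace_fin]
    rw [Finset.sum_congr rfl h2, Finset.sum_const, nsmul_eq_mul, hc]
  -- the cone
  have hVt : volume (PSph.cone w z r ∩ closedBall (0 : E d) 1) ≠ ∞ :=
    ((measure_mono inter_subset_right).trans_lt hBt.lt_top).ne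
  have h3 : volume (PSph.cone w z r ∩ closedBall (0 : E d) 1) ≤
      ENNReal.ofReal ((1 - δ / 2) ^ d) * volume (PSph.cone w z r ∩ closedBall (0 : E d) 1) +
      (c : ℝ≥0∞) *
        (ENNReal.ofReal ((r + δ) ^ d) * volume (closedBall (0 : E d) 1)) := by
    have h4 : PSph.cone w z r ∩ closedBall (0 : E d) 1 ⊆
        (PSph.cone w z r ∩ closedBall (0 : E d) (1 - δ / 2)) ∪
          ((PSph.cone w z r ∩ closedBall (0 : E d) 1) \ closedBall (0 : E d) (1 - δ / 2)) := by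
      intro y hy
      by_cases h : y ∈ closedBall (0 : E d) (1 - δ / 2)
      · exact Or.inl ⟨hy.1, h⟩
      · exact Or.inr ⟨hy, h⟩
    refine ((measure_mono h4).trans (measure_union_le _ _)).trans ?_
    refine add_le_add ?_ ((measure_mono (PSph.shell w z hw r _ hs0)).trans h1)
    rw [← PSph.cone_smul w z r _ hs0, Measure.addHaar_smul, finrank_euclideanSpace_fin,
      abs_of_nonneg (by positivity)]
  -- real numbers
  obtain ⟨V, hV⟩ : ∃ V : ℝ, V = (volume (PSph.cone w z r ∩ closedBall (0 : E d) 1)).toReal :=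
    ⟨_, rfl⟩
  obtain ⟨B, hB⟩ : ∃ B : ℝ, B = (volume (closedBall (0 : E d) 1)).toReal := ⟨_, rfl⟩
  have hV0 : 0 ≤ V := by
    rw [hV]
    exact ENNReal.toReal_nonneg
  have hBpos : 0 < B := by
    rw [hB]
    exact ENNReal.toReal_pos hB0 hBt
  have hVe : volume (PSph.cone w z r ∩ closedBall (0 : E d) 1) = ENNReal.ofReal V := by
    rw [hV, ENNReal.ofReal_toReal hVt]
  have hBe : volume (closedBall (0 : E d) 1) = ENNReal.ofReal B := by
    rw [hB, ENNReal.ofReal_toReal hBt]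
  have hpow : (0 : ℝ) ≤ (1 - δ / 2) ^ d := pow_nonneg hs0.le _
  have hpow2 : (0 : ℝ) ≤ (r + δ) ^ d := pow_nonneg hrδ _
  have h5 : V ≤ (1 - δ / 2) ^ d * V + (c : ℝ) * ((r + δ) ^ d * B) := by
    rw [hVe, hBe, ← ENNReal.ofReal_mul hpow, ← ENNReal.ofReal_mul hpow2,
      ← ENNReal.ofReal_natCast, ← ENNReal.ofReal_mul hcard.le,
      ← ENNReal.ofReal_add (mul_nonneg hpow hV0) (by positivity),
      ENNReal.ofReal_le_ofReal_iff (by positivity)] at h3
    exact h3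
  have h6 : (1 - δ / 2) ^ d ≤ 1 - δ / 2 := by
    calc (1 - δ / 2) ^ d ≤ (1 - δ / 2) ^ 1 :=
          pow_le_pow_of_le_one hs0.le (by linarith) hd
      _ = 1 - δ / 2 := pow_one _
  have h7 : δ / 2 * V ≤ (c : ℝ) * ((r + δ) ^ d * B) := by
    have := mul_le_mul_of_nonneg_right h6 hV0
    linarith
  have h8 : V / B ≤ 2 / δ * (c : ℝ) * (r + δ₀) ^ d := by
    have h9 : V / B ≤ 2 / δ * (c : ℝ) * (r + δ) ^ d := by
      rw [div_le_iff₀ hBpos]
      have h10 : V = 2 / δ * (δ / 2 * V) := by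
        field_simp
      rw [h10]
      refine (mul_le_mul_of_nonneg_left h7 (by positivity)).trans (le_of_eq ?_)
      ring
    refine h9.trans (mul_le_mul_of_nonneg_left ?_ (by positivity))
    exact pow_le_pow_left₀ hrδ (by linarith) d
  -- the law
  unfold dirLaw
  rw [Measure.map_apply (PSph.meas_dir d) (PSph.meas_cyl w z r)]
  unfold unif
  rw [Measure.smul_apply, Measure.restrict_apply' measurableSet_closedBall, smul_eq_mul]
  have h11 : (fun y : E d => ‖y‖⁻¹ • y) ⁻¹' {x | ‖proj w x - z‖ ≤ r} = PSph.cone w z r := rfl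
  rw [h11, hVe, hBe, ← ENNReal.ofReal_inv_of_pos hBpos, ← ENNReal.ofReal_mul (by positivity)]
  refine ENNReal.ofReal_le_ofReal ?_
  rw [inv_mul_eq_div]
  exact h8

end Pool.Agent.H266.RP
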