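import Pool.Agent.H266.RP.Stm

/-!
# The `m`-th largest number (task S_TOP, by helper878)
-/

set_option autoImplicit false

open MeasureTheory Set Metric
open scoped Pointwise RealInnerProductSpace ENNReal

namespace Pool.Agent.H266.RP

theorem p_top : S_TOP := by
  intro N m r hm hmN
  have hmem : ∀ i, i ∈ Top r m ↔ (Finset.univ.filter (fun j => r i < r j)).card < m := by
    intro i
    unfold Top
    rw [Finset.mem_filter]
    exact ⟨fun h => h.2, fun h => ⟨Finset.mem_univ _, h⟩⟩
  have hne : (Finset.univ : Finset (Fin N)).Nonempty := ⟨⟨0, by omega⟩, Finset.mem_univ _⟩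
  obtain ⟨i₁, -, hi₁⟩ := Finset.exists_max_image Finset.univ r hne
  have h1 : i₁ ∈ Top r m := by
    rw [hmem]
    have h2 : (Finset.univ.filter (fun j => r i₁ < r j)) = ∅ := by
      rw [Finset.filter_eq_empty_iff]
      intro j hj
      exact not_lt.2 (hi₁ j hj)
    rw [h2, Finset.card_empty]
    omega
  obtain ⟨i₀, hi₀, hmin⟩ := Finset.exists_min_image (Top r m) r ⟨i₁, h1⟩
  refine ⟨r i₀, fun i => ⟨fun hi => hmin i hi, fun hi => ?_⟩, (hmem i₀).1 hi₀, ?_, i₀, rfl⟩
  · rw [hmem]
    refine lt_of_le_of_lt (Finset.card_le_card fun j hj => ?_) ((hmem i₀).1 hi₀)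
    rw [Finset.mem_filter] at hj ⊢
    exact ⟨hj.1, hi.trans_lt hj.2⟩
  · by_contra hc
    have hc' : (Top r m).card < m := not_le.1 hc
    have h3 : (Finset.univ.filter (fun j => j ∉ Top r m)).Nonempty := by
      rw [Finset.nonempty_iff_ne_empty]
      intro he
      rw [Finset.filter_eq_empty_iff] at he
      have h4 : (Finset.univ : Finset (Fin N)) ⊆ Top r m := fun j hj => not_not.1 (he hj)
      have h5 := Finset.card_le_card h4
      rw [Finset.card_univ, Fintype.card_fin] at h5
      omega
    obtain ⟨j, hj, hmax⟩ := Finset.exists_max_image _ r h3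
    rw [Finset.mem_filter] at hj
    refine hj.2 ((hmem j).2 (lt_of_le_of_lt (Finset.card_le_card fun k hk => ?_) hc'))
    rw [Finset.mem_filter] at hk
    by_contra hk'
    exact absurd hk.2 (not_lt.2 (hmax k (Finset.mem_filter.2 ⟨Finset.mem_univ _, hk'⟩)))

end Pool.Agent.H266.RP
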