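import Pool.Agent.H266.RP.Small
import Pool.Agent.H266.RP.PIll
import Pool.Agent.H266.RP.PBall
import Pool.Agent.H266.RP.PDet
import Pool.Agent.H266.RP.PNet
import Pool.Agent.H266.RP.PCap
import Pool.Agent.H266.RP.PGreedy
import Pool.Agent.H266.RP.PCov
import Pool.Agent.H266.RP.PProb
import Pool.Agent.H266.RP.PTop
import Pool.Agent.H266.RP.PSph
import Pool.Agent.H266.RP.PSec
import Pool.Agent.H266.RP.PDir
import Pool.Agent.H266.RP.PSeq2
import Pool.Agent.H266.RP.PLow1
import Pool.Agent.H266.RP.PChg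
import Pool.Agent.H266.RP.PChoose

set_option autoImplicit false

open MeasureTheory Set Metric Filter
open scoped Pointwise RealInnerProductSpace ENNReal Topology

namespace Pool.Agent.H266.RP

theorem final_upper (R : ℝ) (hR : √2 < R) :
    ∃ c : ℝ, 0 < c ∧ ∀ᶠ d : ℕ in atTop, ∀ (N : ℕ) (μ : Fin N → Measure (E d))
      [∀ i, IsProbabilityMeasure (μ i)], (∀ i, Isotropic (μ i)) →
      Measure.pi μ {x | ¬ Fine x (R ^ d)} ≤ ENNReal.ofReal (Real.exp (-Real.exp (c * d))) :=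
  upper p_cap p_net p_ball (p_prob p_top) p_top (p_cov p_net p_cap p_greedy) (p_det p_ill)
    (p_few p_ill) R hR

/-- union of two exceptional events -/
lemma two_events {a b : ℝ} (ha : 0 < a) (hb : 0 < b) :
    ∃ c : ℝ, 0 < c ∧ ∀ᶠ d : ℕ in atTop,
      ENNReal.ofReal (Real.exp (-Real.exp (a * d))) + ENNReal.ofReal (Real.exp (-Real.exp (b * d)))
        ≤ ENNReal.ofReal (Real.exp (-Real.exp (c * d))) := by
  set m := min a b with hm
  have hm0 : 0 < m := lt_min ha hb
  have hg : 1 < Real.exp m := Real.one_lt_exp_iff.2 hm0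
  obtain ⟨c, hc, hev⟩ := dexp (B := 2) (c := 1) (by norm_num) one_pos hg
  refine ⟨c, hc, ?_⟩
  filter_upwards [hev, eventually_ge_atTop 1] with d hd hd1
  rw [← ENNReal.ofReal_add (Real.exp_pos _).le (Real.exp_pos _).le]
  apply ENNReal.ofReal_le_ofReal
  refine le_trans ?_ hd
  have h2 : (2 : ℝ) ≤ 2 ^ d := by
    calc (2 : ℝ) = 2 ^ 1 := by norm_num
      _ ≤ 2 ^ d := pow_le_pow_right₀ (by norm_num) hd1
  have e1 : Real.exp m ^ d = Real.exp (m * d) := by rw [mul_comm, Real.exp_nat_mul]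
  rw [e1, one_mul]
  have hx : Real.exp (-Real.exp (a * d)) ≤ Real.exp (-Real.exp (m * d)) := by
    apply Real.exp_le_exp.2
    apply neg_le_neg
    apply Real.exp_le_exp.2
    exact mul_le_mul_of_nonneg_right (min_le_left _ _) (Nat.cast_nonneg _)
  have hy : Real.exp (-Real.exp (b * d)) ≤ Real.exp (-Real.exp (m * d)) := by
    apply Real.exp_le_exp.2
    apply neg_le_neg
    apply Real.exp_le_exp.2
    exact mul_le_mul_of_nonneg_right (min_le_right _ _) (Nat.cast_nonneg _)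
  have hz : 0 < Real.exp (-Real.exp (m * d)) := Real.exp_pos _
  calc _ ≤ 2 * Real.exp (-Real.exp (m * d)) := by linarith
    _ ≤ 2 ^ d * Real.exp (-Real.exp (m * d)) := mul_le_mul_of_nonneg_right h2 hz.le

theorem final_rate (q r R : ℝ) (hq : 1 < q) (hr : 0 < r) (hr1 : r < min q (q / √(q ^ 2 - 1)))
    (hR : min q (q / √(q ^ 2 - 1)) < R) :
    ∃ c : ℝ, 0 < c ∧ ∀ᶠ d : ℕ in atTop,
      Measure.pi (fun _ : Fin ⌊q ^ d⌋₊ => dirLaw d)
        {x | ¬ (Few (poly x) (R ^ d) ∧ Few (symPoly x) (R ^ d) ∧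
          (∀ T : Finset (E d), (T.card : ℝ) ≤ r ^ d →
            ¬ CoveredBy T (poly x) ∧ ¬ CoveredBy T (symPoly x)) ∧
          (√2 ≤ q → closedBall 0 (1 / R) ⊆ poly x))} ≤
        ENNReal.ofReal (Real.exp (-Real.exp (c * d))) := by
  have hq0 : 0 < q := by linarith
  have hqq : 0 < q ^ 2 - 1 := by nlinarith
  set s := √(q ^ 2 - 1) with hs
  have hs0 : 0 < s := Real.sqrt_pos.2 hqq
  have hs2 : s ^ 2 = q ^ 2 - 1 := Real.sq_sqrt hqq.le
  have hrq : r < q := lt_of_lt_of_le hr1 (min_le_left _ _)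
  have hrs : r * s < q := by
    have := lt_of_lt_of_le hr1 (min_le_right _ _)
    rwa [lt_div_iff₀ hs0] at this
  have hsec : S_SEC := p_sec p_sph
  obtain ⟨c₁, hc₁, hev₁⟩ := lower hsec p_seq2 p_choose p_low1 p_chg p_net p_dir hq hr hrq hrs
  have hup : ∃ c : ℝ, 0 < c ∧ ∀ᶠ d : ℕ in atTop,
      Measure.pi (fun _ : Fin ⌊q ^ d⌋₊ => dirLaw d)
        {x | ¬ (Few (poly x) (R ^ d) ∧ Few (symPoly x) (R ^ d) ∧
          (√2 ≤ q → closedBall 0 (1 / R) ⊆ poly x))} ≤
        ENNReal.ofReal (Real.exp (-Real.exp (c * d))) := by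
    by_cases hcase : q / s < R
    · obtain ⟨c, hc, hev⟩ := sphere p_cap p_net p_ball (p_prob p_top) p_top
        (p_cov p_net p_cap p_greedy) (p_det p_ill) q R hq hcase
      refine ⟨c, hc, ?_⟩
      filter_upwards [hev, eventually_ge_atTop 1] with d hd hd1
      obtain ⟨hprob, hiso, hnorm⟩ := p_dir d hd1
      refine (measure_mono ?_).trans (hd _ (fun _ => dirLaw d) (fun _ => hiso) (fun _ => hnorm)
        le_rfl)
      intro x hx hcon
      exact hx ⟨hcon.2.1, hcon.2.2, fun _ => hcon.1⟩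
    · have hqR : q < R := by
        rcases min_lt_iff.1 hR with h | h
        · exact h
        · exact absurd h hcase
      have hq2 : ¬ √2 ≤ q := by
        intro h
        apply hcase
        refine lt_of_le_of_lt ?_ hqR
        rw [div_le_iff₀ hs0]
        have h2 : (2 : ℝ) ≤ q ^ 2 := by
          have := pow_le_pow_left₀ (Real.sqrt_nonneg 2) h 2
          rwa [Real.sq_sqrt (by norm_num)] at this
        have hs1 : 1 ≤ s := by
          rw [hs]; exact Real.one_le_sqrt.2 (by linarith)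
        nlinarith
      obtain ⟨c, hc, hev⟩ := sphere_small p_cap p_net p_ball (p_prob p_top) p_top
        (p_few p_ill) q R hq hqR
      refine ⟨c, hc, ?_⟩
      filter_upwards [hev, eventually_ge_atTop 1] with d hd hd1
      obtain ⟨hprob, hiso, hnorm⟩ := p_dir d hd1
      refine (measure_mono ?_).trans (hd (fun _ => dirLaw d) (fun _ => hiso) (fun _ => hnorm))
      intro x hx hcon
      exact hx ⟨hcon.1, hcon.2, fun h => absurd h hq2⟩
  obtain ⟨c₂, hc₂, hev₂⟩ := hup
  obtain ⟨c, hc, hev⟩ := two_events hc₁ hc₂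
  refine ⟨c, hc, ?_⟩
  filter_upwards [hev₁, hev₂, hev] with d h1 h2 h3
  refine le_trans ?_ h3
  refine le_trans ?_ (add_le_add h1 h2)
  refine le_trans (measure_mono ?_) (measure_union_le _ _)
  intro x hx
  by_contra hcon
  rw [mem_union, not_or] at hcon
  obtain ⟨k1, k2⟩ := hcon
  rw [mem_setOf_eq] at k1 k2
  rw [not_not] at k2
  apply hx
  refine ⟨k2.1, k2.2.1, fun T hT => ⟨fun h => k1 ⟨T, hT, Or.inl h⟩, fun h => k1 ⟨T, hT, Or.inr h⟩⟩,
    k2.2.2⟩

end Pool.Agent.H266.RP
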