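import Pool.Agent.H266.RP.Defs

/-!
# Covering numbers of random polytopes: the lemmas for the lower bound
-/

set_option autoImplicit false

open MeasureTheory Set Metric
open scoped Pointwise RealInnerProductSpace ENNReal

namespace Pool.Agent.H266.RP

/-- the uniform distribution on the unit sphere: the law of the direction `y / ‖y‖` of a uniformly
distributed point `y` of the unit ball -/
noncomputable def dirLaw (d : ℕ) : Measure (E d) := (unif d).map (fun y => ‖y‖⁻¹ • y)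

/-- Basic properties of `dirLaw`.  Proof: `unif d` is a probability measure, invariant under linear
isometries (`LinearIsometryEquiv.measurePreserving`), and the map `y ↦ ‖y‖⁻¹ • y` is measurable and
commutes with linear isometries; `y ≠ 0` almost surely if `1 ≤ d`. -/
def S_DIR : Prop := ∀ d : ℕ, 1 ≤ d →
  IsProbabilityMeasure (dirLaw d) ∧ Isotropic (dirLaw d) ∧ ∀ᵐ x ∂(dirLaw d), ‖x‖ = 1

/-- Upper bound for cylinders, sphere.  Proof.  Let `0 < δ ≤ 1` (for `δ > 1` use monotonicity, or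
take `A` large: for `δ ≥ 1` the right side is `≥ 1` with `A = 1`).
`C = {y : ‖proj w (y / ‖y‖) - z‖ ≤ r}` is a cone (invariant under multiplication by positive
numbers), `B = closedBall 0 1`, `s = 1 - δ/2`.  `vol (C ∩ s B) = s^d vol (C ∩ B)` (up to `0`), so
`vol (C ∩ B) ≤ vol (C ∩ B \ s B) / (1 - s^d) ≤ vol (C ∩ B \ s B) / (1 - s)` (`d ≥ 1`).  For
`y ∈ C ∩ B \ s B`: `‖y - y / ‖y‖‖ = 1 - ‖y‖ ≤ δ/2`, so `‖proj w y - z‖ ≤ r + δ/2` (`proj w` is linear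
and does not increase norms).  Finally
`vol {y ∈ B : ‖proj w y - z‖ ≤ r + δ/2} ≤ (2 M + 1) (r + δ)^d vol B` with `M = ⌈2/δ⌉`: such a
`y` is within `r + δ` of one of the points `z + (k δ/2) w`, `|k| ≤ M` (see `PCyl.lean`, where this
is done for `r = 1/2 + 3δ`). -/
def S_SPH : Prop := ∀ δ : ℝ, 0 < δ → ∃ A : ℝ, 0 < A ∧ ∀ d : ℕ, 1 ≤ d → ∀ w z : E d, ‖w‖ = 1 →
  ∀ r : ℝ, 0 ≤ r → dirLaw d {x | ‖proj w x - z‖ ≤ r} ≤ ENNReal.ofReal (A * (r + δ) ^ d)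

/-- Section bound, from `S_SPH`.  Proof.  `{‖proj w x‖² ≤ θ}` is the cylinder with `z = 0`,
`r = √θ`.  Let `y ∈ F` and `‖proj w x‖² ≤ |⟪proj w x, y⟫| + 4δ`, `f = proj w x`,
`ζ = ± proj w y` with the sign of `⟪f, y⟫ = ⟪f, proj w y⟫`.  Then `‖ζ‖ ≤ 1` and
`‖f - θ ζ‖² = ‖f‖² - 2θ |⟪f, y⟫| + θ² ‖ζ‖² ≤ ‖f‖² (1 - 2θ) + 8θδ + θ² ≤ θ - θ² + 8δ` if
`θ ≤ ‖f‖²` or `θ = 1/2` (`1/2 ≤ θ ≤ 1`).  So `x` is in one of the two cylinders with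
`z = ± θ proj w y`, `r = √(θ - θ² + 8δ)`. -/
def S_SEC : Prop := ∀ θ δ : ℝ, 1 / 2 ≤ θ → θ ≤ 1 → 0 < δ → ∃ A : ℝ, 0 < A ∧ ∀ d : ℕ, 1 ≤ d →
  ∀ (w : E d), ‖w‖ = 1 → ∀ (N : ℕ) (y : Fin N → E d), (∀ j, ‖y j‖ ≤ 1) →
  dirLaw d {x | (1 / 2 < θ ∧ ‖proj w x‖ ^ 2 ≤ θ) ∨ ((θ ≤ ‖proj w x‖ ^ 2 ∨ θ = 1 / 2) ∧
      ∃ j, ‖proj w x‖ ^ 2 ≤ |⟪proj w x, y j⟫| + 4 * δ)} ≤
    ENNReal.ofReal ((if θ = 1 / 2 then 0 else A * (√θ + δ) ^ d) +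
      2 * N * (A * (√(θ - θ ^ 2 + 8 * δ) + δ) ^ d))

/-- Sequential product bound with binomial coefficients; the same proof as `S_SEQ` (see
`PSeq.lean`), with `N choose k` not replaced by `N ^ k`. -/
def S_SEQ2 : Prop := ∀ (ι : Type) [Fintype ι] [LinearOrder ι] (Ω : Type) [MeasurableSpace Ω]
  (μ : ι → Measure Ω) [∀ i, IsProbabilityMeasure (μ i)] (H : ι → Set (ι → Ω)) (c : ℝ≥0∞),
  (∀ i, MeasurableSet (H i)) →
  (∀ (i : ι) (x y : ι → Ω), (∀ j, j ≤ i → x j = y j) → x ∈ H i → y ∈ H i) →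
  (∀ (i : ι) (x : ι → Ω), μ i {y | Function.update x i y ∈ H i} ≤ c) →
  ∀ k : ℕ, Measure.pi μ {x | ∃ J : Finset ι, J.card = k ∧ ∀ i ∈ J, x ∈ H i} ≤
    ((Fintype.card ι).choose k : ℝ≥0∞) * c ^ k

/-- One translate covers few of the points: the deterministic part, both polytopes (the interior of
`poly x` is contained in that of `symPoly x`).  Proof.  `w = t / ‖t‖` if `t ≠ 0`, any unit vector if
`t = 0`.  Let `x i - t ∈ int K`, `K = symPoly x`, `f = proj w (x i)`; `⟪f, t⟫ = 0`.  If `f = 0` any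
`j ≠ i` will do.  If `f ≠ 0`, the functional `⟪f, ·⟫` does not attain its maximum over
`K = conv {± x j}` at the interior point `x i - t`, so there is `j` with
`|⟪f, x j⟫| > ⟪f, x i - t⟫ = ⟪f, x i⟫ = ‖f‖²`, and `j ≠ i` as `⟪f, x i⟫ = ‖f‖²`.  (See
`PLowdet.lean` for the version with `poly x`.) -/
def S_LOW1 : Prop := ∀ (d N : ℕ) (x : Fin N → E d), 1 ≤ d → 2 ≤ N →
  ∀ t : E d, ∃ w : E d, ‖w‖ = 1 ∧ ∀ i, x i ∈ (fun y => t + y) '' interior (symPoly x) →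
    ∃ j, j ≠ i ∧ ‖proj w (x i)‖ ^ 2 ≤ |⟪proj w (x i), x j⟫|

/-- Change of `w`.  Proof: `‖proj w x‖² = ‖x‖² - ⟪x, w⟫²`,
`⟪proj w x, y⟫ = ⟪x, y⟫ - ⟪x, w⟫ ⟪y, w⟫` (`‖w‖ = 1`); each changes by at most `2δ`. -/
def S_CHG : Prop := ∀ (d : ℕ) (w w' x y : E d) (δ : ℝ), ‖w‖ = 1 → ‖w'‖ = 1 → ‖x‖ ≤ 1 → ‖y‖ ≤ 1 →
  ‖w - w'‖ ≤ δ → ‖proj w x‖ ^ 2 ≤ |⟪proj w x, y⟫| →
  ‖proj w' x‖ ^ 2 ≤ |⟪proj w' x, y⟫| + 4 * δ

/-- Numbers.  Proof: `N choose k ≤ N^k / k! ≤ (e N / k)^k` (`Nat.choose_le_pow_div`,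
`Real.pow_div_factorial_le_exp`), so if `2 e N c ≤ k` the product is at most `2^(-k)`. -/
def S_CHOOSE : Prop := ∀ (N k : ℕ) (c : ℝ), 0 ≤ c → 1 ≤ k → 2 * Real.exp 1 * (N * c) ≤ k →
  (N.choose k : ℝ) * c ^ k ≤ (1 / 2) ^ k

end Pool.Agent.H266.RP
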