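import Pool.Agent.H266.RP.Sphere
import Pool.Agent.H266.RP.Stm2

set_option autoImplicit false

open MeasureTheory Set Metric Filter
open scoped Pointwise RealInnerProductSpace ENNReal Topology

namespace Pool.Agent.H266.RP

/-- the point `x i` lies in the translate with direction `w` because of an earlier `x j` -/
def Hev {d : ℕ} {ι : Type} [LinearOrder ι] (θ δ : ℝ) (w : E d) (i : ι) : Set (ι → E d) :=
  {x | (1 / 2 < θ ∧ ‖proj w (x i)‖ ^ 2 ≤ θ) ∨ ((θ ≤ ‖proj w (x i)‖ ^ 2 ∨ θ = 1 / 2) ∧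
    ∃ j, j < i ∧ ‖x j‖ ≤ 1 ∧ ‖proj w (x i)‖ ^ 2 ≤ |⟪proj w (x i), x j⟫| + 4 * δ)}

lemma continuous_proj {d : ℕ} (w : E d) : Continuous (proj w) := by
  unfold proj; fun_prop

lemma measurableSet_Hev {d : ℕ} {ι : Type} [Fintype ι] [LinearOrder ι] (θ δ : ℝ) (w : E d)
    (i : ι) : MeasurableSet (Hev θ δ w i : Set (ι → E d)) := by
  have hc : Continuous (fun x : ι → E d => proj w (x i)) :=
    (continuous_proj w).comp (continuous_apply i)
  have h1 : Measurable (fun x : ι → E d => ‖proj w (x i)‖ ^ 2) := by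
    exact (hc.norm.pow 2).measurable
  have h2 : ∀ j, MeasurableSet {x : ι → E d | j < i ∧ ‖x j‖ ≤ 1 ∧
      ‖proj w (x i)‖ ^ 2 ≤ |⟪proj w (x i), x j⟫| + 4 * δ} := by
    intro j
    have hn : Measurable (fun x : ι → E d => ‖x j‖) := (continuous_apply j).norm.measurable
    have hi : Measurable (fun x : ι → E d => |⟪proj w (x i), x j⟫| + 4 * δ) :=
      ((hc.inner (continuous_apply j)).abs.add continuous_const).measurable
    exact (MeasurableSet.const _).inter ((measurableSet_le hn measurable_const).inter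
      (measurableSet_le h1 hi))
  have h3 : MeasurableSet {x : ι → E d | ∃ j, j < i ∧ ‖x j‖ ≤ 1 ∧
      ‖proj w (x i)‖ ^ 2 ≤ |⟪proj w (x i), x j⟫| + 4 * δ} := by
    rw [setOf_exists]
    exact MeasurableSet.iUnion h2
  exact ((MeasurableSet.const _).inter (measurableSet_le h1 measurable_const)).union
    (((measurableSet_le measurable_const h1).union (MeasurableSet.const _)).inter h3)

/-- the section bound -/
noncomputable def secB (θ δ A : ℝ) (d N : ℕ) : ℝ :=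
  (if θ = 1 / 2 then 0 else A * (√θ + δ) ^ d) +
      2 * N * (A * (√(θ - θ ^ 2 + 8 * δ) + δ) ^ d)

lemma secB_nonneg {θ δ A : ℝ} (hδ : 0 < δ) (hA : 0 < A) (d N : ℕ) : 0 ≤ secB θ δ A d N := by
  unfold secB
  split_ifs <;> positivity

lemma prob_Hev (hseq : S_SEQ2) (hch : S_CHOOSE) {θ δ A : ℝ} (hδ : 0 < δ) (hA : 0 < A) {d : ℕ}
    [IsProbabilityMeasure (dirLaw d)]
    (hsec : ∀ (w : E d), ‖w‖ = 1 → ∀ (N : ℕ) (y : Fin N → E d), (∀ j, ‖y j‖ ≤ 1) →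
      dirLaw d {x | (1 / 2 < θ ∧ ‖proj w x‖ ^ 2 ≤ θ) ∨ ((θ ≤ ‖proj w x‖ ^ 2 ∨ θ = 1 / 2) ∧
      ∃ j, ‖proj w x‖ ^ 2 ≤ |⟪proj w x, y j⟫| + 4 * δ)} ≤ ENNReal.ofReal (secB θ δ A d N))
    (ι : Type) [Fintype ι] [LinearOrder ι] (w : E d) (hw : ‖w‖ = 1) (k : ℕ) (hk : 1 ≤ k)
    (hkc : 2 * Real.exp 1 * (Fintype.card ι * secB θ δ A d (Fintype.card ι)) ≤ k) :
    Measure.pi (fun _ : ι => dirLaw d) {x | ∃ J : Finset ι, J.card = k ∧ ∀ i ∈ J, x ∈ Hev θ δ w i} ≤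
      ENNReal.ofReal ((1 / 2) ^ k) := by
  have hc0 := secB_nonneg (θ := θ) hδ hA d (Fintype.card ι)
  have h := hseq ι (E d) (fun _ : ι => dirLaw d) (fun i => Hev θ δ w i)
    (ENNReal.ofReal (secB θ δ A d (Fintype.card ι))) (fun i => measurableSet_Hev θ δ w i)
  have h1 : ∀ (i : ι) (x y : ι → E d), (∀ j, j ≤ i → x j = y j) → x ∈ Hev θ δ w i →
      y ∈ Hev θ δ w i := by
    intro i x y hxy hx
    unfold Hev at hx ⊢
    rw [mem_setOf_eq] at hx ⊢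
    rw [← hxy i le_rfl]
    rcases hx with hx | ⟨hx, j, hj, hj1, hj2⟩
    · exact Or.inl hx
    · refine Or.inr ⟨hx, j, hj, ?_, ?_⟩
      · rw [← hxy j hj.le]; exact hj1
      · rw [← hxy j hj.le]; exact hj2
  have h2 : ∀ (i : ι) (x : ι → E d), dirLaw d {y | Function.update x i y ∈ Hev θ δ w i} ≤
      ENNReal.ofReal (secB θ δ A d (Fintype.card ι)) := by
    intro i x
    set e := Fintype.equivFin ι with he
    set y' : Fin (Fintype.card ι) → E d := fun l => if ‖x (e.symm l)‖ ≤ 1 then x (e.symm l) else 0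
      with hy'
    have hy1 : ∀ l, ‖y' l‖ ≤ 1 := by
      intro l
      rw [hy']
      dsimp only
      split_ifs with h
      · exact h
      · simp
    refine (measure_mono ?_).trans (hsec w hw (Fintype.card ι) y' hy1)
    intro y hy
    rw [mem_setOf_eq] at hy
    unfold Hev at hy
    rw [mem_setOf_eq] at hy ⊢
    rw [Function.update_self] at hy
    rcases hy with hy | ⟨hy, j, hj, hj1, hj2⟩
    · exact Or.inl hy
    · refine Or.inr ⟨hy, e j, ?_⟩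
      rw [Function.update_of_ne hj.ne] at hj1 hj2
      rw [hy']
      dsimp only
      rw [Equiv.symm_apply_apply, if_pos hj1]
      exact hj2
  have h3 := h h1 h2 k
  refine h3.trans ?_
  have h4 := hch (Fintype.card ι) k _ hc0 hk hkc
  rw [← ENNReal.ofReal_pow hc0, ← ENNReal.ofReal_natCast, ← ENNReal.ofReal_mul (Nat.cast_nonneg _)]
  exact ENNReal.ofReal_le_ofReal h4

/-- the deterministic part: outside of the bad event, a translate contains fewer than `2 k` of the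
points -/
lemma few_points (hlow : S_LOW1) (hchg : S_CHG) {θ δ : ℝ} (hθ : 1 / 2 ≤ θ)
    {d N k : ℕ} (hd : 1 ≤ d) (hN : 2 ≤ N) {V : Finset (E d)}
    (hV1 : ∀ v ∈ V, ‖v‖ = 1) (hV2 : ∀ u : E d, ‖u‖ = 1 → ∃ v ∈ V, ‖u - v‖ ≤ δ)
    (x : Fin N → E d) (hx : ∀ i, ‖x i‖ = 1)
    (h1 : ∀ v ∈ V, ¬ ∃ J : Finset (Fin N), J.card = k ∧ ∀ i ∈ J, x ∈ Hev θ δ v i)
    (h2 : ∀ v ∈ V, ¬ ∃ J : Finset (Fin N), J.card = k ∧
      ∀ i ∈ J, x ∈ @Hev d (Fin N) (LinearOrder.swap (Fin N) inferInstance) θ δ v i)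
    (t : E d) (I : Finset (Fin N))
    (hI : ∀ i ∈ I, x i ∈ (fun y => t + y) '' interior (symPoly x)) : I.card ≤ 2 * k := by
  classical
  obtain ⟨w, hw1, hw⟩ := hlow d N x hd hN t
  obtain ⟨v, hv, hwv⟩ := hV2 w hw1
  set J1 := Finset.univ.filter (fun i => x ∈ Hev θ δ v i) with hJ1
  set J2 := Finset.univ.filter (fun i => x ∈
    @Hev d (Fin N) (LinearOrder.swap (Fin N) inferInstance) θ δ v i) with hJ2
  have hc1 : J1.card < k := by
    by_contra hcon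
    push Not at hcon
    obtain ⟨J, hJ, hJc⟩ := Finset.exists_subset_card_eq hcon
    exact h1 v hv ⟨J, hJc, fun i hi => (Finset.mem_filter.1 (hJ hi)).2⟩
  have hc2 : J2.card < k := by
    by_contra hcon
    push Not at hcon
    obtain ⟨J, hJ, hJc⟩ := Finset.exists_subset_card_eq hcon
    exact h2 v hv ⟨J, hJc, fun i hi => (Finset.mem_filter.1 (hJ hi)).2⟩
  have hsub : I ⊆ J1 ∪ J2 := by
    intro i hi
    obtain ⟨j, hji, hj⟩ := hw i (hI i hi)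
    have h3 := hchg d w v (x i) (x j) δ hw1 (hV1 v hv) (hx i).le (hx j).le hwv hj
    rw [Finset.mem_union, hJ1, hJ2, Finset.mem_filter, Finset.mem_filter]
    by_cases hth : 1 / 2 < θ ∧ ‖proj v (x i)‖ ^ 2 ≤ θ
    · exact Or.inl ⟨Finset.mem_univ _, Or.inl hth⟩
    · have h4 : θ ≤ ‖proj v (x i)‖ ^ 2 ∨ θ = 1 / 2 := by
        rcases hθ.lt_or_eq with h | h
        · left
          by_contra hcon
          exact hth ⟨h, (not_le.1 hcon).le⟩
        · exact Or.inr h.symm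
      rcases lt_or_gt_of_ne hji with h | h
      · exact Or.inl ⟨Finset.mem_univ _, Or.inr ⟨h4, j, h, (hx j).le, h3⟩⟩
      · exact Or.inr ⟨Finset.mem_univ _, Or.inr ⟨h4, j, h, (hx j).le, h3⟩⟩
  calc _ ≤ (J1 ∪ J2).card := Finset.card_le_card hsub
    _ ≤ J1.card + J2.card := Finset.card_union_le _ _
    _ ≤ 2 * k := by omega

/-- the bad event -/
def Bad {d N : ℕ} (θ δ : ℝ) (V : Finset (E d)) (k : ℕ) : Set (Fin N → E d) :=
  (⋃ v ∈ V, {x | ∃ J : Finset (Fin N), J.card = k ∧ ∀ i ∈ J, x ∈ Hev θ δ v i}) ∪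
  (⋃ v ∈ V, {x | ∃ J : Finset (Fin N), J.card = k ∧
      ∀ i ∈ J, x ∈ @Hev d (Fin N) (LinearOrder.swap (Fin N) inferInstance) θ δ v i})

lemma prob_Bad (hseq : S_SEQ2) (hch : S_CHOOSE) {θ δ A : ℝ} (hδ : 0 < δ) (hA : 0 < A) {d : ℕ}
    [IsProbabilityMeasure (dirLaw d)]
    (hsec : ∀ (w : E d), ‖w‖ = 1 → ∀ (N : ℕ) (y : Fin N → E d), (∀ j, ‖y j‖ ≤ 1) →
      dirLaw d {x | (1 / 2 < θ ∧ ‖proj w x‖ ^ 2 ≤ θ) ∨ ((θ ≤ ‖proj w x‖ ^ 2 ∨ θ = 1 / 2) ∧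
      ∃ j, ‖proj w x‖ ^ 2 ≤ |⟪proj w x, y j⟫| + 4 * δ)} ≤ ENNReal.ofReal (secB θ δ A d N))
    (N : ℕ) {V : Finset (E d)} (hV1 : ∀ v ∈ V, ‖v‖ = 1) (k : ℕ) (hk : 1 ≤ k)
    (hkc : 2 * Real.exp 1 * (N * secB θ δ A d N) ≤ k) :
    Measure.pi (fun _ : Fin N => dirLaw d) (Bad θ δ V k) ≤
      ENNReal.ofReal (2 * V.card * (1 / 2) ^ k) := by
  have h1 : ∀ v ∈ V, Measure.pi (fun _ : Fin N => dirLaw d)
      {x | ∃ J : Finset (Fin N), J.card = k ∧ ∀ i ∈ J, x ∈ Hev θ δ v i} ≤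
      ENNReal.ofReal ((1 / 2) ^ k) := fun v hv =>
    prob_Hev hseq hch hδ hA hsec (Fin N) v (hV1 v hv) k hk (by rwa [Fintype.card_fin])
  have h2 : ∀ v ∈ V, Measure.pi (fun _ : Fin N => dirLaw d)
      {x | ∃ J : Finset (Fin N), J.card = k ∧
        ∀ i ∈ J, x ∈ @Hev d (Fin N) (LinearOrder.swap (Fin N) inferInstance) θ δ v i} ≤
      ENNReal.ofReal ((1 / 2) ^ k) := fun v hv =>
    @prob_Hev hseq hch θ δ A hδ hA d _ hsec (Fin N) _ (LinearOrder.swap (Fin N) inferInstance)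
      v (hV1 v hv) k hk (by rwa [Fintype.card_fin])
  have hsum : ∀ S : E d → Set (Fin N → E d), (∀ v ∈ V, Measure.pi (fun _ : Fin N => dirLaw d) (S v) ≤
      ENNReal.ofReal ((1 / 2) ^ k)) → Measure.pi (fun _ : Fin N => dirLaw d) (⋃ v ∈ V, S v) ≤
      ENNReal.ofReal (V.card * (1 / 2) ^ k) := by
    intro S hS
    calc _ ≤ ∑ v ∈ V, Measure.pi (fun _ : Fin N => dirLaw d) (S v) := measure_biUnion_finset_le _ _
      _ ≤ ∑ v ∈ V, ENNReal.ofReal ((1 / 2) ^ k) := Finset.sum_le_sum hS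
      _ = ENNReal.ofReal (V.card * (1 / 2) ^ k) := by
          rw [Finset.sum_const, nsmul_eq_mul, ENNReal.ofReal_mul (Nat.cast_nonneg _),
            ENNReal.ofReal_natCast]
  have h3 := hsum _ h1
  have h4 := hsum _ h2
  calc _ ≤ _ := measure_union_le _ _
    _ ≤ ENNReal.ofReal (V.card * (1 / 2) ^ k) + ENNReal.ofReal (V.card * (1 / 2) ^ k) :=
        add_le_add h3 h4
    _ = ENNReal.ofReal (2 * V.card * (1 / 2) ^ k) := by
        rw [← ENNReal.ofReal_add (by positivity) (by positivity)]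
        congr 1
        ring

lemma count_points (hlow : S_LOW1) (hchg : S_CHG) {θ δ : ℝ} (hθ : 1 / 2 ≤ θ)
    {d N k : ℕ} (hd : 1 ≤ d) (hN : 2 ≤ N) {V : Finset (E d)}
    (hV1 : ∀ v ∈ V, ‖v‖ = 1) (hV2 : ∀ u : E d, ‖u‖ = 1 → ∃ v ∈ V, ‖u - v‖ ≤ δ)
    (x : Fin N → E d) (hx : ∀ i, ‖x i‖ = 1) (hbad : x ∉ Bad θ δ V k) (T : Finset (E d))
    (hT : CoveredBy T (poly x) ∨ CoveredBy T (symPoly x)) : N ≤ T.card * (2 * k) := by
  classical
  unfold Bad at hbad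
  rw [mem_union, not_or] at hbad
  obtain ⟨hb1, hb2⟩ := hbad
  have h1 : ∀ v ∈ V, ¬ ∃ J : Finset (Fin N), J.card = k ∧ ∀ i ∈ J, x ∈ Hev θ δ v i := by
    intro v hv hcon
    exact hb1 (mem_iUnion₂.2 ⟨v, hv, hcon⟩)
  have h2 : ∀ v ∈ V, ¬ ∃ J : Finset (Fin N), J.card = k ∧
      ∀ i ∈ J, x ∈ @Hev d (Fin N) (LinearOrder.swap (Fin N) inferInstance) θ δ v i := by
    intro v hv hcon
    exact hb2 (mem_iUnion₂.2 ⟨v, hv, hcon⟩)
  have hps : interior (poly x) ⊆ interior (symPoly x) := interior_mono (poly_subset_symPoly x)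
  have hmem : ∀ i, x i ∈ poly x := fun i => subset_convexHull ℝ _ (mem_range_self i)
  have hcov : ∀ i, ∃ t ∈ T, x i ∈ (fun y => t + y) '' interior (symPoly x) := by
    intro i
    rcases hT with h | h
    · obtain ⟨t, ht, hxt⟩ := mem_iUnion₂.1 (h (hmem i))
      exact ⟨t, ht, image_mono hps hxt⟩
    · obtain ⟨t, ht, hxt⟩ := mem_iUnion₂.1 (h (poly_subset_symPoly x (hmem i)))
      exact ⟨t, ht, hxt⟩
  have hun : (Finset.univ : Finset (Fin N)) ⊆ T.biUnion (fun t =>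
      Finset.univ.filter (fun i => x i ∈ (fun y => t + y) '' interior (symPoly x))) := by
    intro i _
    obtain ⟨t, ht, hxt⟩ := hcov i
    rw [Finset.mem_biUnion]
    exact ⟨t, ht, Finset.mem_filter.2 ⟨Finset.mem_univ _, hxt⟩⟩
  calc N = (Finset.univ : Finset (Fin N)).card := by simp
    _ ≤ _ := Finset.card_le_card hun
    _ ≤ T.card * (2 * k) := Finset.card_biUnion_le_card_mul _ _ _ (fun t _ =>
        few_points hlow hchg hθ hd hN hV1 hV2 x hx h1 h2 t _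
          (fun i hi => (Finset.mem_filter.1 hi).2))

/-- choice of the parameters -/
lemma params {q r : ℝ} (hq : 1 < q) (hr : 0 < r) (h1 : r < q) (h2 : r * √(q ^ 2 - 1) < q) :
    ∃ θ Λ₁ Λ₂ δ : ℝ, 1 / 2 ≤ θ ∧ θ ≤ 1 ∧ 1 < Λ₁ ∧ Λ₁ < Λ₂ ∧ r * Λ₂ < q ∧ 0 < δ ∧
      (1 / 2 < θ → q * (√θ + δ) ≤ Λ₁) ∧ q ^ 2 * (√(θ - θ ^ 2 + 8 * δ) + δ) ≤ Λ₁ := by
  have hq0 : 0 < q := by linarith
  have hqq : 0 < q ^ 2 - 1 := by nlinarith
  set s := √(q ^ 2 - 1) with hs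
  have hs0 : 0 < s := Real.sqrt_pos.2 hqq
  have hs2 : s ^ 2 = q ^ 2 - 1 := Real.sq_sqrt hqq.le
  -- Λ
  obtain ⟨Λ, hΛ1, hΛs, hΛr⟩ : ∃ Λ : ℝ, 1 ≤ Λ ∧ s ≤ Λ ∧ r * Λ < q := by
    rcases le_total 1 s with h | h
    · exact ⟨s, h, le_rfl, h2⟩
    · exact ⟨1, le_rfl, h, by linarith⟩
  have hΛq : Λ < q / r := by rw [lt_div_iff₀ hr]; linarith
  -- θ
  obtain ⟨θ, hθ1, hθ2, hθ3, hθ4⟩ : ∃ θ : ℝ, 1 / 2 ≤ θ ∧ θ ≤ 1 ∧ (1 / 2 < θ → q * √θ ≤ Λ) ∧
      q ^ 2 * √(θ - θ ^ 2) ≤ Λ := by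
    rcases le_total (q ^ 2) 2 with h | h
    · refine ⟨1 / 2, le_rfl, by norm_num, fun h => absurd h (lt_irrefl _), ?_⟩
      have : √((1 : ℝ) / 2 - (1 / 2) ^ 2) = 1 / 2 := by
        rw [show ((1 : ℝ) / 2 - (1 / 2) ^ 2) = (1 / 2) ^ 2 by norm_num]
        exact Real.sqrt_sq (by norm_num)
      rw [this]
      linarith
    · have hi : 1 / q ^ 2 ≤ 1 / 2 := one_div_le_one_div_of_le (by norm_num) h
      have hi0 : 0 < 1 / q ^ 2 := by positivity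
      have hθ : 1 - 1 / q ^ 2 = (s / q) ^ 2 := by rw [div_pow, hs2]; field_simp
      refine ⟨1 - 1 / q ^ 2, by linarith, by linarith, fun _ => ?_, ?_⟩
      · rw [hθ, Real.sqrt_sq (by positivity)]
        have : q * (s / q) = s := by field_simp
        rw [this]; exact hΛs
      · have h3 : (1 - 1 / q ^ 2) - (1 - 1 / q ^ 2) ^ 2 = (s / q ^ 2) ^ 2 := by
          rw [div_pow, hs2]; field_simp; ring
        rw [h3, Real.sqrt_sq (by positivity)]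
        have : q ^ 2 * (s / q ^ 2) = s := by field_simp
        rw [this]; exact hΛs
  set Λ₁ := (2 * Λ + q / r) / 3 with hΛ₁
  set Λ₂ := (Λ + 2 * (q / r)) / 3 with hΛ₂
  have h3 : Λ < Λ₁ := by rw [hΛ₁]; linarith
  have h4 : Λ₁ < Λ₂ := by rw [hΛ₁, hΛ₂]; linarith
  have h5 : Λ₂ < q / r := by rw [hΛ₂]; linarith
  have h6 : r * Λ₂ < q := by rw [lt_div_iff₀ hr] at h5; linarith
  -- δ
  have c1 : Tendsto (fun δ : ℝ => q * (√θ + δ)) (𝓝[>] 0) (𝓝 (q * (√θ + 0))) := by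
    apply tendsto_nhdsWithin_of_tendsto_nhds
    exact (Continuous.tendsto (by fun_prop) 0)
  have c2 : Tendsto (fun δ : ℝ => q ^ 2 * (√(θ - θ ^ 2 + 8 * δ) + δ)) (𝓝[>] 0)
      (𝓝 (q ^ 2 * (√(θ - θ ^ 2 + 8 * 0) + 0))) := by
    apply tendsto_nhdsWithin_of_tendsto_nhds
    exact (Continuous.tendsto (by fun_prop) 0)
  rw [add_zero] at c1
  rw [mul_zero, add_zero, add_zero] at c2
  have e2 : ∀ᶠ δ in 𝓝[>] (0 : ℝ), q ^ 2 * (√(θ - θ ^ 2 + 8 * δ) + δ) < Λ₁ :=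
    c2.eventually_lt_const (by linarith)
  have e1 : ∀ᶠ δ in 𝓝[>] (0 : ℝ), (1 / 2 < θ → q * (√θ + δ) ≤ Λ₁) := by
    by_cases h : 1 / 2 < θ
    · have := c1.eventually_lt_const (lt_of_le_of_lt (hθ3 h) h3)
      filter_upwards [this] with δ hδ _ using hδ.le
    · exact Eventually.of_forall fun δ h' => absurd h' h
  have e0 : ∀ᶠ δ in 𝓝[>] (0 : ℝ), 0 < δ := eventually_mem_nhdsWithin
  obtain ⟨δ, hδ0, hδ1, hδ2⟩ := (e0.and (e1.and e2)).exists
  exact ⟨θ, Λ₁, Λ₂, δ, hθ1, hθ2, by linarith, h4, h6, hδ0, hδ1, hδ2.le⟩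

lemma lower (hsec : S_SEC) (hseq : S_SEQ2) (hch : S_CHOOSE) (hlow : S_LOW1) (hchg : S_CHG)
    (hnet : S_NET) (hdir : S_DIR) {q r : ℝ} (hq : 1 < q) (hr : 0 < r) (h1 : r < q)
    (h2 : r * √(q ^ 2 - 1) < q) :
    ∃ c : ℝ, 0 < c ∧ ∀ᶠ d : ℕ in atTop,
      Measure.pi (fun _ : Fin ⌊q ^ d⌋₊ => dirLaw d)
        {x | ∃ T : Finset (E d), (T.card : ℝ) ≤ r ^ d ∧
          (CoveredBy T (poly x) ∨ CoveredBy T (symPoly x))} ≤
        ENNReal.ofReal (Real.exp (-Real.exp (c * d))) := by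
  obtain ⟨θ, Λ₁, Λ₂, δ, hθ1, hθ2, hΛ1, hΛ12, hrΛ, hδ, hp1, hp2⟩ := params hq hr h1 h2
  obtain ⟨A, hA, hsec'⟩ := hsec θ δ hθ1 hθ2 hδ
  have hΛ20 : 0 < Λ₂ := by linarith
  have hΛ10 : 0 < Λ₁ := by linarith
  have hq0 : 0 < q := by linarith
  have hB : (0 : ℝ) < 2 * (1 + 2 / δ) := by positivity
  obtain ⟨c, hc, hev⟩ := dexp hB (Real.log_pos (by norm_num : (1 : ℝ) < 2)) (hΛ1.trans hΛ12)
  set q' := (max 1 (r * Λ₂) + q) / 2 with hq'
  have hm1 : max 1 (r * Λ₂) < q := max_lt hq hrΛ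
  have hq'0 : max 1 (r * Λ₂) < q' := by rw [hq']; linarith
  have hq'1 : 1 < q' := lt_of_le_of_lt (le_max_left _ _) hq'0
  have hq'2 : r * Λ₂ < q' := lt_of_le_of_lt (le_max_right _ _) hq'0
  have hq'3 : q' < q := by rw [hq']; linarith
  have hrΛ0 : 0 < r * Λ₂ := by positivity
  have hqr : 1 < q' / (r * Λ₂) := by rw [one_lt_div hrΛ0]; exact hq'2
  have hΛΛ : 1 < Λ₂ / Λ₁ := by rw [one_lt_div hΛ10]; exact hΛ12
  refine ⟨c, hc, ?_⟩
  filter_upwards [hev, eventually_ge_atTop 1, const_le_pow hqr 5,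
    const_le_pow hΛΛ (2 * Real.exp 1 * (3 * A)), pow_le_floor hq'1 hq'3,
    const_le_pow hq'1 2] with d hd hd1 h5 hA6 hfl hq2
  obtain ⟨V, hVc, hV1, hV2⟩ := hnet d δ hδ
  obtain ⟨hprob, -, hnorm⟩ := hdir d hd1
  set N := ⌊q ^ d⌋₊ with hN
  set k := ⌈Λ₂ ^ d⌉₊ with hk
  have hNq : (N : ℝ) ≤ q ^ d := Nat.floor_le (by positivity)
  have hN2 : 2 ≤ N := by
    have : (2 : ℝ) ≤ N := hq2.trans hfl
    exact_mod_cast this
  have hΛd : 1 ≤ Λ₂ ^ d := one_le_pow₀ (by linarith)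
  have hk1 : Λ₂ ^ d ≤ k := Nat.le_ceil _
  have hk2 : (k : ℝ) ≤ 2 * Λ₂ ^ d := by
    have := (Nat.ceil_lt_add_one (by positivity : (0 : ℝ) ≤ Λ₂ ^ d)).le
    linarith
  have hk0 : 1 ≤ k := by
    have : (1 : ℝ) ≤ k := hΛd.trans hk1
    exact_mod_cast this
  have hN0 : (0 : ℝ) ≤ N := Nat.cast_nonneg _
  have hkc : 2 * Real.exp 1 * (N * secB θ δ A d N) ≤ k := by
    have hs : N * secB θ δ A d N ≤ 3 * A * Λ₁ ^ d := by
      unfold secB
      have t2 : (N : ℝ) * (2 * N * (A * (√(θ - θ ^ 2 + 8 * δ) + δ) ^ d)) ≤ 2 * A * Λ₁ ^ d := by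
        have u1 : 0 ≤ (√(θ - θ ^ 2 + 8 * δ) + δ) := by positivity
        have u2 : (N : ℝ) * N ≤ (q ^ 2) ^ d := by
          have : (q ^ 2) ^ d = q ^ d * q ^ d := by ring
          rw [this]
          exact mul_le_mul hNq hNq hN0 (by positivity)
        calc (N : ℝ) * (2 * N * (A * (√(θ - θ ^ 2 + 8 * δ) + δ) ^ d))
            = (N * N) * (2 * A * (√(θ - θ ^ 2 + 8 * δ) + δ) ^ d) := by ring
          _ ≤ (q ^ 2) ^ d * (2 * A * (√(θ - θ ^ 2 + 8 * δ) + δ) ^ d) :=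
              mul_le_mul_of_nonneg_right u2 (by positivity)
          _ = 2 * A * (q ^ 2 * (√(θ - θ ^ 2 + 8 * δ) + δ)) ^ d := by rw [mul_pow]; ring
          _ ≤ 2 * A * Λ₁ ^ d := by
              apply mul_le_mul_of_nonneg_left _ (by positivity)
              exact pow_le_pow_left₀ (by positivity) hp2 d
      have t1 : (N : ℝ) * (if θ = 1 / 2 then 0 else A * (√θ + δ) ^ d) ≤ A * Λ₁ ^ d := by
        split_ifs with h
        · rw [mul_zero]; positivity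
        · have h' : 1 / 2 < θ := lt_of_le_of_ne hθ1 (Ne.symm h)
          calc (N : ℝ) * (A * (√θ + δ) ^ d) ≤ q ^ d * (A * (√θ + δ) ^ d) :=
                mul_le_mul_of_nonneg_right hNq (by positivity)
            _ = A * (q * (√θ + δ)) ^ d := by rw [mul_pow]; ring
            _ ≤ A * Λ₁ ^ d := by
                apply mul_le_mul_of_nonneg_left _ hA.le
                exact pow_le_pow_left₀ (by positivity) (hp1 h') d
      calc _ = (N : ℝ) * (if θ = 1 / 2 then 0 else A * (√θ + δ) ^ d) +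
            (N : ℝ) * (2 * N * (A * (√(θ - θ ^ 2 + 8 * δ) + δ) ^ d)) := by ring
        _ ≤ A * Λ₁ ^ d + 2 * A * Λ₁ ^ d := add_le_add t1 t2
        _ = 3 * A * Λ₁ ^ d := by ring
    have he : 0 < Real.exp 1 := Real.exp_pos _
    rw [div_pow, le_div_iff₀ (by positivity)] at hA6
    calc 2 * Real.exp 1 * (N * secB θ δ A d N) ≤ 2 * Real.exp 1 * (3 * A * Λ₁ ^ d) :=
          mul_le_mul_of_nonneg_left hs (by positivity)
      _ = 2 * Real.exp 1 * (3 * A) * Λ₁ ^ d := by ring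
      _ ≤ Λ₂ ^ d := hA6
      _ ≤ k := hk1
  have hbadP := prob_Bad hseq hch hδ hA (hsec' d hd1) N hV1 k hk0 hkc
  have hfin : 2 * (V.card : ℝ) * (1 / 2) ^ k ≤ Real.exp (-Real.exp (c * d)) := by
    refine le_trans ?_ hd
    have v1 : 2 * (V.card : ℝ) ≤ (2 * (1 + 2 / δ)) ^ d := by
      rw [mul_pow]
      have : (2 : ℝ) ≤ 2 ^ d := by
        calc (2 : ℝ) = 2 ^ 1 := by norm_num
          _ ≤ 2 ^ d := pow_le_pow_right₀ (by norm_num) hd1
      exact mul_le_mul this hVc (Nat.cast_nonneg _) (by positivity)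
    have v2 : ((1 : ℝ) / 2) ^ k ≤ Real.exp (-(Real.log 2 * Λ₂ ^ d)) := by
      have : ((1 : ℝ) / 2) = Real.exp (-Real.log 2) := by
        rw [Real.exp_neg, Real.exp_log (by norm_num)]; norm_num
      rw [this, ← Real.exp_nat_mul]
      apply Real.exp_le_exp.2
      have := Real.log_pos (by norm_num : (1 : ℝ) < 2)
      nlinarith
    exact mul_le_mul v1 v2 (by positivity) (by positivity)
  refine (measure_mono_ae ?_).trans (hbadP.trans (ENNReal.ofReal_le_ofReal hfin))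
  filter_upwards [ae_pi_norm (fun _ : Fin N => dirLaw d) (fun _ => hnorm)] with x hx hxT
  by_contra hnb
  obtain ⟨T, hT, hTc⟩ := hxT
  have hcount := count_points hlow hchg hθ1 hd1 hN2 hV1 hV2 x hx hnb T hTc
  have hcount' : (N : ℝ) ≤ T.card * (2 * k) := by exact_mod_cast hcount
  have hcon : (N : ℝ) ≤ 4 * (r * Λ₂) ^ d := by
    calc (N : ℝ) ≤ T.card * (2 * k) := hcount'
      _ ≤ r ^ d * (2 * (2 * Λ₂ ^ d)) := by
          apply mul_le_mul hT (by linarith) (by positivity) (by positivity)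
      _ = 4 * (r * Λ₂) ^ d := by rw [mul_pow]; ring
  rw [div_pow, le_div_iff₀ (by positivity)] at h5
  have : 0 < (r * Λ₂) ^ d := by positivity
  linarith

end Pool.Agent.H266.RP
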