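import Pool.Agent.H266.RP.Asy

set_option autoImplicit false

open MeasureTheory Set Metric Filter
open scoped Pointwise RealInnerProductSpace ENNReal Topology

namespace Pool.Agent.H266.RP

/-- The points `x` have the property used below: `ρ` is the `m`-th largest norm and the polytope
contains the ball of radius `b ρ`. -/
def Good {d N : ℕ} (m : ℕ) (b : ℝ) (x : Fin N → E d) : Prop :=
  ∃ ρ : ℝ, 0 ≤ ρ ∧ (Finset.univ.filter (fun j => ρ < ‖x j‖)).card < m ∧ (∃ i, ‖x i‖ = ρ) ∧
    closedBall 0 (b * ρ) ⊆ poly x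

lemma main_good (hcap : S_CAP) (hnet : S_NET) (hball : S_BALL) (hprob : S_PROB) (htop : S_TOP)
    {κ a q b : ℝ} (hκ : 0 < κ) (ha : 0 < a) (hκa : κ ^ 2 + a ^ 2 < 1) (hqa : 1 < q * a)
    (hb : 0 < b) (hbκ : b < κ) :
    ∃ c : ℝ, 0 < c ∧ ∀ᶠ d : ℕ in atTop, ∀ (N m : ℕ) (μ : Fin N → Measure (E d))
      [∀ i, IsProbabilityMeasure (μ i)], (∀ i, Isotropic (μ i)) → q ^ d ≤ m → m ≤ N →
      Measure.pi μ {x | ¬ Good m b x} ≤ ENNReal.ofReal (Real.exp (-Real.exp (c * d))) := by
  obtain ⟨cc, hcc, hcap'⟩ := hcap κ a hκ ha hκa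
  have hδ : 0 < κ - b := by linarith
  have hB : (0 : ℝ) < 1 + 2 / (κ - b) := by positivity
  obtain ⟨c, hc, hev⟩ := dexp hB hcc hqa
  have hq : 0 < q := by
    by_contra h
    push Not at h
    nlinarith
  refine ⟨c, hc, ?_⟩
  filter_upwards [hev, eventually_ge_atTop 1] with d hd hd1 N m μ _ hμ hm hmN
  obtain ⟨V, hVc, hV1, hV2⟩ := hnet d (κ - b) hδ
  have hm1 : 1 ≤ m := by
    have : (0 : ℝ) < m := lt_of_lt_of_le (by positivity) hm
    exact_mod_cast this
  set p : ℝ := cc * a ^ d with hp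
  have hp0 : 0 ≤ p := by positivity
  have hp1 : p ≤ 1 := by
    haveI := unif_isProb d
    have h := (hcap' d hd1 0).trans prob_le_one
    rwa [ENNReal.ofReal_le_one] at h
  set A : E d → Set (Fin N → E d) := fun v =>
    {x | ∀ i ∈ Top (fun j => ‖x j‖) m, ⟪x i, v⟫ < κ * ‖x i‖} with hA
  have hsub : {x : Fin N → E d | ¬ Good m b x} ⊆ ⋃ v ∈ V, A v := by
    intro x hx
    by_contra hcon
    apply hx
    obtain ⟨ρ, h1, h2, h3, h4⟩ := htop N m (fun j => ‖x j‖) hm1 hmN
    have hρ : 0 ≤ ρ := by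
      obtain ⟨i, hi⟩ := h4
      rw [← hi]; exact norm_nonneg _
    refine ⟨ρ, hρ, h2, h4, ?_⟩
    have hb' : b = κ - (κ - b) := by ring
    have := hball d (Fin N) x V κ (κ - b) ρ (by omega) hV1 hV2 hρ (by linarith) ?_
    · rw [← hb'] at this
      exact this
    · intro v hv
      by_contra hno
      apply hcon
      rw [mem_iUnion₂]
      refine ⟨v, hv, ?_⟩
      intro i hi
      by_contra hlt
      push Not at hlt
      exact hno ⟨i, (h1 i).1 hi, hlt⟩
  calc Measure.pi μ {x | ¬ Good m b x} ≤ Measure.pi μ (⋃ v ∈ V, A v) := measure_mono hsub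
    _ ≤ ∑ v ∈ V, Measure.pi μ (A v) := measure_biUnion_finset_le _ _
    _ ≤ ∑ v ∈ V, ENNReal.ofReal ((1 - p) ^ m) := by
        refine Finset.sum_le_sum fun v hv => ?_
        exact hprob d N m μ hμ hd1 hmN κ p hκ hp0 hp1 (fun x => hcap' d hd1 x) v (hV1 v hv)
    _ = ENNReal.ofReal (V.card * (1 - p) ^ m) := by
        rw [Finset.sum_const, nsmul_eq_mul, ENNReal.ofReal_mul (Nat.cast_nonneg _),
          ENNReal.ofReal_natCast]
    _ ≤ ENNReal.ofReal (Real.exp (-Real.exp (c * d))) := by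
        apply ENNReal.ofReal_le_ofReal
        refine le_trans ?_ hd
        have h1 : (1 - p) ^ m ≤ Real.exp (-(cc * (q * a) ^ d)) := by
          have h2 : (1 - p) ^ m ≤ Real.exp (-p) ^ m :=
            pow_le_pow_left₀ (by linarith) (Real.one_sub_le_exp_neg p) m
          refine h2.trans ?_
          rw [← Real.exp_nat_mul]
          apply Real.exp_le_exp.2
          have h3 : cc * (q * a) ^ d ≤ m * p := by
            rw [hp, mul_pow]
            have : q ^ d * (cc * a ^ d) ≤ m * (cc * a ^ d) :=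
              mul_le_mul_of_nonneg_right hm (by positivity)
            nlinarith
          linarith
        exact mul_le_mul hVc h1 (pow_nonneg (by linarith) _) (by positivity)

end Pool.Agent.H266.RP
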