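import Pool.Agent.H266.RP.Stm2

/-!
# Change of `w` in the projection
-/

set_option autoImplicit false

open MeasureTheory Set Metric
open scoped Pointwise RealInnerProductSpace ENNReal

namespace Pool.Agent.H266.RP

namespace ChgL

theorem sq_proj {d : ℕ} (w x : E d) (hw : ‖w‖ = 1) : ‖proj w x‖ ^ 2 = ‖x‖ ^ 2 - ⟪x, w⟫ ^ 2 := by
  unfold proj
  rw [norm_sub_sq_real, norm_smul, hw, real_inner_smul_right, Real.norm_eq_abs, mul_one, sq_abs]
  ring

theorem inner_proj {d : ℕ} (w x y : E d) : ⟪proj w x, y⟫ = ⟪x, y⟫ - ⟪x, w⟫ * ⟪w, y⟫ := by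
  unfold proj
  rw [inner_sub_left, real_inner_smul_left]

theorem bd {d : ℕ} (u v : E d) (hu : ‖u‖ ≤ 1) (hv : ‖v‖ ≤ 1) : |⟪u, v⟫| ≤ 1 := by
  refine (abs_real_inner_le_norm u v).trans ?_
  have := mul_le_mul hu hv (norm_nonneg _) zero_le_one
  linarith

end ChgL

open ChgL in
theorem p_chg : S_CHG := by
  intro d w w' x y δ hw hw' hx hy hd h
  rw [sq_proj w x hw, inner_proj] at h
  rw [sq_proj w' x hw', inner_proj]
  have hδ : 0 ≤ δ := (norm_nonneg _).trans hd
  have a1 : |⟪x, w⟫| ≤ 1 := bd x w hx hw.le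
  have a2 : |⟪x, w'⟫| ≤ 1 := bd x w' hx hw'.le
  have b1 : |⟪w, y⟫| ≤ 1 := bd w y hw.le hy
  have ha : |⟪x, w⟫ - ⟪x, w'⟫| ≤ δ := by
    rw [← inner_sub_right]
    refine (abs_real_inner_le_norm _ _).trans ?_
    have := mul_le_mul hx hd (norm_nonneg _) zero_le_one
    linarith
  have hb : |⟪w, y⟫ - ⟪w', y⟫| ≤ δ := by
    rw [← inner_sub_left]
    refine (abs_real_inner_le_norm _ _).trans ?_
    have := mul_le_mul hd hy (norm_nonneg _) hδ
    linarith
  generalize ⟪x, w⟫ = a at *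
  generalize ⟪x, w'⟫ = a' at *
  generalize ⟪w, y⟫ = b at *
  generalize ⟪w', y⟫ = b' at *
  generalize ⟪x, y⟫ = c at *
  have e1 : |a ^ 2 - a' ^ 2| ≤ 2 * δ := by
    have e : a ^ 2 - a' ^ 2 = (a - a') * (a + a') := by ring
    rw [e, abs_mul]
    have h2 : |a + a'| ≤ 2 := (abs_add_le a a').trans (by linarith)
    calc |a - a'| * |a + a'| ≤ δ * 2 := mul_le_mul ha h2 (abs_nonneg _) hδ
      _ = 2 * δ := by ring
  have e2 : |a * b - a' * b'| ≤ 2 * δ := by
    have e : a * b - a' * b' = (a - a') * b + a' * (b - b') := by ring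
    rw [e]
    refine (abs_add_le _ _).trans ?_
    rw [abs_mul, abs_mul]
    have h1 : |a - a'| * |b| ≤ δ * 1 := mul_le_mul ha b1 (abs_nonneg _) hδ
    have h2 : |a'| * |b - b'| ≤ 1 * δ := mul_le_mul a2 hb (abs_nonneg _) zero_le_one
    linarith
  have e3 : |c - a * b| ≤ |c - a' * b'| + 2 * δ := by
    have e : c - a * b = (c - a' * b') - (a * b - a' * b') := by ring
    rw [e]
    refine (abs_sub _ _).trans ?_
    linarith
  have e4 := (abs_le.1 e1).2
  linarith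

end Pool.Agent.H266.RP
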