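import Pool.Agent.H266.RP.Stm

/-! # RP, S_CYL (helper725): upper bound for cylinders -/

set_option autoImplicit false

open MeasureTheory Set Metric
open scoped Pointwise RealInnerProductSpace ENNReal

namespace Pool.Agent.H266.RP

namespace PCyl

theorem cover {d : ℕ} (δ : ℝ) (hδ : 0 < δ) (w z : E d) (hw : ‖w‖ = 1) (M : ℤ)
    (hM : 1 / δ + 1 ≤ M) :
    {x | ‖proj w x - z‖ ≤ 1 / 2 + 3 * δ} ∩ closedBall (0 : E d) 1 ⊆
      ⋃ k ∈ Finset.Icc (-M) M, closedBall (z + ((k : ℝ) * δ) • w) (1 / 2 + 4 * δ) := by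
  rintro x ⟨hx1, hx2⟩
  have hx1' : ‖proj w x - z‖ ≤ 1 / 2 + 3 * δ := hx1
  have hxn : ‖x‖ ≤ 1 := by simpa using hx2
  have ha : |⟪x, w⟫| ≤ 1 := by
    have h := abs_real_inner_le_norm x w
    rw [hw, mul_one] at h
    exact h.trans hxn
  obtain ⟨a, hae⟩ : ∃ a : ℝ, a = ⟪x, w⟫ := ⟨_, rfl⟩
  rw [← hae] at ha
  rw [abs_le] at ha
  have hf1 : (⌊a / δ⌋ : ℝ) ≤ a / δ := Int.floor_le _
  have hf2 : a / δ < ⌊a / δ⌋ + 1 := Int.lt_floor_add_one _
  have h1 : a / δ ≤ 1 / δ := div_le_div_of_nonneg_right ha.2 hδ.le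
  have h2 : -(1 / δ) ≤ a / δ := by
    rw [← neg_div]
    exact div_le_div_of_nonneg_right ha.1 hδ.le
  rw [mem_iUnion₂]
  refine ⟨⌊a / δ⌋, ?_, ?_⟩
  · rw [Finset.mem_Icc]
    constructor
    · have : (-(M : ℝ)) ≤ (⌊a / δ⌋ : ℝ) := by linarith
      exact_mod_cast this
    · have : (⌊a / δ⌋ : ℝ) ≤ (M : ℝ) := by linarith
      exact_mod_cast this
  · rw [mem_closedBall, dist_eq_norm]
    have e : x - (z + ((⌊a / δ⌋ : ℝ) * δ) • w) =
        (proj w x - z) + (a - (⌊a / δ⌋ : ℝ) * δ) • w := by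
      unfold proj
      rw [← hae, sub_smul]
      abel
    rw [e]
    have h3 : (⌊a / δ⌋ : ℝ) * δ ≤ a := (le_div_iff₀ hδ).1 hf1
    have h4 : a < ((⌊a / δ⌋ : ℝ) + 1) * δ := (div_lt_iff₀ hδ).1 hf2
    have h5 : |a - (⌊a / δ⌋ : ℝ) * δ| ≤ δ := by
      rw [abs_le]
      constructor <;> linarith
    calc ‖(proj w x - z) + (a - (⌊a / δ⌋ : ℝ) * δ) • w‖
        ≤ ‖proj w x - z‖ + ‖(a - (⌊a / δ⌋ : ℝ) * δ) • w‖ := norm_add_le _ _
      _ = ‖proj w x - z‖ + |a - (⌊a / δ⌋ : ℝ) * δ| := by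
          rw [norm_smul, hw, mul_one, Real.norm_eq_abs]
      _ ≤ 1 / 2 + 4 * δ := by linarith

end PCyl

theorem p_cyl : S_CYL := by
  intro δ hδ
  obtain ⟨M, hM⟩ : ∃ M : ℤ, 1 / δ + 1 ≤ (M : ℝ) := ⟨⌈1 / δ + 1⌉, Int.le_ceil _⟩
  have hM0 : (0 : ℤ) ≤ M := by
    have h1 : 0 < 1 / δ := one_div_pos.2 hδ
    have h2 : (0 : ℝ) ≤ (M : ℝ) := by linarith
    exact_mod_cast h2
  refine ⟨((Finset.Icc (-M) M).card : ℝ), ?_, ?_⟩
  · have h : 0 < (Finset.Icc (-M) M).card := Finset.card_pos.2 ⟨0, by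
      rw [Finset.mem_Icc]
      constructor <;> omega⟩
    exact_mod_cast h
  intro d _ w z hw
  have hr : (0 : ℝ) ≤ 1 / 2 + 4 * δ := by linarith
  have hB0 : volume (closedBall (0 : E d) 1) ≠ 0 := by
    have := measure_closedBall_pos (volume : Measure (E d)) (0 : E d) one_pos
    exact this.ne'
  have hBt : volume (closedBall (0 : E d) 1) ≠ ∞ := measure_closedBall_lt_top.ne
  have h1 : volume ({x | ‖proj w x - z‖ ≤ 1 / 2 + 3 * δ} ∩ closedBall (0 : E d) 1) ≤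
      ((Finset.Icc (-M) M).card : ℝ≥0∞) *
        (ENNReal.ofReal ((1 / 2 + 4 * δ) ^ d) * volume (closedBall (0 : E d) 1)) := by
    refine (measure_mono (PCyl.cover δ hδ w z hw M hM)).trans ?_
    refine (measure_biUnion_finset_le _ _).trans ?_
    have h2 : ∀ k ∈ Finset.Icc (-M) M,
        volume (closedBall (z + ((k : ℝ) * δ) • w) (1 / 2 + 4 * δ)) =
          ENNReal.ofReal ((1 / 2 + 4 * δ) ^ d) * volume (closedBall (0 : E d) 1) := by
      intro k _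
      rw [Measure.addHaar_closedBall' volume _ hr, finrank_euclideanSpace_fin]
    rw [Finset.sum_congr rfl h2, Finset.sum_const, nsmul_eq_mul]
  unfold unif
  rw [Measure.smul_apply, Measure.restrict_apply' measurableSet_closedBall, smul_eq_mul]
  refine (mul_le_mul_right h1 _).trans (le_of_eq ?_)
  rw [ENNReal.ofReal_mul (Nat.cast_nonneg _), ENNReal.ofReal_natCast]
  rw [← mul_assoc ((Finset.Icc (-M) M).card : ℝ≥0∞), ← mul_assoc,
    mul_comm (volume (closedBall (0 : E d) 1))⁻¹, mul_assoc, ENNReal.inv_mul_cancel hB0 hBt, mul_one]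

end Pool.Agent.H266.RP
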