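import Pool.Agent.H266.RP.Stm

/-!
# Covering numbers of random polytopes: one translate covers few points, deterministic part
-/

set_option autoImplicit false

open MeasureTheory Set Metric
open scoped Pointwise RealInnerProductSpace ENNReal

namespace Pool.Agent.H266.RP

namespace LowdetH747

theorem inner_proj_self {d : ℕ} {w : E d} (hw : ‖w‖ = 1) (x : E d) : ⟪proj w x, w⟫ = 0 := by
  unfold proj
  rw [inner_sub_left, inner_smul_left, real_inner_self_eq_norm_sq, hw]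
  simp

theorem inner_proj {d : ℕ} {w : E d} (hw : ‖w‖ = 1) (x y : E d) :
    ⟪proj w x, y⟫ = ⟪proj w x, proj w y⟫ := by
  have h : proj w y = y - ⟪y, w⟫ • w := rfl
  rw [h, inner_sub_right, inner_smul_right, inner_proj_self hw, mul_zero, sub_zero]

theorem norm_proj_le {d : ℕ} {w : E d} (hw : ‖w‖ = 1) (x : E d) : ‖proj w x‖ ≤ ‖x‖ := by
  have h1 : ‖proj w x‖ ^ 2 = ⟪proj w x, x⟫ := by
    rw [inner_proj hw, real_inner_self_eq_norm_sq]
  have h2 := real_inner_le_norm (proj w x) x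
  rcases eq_or_lt_of_le (norm_nonneg (proj w x)) with h3 | h3
  · rw [← h3]
    exact norm_nonneg x
  · have h4 : ‖proj w x‖ * ‖proj w x‖ ≤ ‖proj w x‖ * ‖x‖ := by
      rw [← sq, h1]
      exact h2
    exact le_of_mul_le_mul_left h4 h3

theorem exists_unit {d : ℕ} (hd : 1 ≤ d) (t : E d) : ∃ w : E d, ‖w‖ = 1 ∧ ∃ c : ℝ, t = c • w := by
  by_cases ht : t = 0
  · refine ⟨EuclideanSpace.single (⟨0, by omega⟩ : Fin d) (1 : ℝ), ?_, 0, ?_⟩
    · rw [EuclideanSpace.norm_single, norm_one]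
    · rw [ht, zero_smul]
  · have hn : ‖t‖ ≠ 0 := norm_ne_zero_iff.mpr ht
    refine ⟨‖t‖⁻¹ • t, ?_, ‖t‖, ?_⟩
    · rw [norm_smul, norm_inv, norm_norm, inv_mul_cancel₀ hn]
    · rw [smul_smul, mul_inv_cancel₀ hn, one_smul]

end LowdetH747

open LowdetH747 in
theorem p_lowdet : S_LOWDET := by
  intro d N x hd hN hx t
  obtain ⟨w, hw, c, hc⟩ := exists_unit hd t
  refine ⟨w, hw, ?_⟩
  intro i hi
  obtain ⟨y, hy, hyt⟩ := hi
  have hyt' : t + y = x i := hyt
  obtain ⟨f, hf⟩ : ∃ f, f = proj w (x i) := ⟨_, rfl⟩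
  have hfw : ⟪f, w⟫ = 0 := by rw [hf]; exact inner_proj_self hw _
  have hft : ⟪f, t⟫ = 0 := by rw [hc, inner_smul_right, hfw, mul_zero]
  have hfx : ⟪f, x i⟫ = ‖f‖ ^ 2 := by
    rw [hf, inner_proj hw, real_inner_self_eq_norm_sq]
  have hfy : ⟪f, y⟫ = ‖f‖ ^ 2 := by
    rw [← hfx, ← hyt', inner_add_right, hft, zero_add]
  rw [← hf]
  by_cases hf0 : f = 0
  · obtain ⟨j, hj⟩ : ∃ j : Fin N, j ≠ i := by
      have : Nontrivial (Fin N) := Fin.nontrivial_iff_two_le.mpr hN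
      exact exists_ne i
    refine ⟨j, hj, ?_⟩
    rw [hf0, zero_sub, norm_neg, norm_smul, Real.norm_of_nonneg (by norm_num)]
    have h1 := (norm_proj_le hw (x j)).trans (hx j)
    linarith
  · have hfn : 0 < ‖f‖ := norm_pos_iff.mpr hf0
    obtain ⟨ε, hε, hball⟩ := Metric.isOpen_iff.mp isOpen_interior y hy
    obtain ⟨s, hs⟩ : ∃ s, s = ε / 2 / ‖f‖ := ⟨_, rfl⟩
    have hs0 : 0 < s := by rw [hs]; positivity
    have hmem : y + s • f ∈ interior (poly x) := by
      apply hball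
      rw [Metric.mem_ball, dist_eq_norm, add_sub_cancel_left, norm_smul,
        Real.norm_of_nonneg hs0.le, hs]
      field_simp
      linarith
    have hmem2 : y + s • f ∈ convexHull ℝ (range x) := interior_subset hmem
    have hj : ∃ j, ⟪f, y⟫ < ⟪f, x j⟫ := by
      by_contra hcon
      push Not at hcon
      have hconv : Convex ℝ {z : E d | ⟪f, z⟫ ≤ ⟪f, y⟫} := by
        apply convex_halfSpace_le (f := fun z : E d => ⟪f, z⟫)
        exact ⟨fun a b => inner_add_right f a b, fun r a => inner_smul_right f a r⟩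
      have hsub : convexHull ℝ (range x) ⊆ {z : E d | ⟪f, z⟫ ≤ ⟪f, y⟫} := by
        apply convexHull_min _ hconv
        rintro _ ⟨j, rfl⟩
        exact hcon j
      have h1 : ⟪f, y + s • f⟫ ≤ ⟪f, y⟫ := hsub hmem2
      rw [inner_add_right, inner_smul_right, real_inner_self_eq_norm_sq] at h1
      have h2 : 0 < s * ‖f‖ ^ 2 := by positivity
      linarith
    obtain ⟨j, hj⟩ := hj
    refine ⟨j, ?_, ?_⟩
    · rintro rfl
      rw [hfy, hfx] at hj
      exact lt_irrefl _ hj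
    · have h1 : ⟪f, x j⟫ = ⟪f, proj w (x j)⟫ := by
        rw [hf]
        exact inner_proj hw _ _
      rw [h1, hfy] at hj
      obtain ⟨g, hg⟩ : ∃ g, g = proj w (x j) := ⟨_, rfl⟩
      have hgn : ‖g‖ ≤ 1 := by
        rw [hg]
        exact (norm_proj_le hw (x j)).trans (hx j)
      rw [← hg] at hj ⊢
      have h2 : ‖f - (1 / 2 : ℝ) • g‖ ^ 2 = ‖f‖ ^ 2 - ⟪f, g⟫ + ‖g‖ ^ 2 / 4 := by
        rw [norm_sub_sq_real, inner_smul_right, norm_smul, Real.norm_of_nonneg (by norm_num)]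
        ring
      have h3 : ‖f - (1 / 2 : ℝ) • g‖ ^ 2 ≤ (1 / 2) ^ 2 := by
        rw [h2]
        have h4 : ‖g‖ ^ 2 ≤ 1 := by
          have := norm_nonneg g
          nlinarith
        linarith
      exact (abs_le_of_sq_le_sq' h3 (by norm_num)).2

end Pool.Agent.H266.RP
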