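import Pool.Agent.H266.RP.Lower

set_option autoImplicit false

open MeasureTheory Set Metric Filter
open scoped Pointwise RealInnerProductSpace ENNReal Topology

namespace Pool.Agent.H266.RP

/-- `⌊q ^ d⌋` points of the unit sphere: the trivial bound -/
lemma sphere_small (hcap : S_CAP) (hnet : S_NET) (hball : S_BALL) (hprob : S_PROB) (htop : S_TOP)
    (hfew : S_FEW) (q R : ℝ) (hq : 1 < q) (hR : q < R) :
    ∃ c : ℝ, 0 < c ∧ ∀ᶠ d : ℕ in atTop, ∀ (μ : Fin ⌊q ^ d⌋₊ → Measure (E d))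
      [∀ i, IsProbabilityMeasure (μ i)], (∀ i, Isotropic (μ i)) → (∀ i, ∀ᵐ x ∂(μ i), ‖x‖ = 1) →
      Measure.pi μ {x | ¬ (Few (poly x) (R ^ d) ∧ Few (symPoly x) (R ^ d))} ≤
        ENNReal.ofReal (Real.exp (-Real.exp (c * d))) := by
  have hq0 : 0 < q := by linarith
  have hiq : 0 < 1 / q := by positivity
  have hiq1 : 1 / q < 1 := by rw [div_lt_one hq0]; exact hq
  set a := (1 / q + 1) / 2 with ha
  have ha0 : 0 < a := by rw [ha]; linarith
  have ha1 : a < 1 := by rw [ha]; linarith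
  have haq : 1 / q < a := by rw [ha]; linarith
  have ha2 : a ^ 2 < 1 := by nlinarith
  set κ := √((1 - a ^ 2) / 2) with hκ
  have hκ2 : κ ^ 2 = (1 - a ^ 2) / 2 := Real.sq_sqrt (by linarith)
  have hκ0 : 0 < κ := Real.sqrt_pos.2 (by linarith)
  have hκa : κ ^ 2 + a ^ 2 < 1 := by rw [hκ2]; linarith
  set b := κ / 2 with hb
  have hb0 : 0 < b := by rw [hb]; linarith
  have hbκ : b < κ := by rw [hb]; linarith
  have haq2 : 1 / a < q := by
    rw [div_lt_iff₀ hq0] at haq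
    rw [div_lt_iff₀ ha0]; linarith
  have hia : 1 < 1 / a := by rw [one_lt_div ha0]; exact ha1
  set q' := (1 / a + q) / 2 with hq'
  have hq'1 : 1 / a < q' := by rw [hq']; linarith
  have hq'2 : q' < q := by rw [hq']; linarith
  have hq'a : 1 < q' * a := by rwa [div_lt_iff₀ ha0] at hq'1
  obtain ⟨c, hc, hev⟩ := main_good hcap hnet hball hprob htop hκ0 ha0 hκa hq'a hb0 hbκ
  refine ⟨c, hc, ?_⟩
  have hRR : 1 < R / q := by rw [one_lt_div (by linarith)]; exact hR
  filter_upwards [hev, const_le_pow hRR 3, pow_le_floor (by linarith : 1 < q') hq'2]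
    with d hd h3 hfl μ _ hμ hμ1
  have hNq : ((⌊q ^ d⌋₊ : ℕ) : ℝ) ≤ q ^ d := Nat.floor_le (by positivity)
  have hqd : (1 : ℝ) ≤ q ^ d := one_le_pow₀ hq.le
  rw [div_pow, le_div_iff₀ (by positivity)] at h3
  refine (measure_mono_ae ?_).trans (hd ⌊q ^ d⌋₊ ⌊q ^ d⌋₊ μ hμ hfl le_rfl)
  filter_upwards [ae_pi_norm μ hμ1] with x hx hxx hgood
  apply hxx
  obtain ⟨ρ, hρ0, hF, ⟨i, hi⟩, hball'⟩ := hgood
  have hρ1 : ρ = 1 := by rw [← hi]; exact hx i
  rw [hρ1, mul_one] at hball'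
  have hint : (interior (poly x)).Nonempty :=
    ⟨0, mem_interior.2 ⟨ball 0 b, ball_subset_closedBall.trans hball', isOpen_ball,
      mem_ball_self hb0⟩⟩
  obtain ⟨h1, h2⟩ := few_zero hfew x Finset.univ (fun j hj => (hj (Finset.mem_univ _)).elim)
  have h1' := h1 hint
  have h2' := h2 (hint.mono (interior_mono (poly_subset_symPoly x)))
  rw [Finset.card_fin] at h1' h2'
  exact ⟨h1'.mono (by linarith), h2'.mono (by linarith)⟩

end Pool.Agent.H266.RP
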