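import Pool.Agent.H266.RP.Upper

set_option autoImplicit false

open MeasureTheory Set Metric Filter
open scoped Pointwise RealInnerProductSpace ENNReal Topology

namespace Pool.Agent.H266.RP

lemma ae_pi_norm {d N : ℕ} (μ : Fin N → Measure (E d)) [∀ i, IsProbabilityMeasure (μ i)]
    (h : ∀ i, ∀ᵐ x ∂(μ i), ‖x‖ = 1) : ∀ᵐ x ∂(Measure.pi μ), ∀ i, ‖x i‖ = 1 := by
  rw [ae_all_iff]
  intro i
  exact Measure.tendsto_eval_ae_ae.eventually (h i)

lemma pow_le_floor {q' q : ℝ} (h1 : 1 < q') (h2 : q' < q) :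
    ∀ᶠ d : ℕ in atTop, q' ^ d ≤ (⌊q ^ d⌋₊ : ℝ) := by
  have h3 : 1 < q / q' := by rw [one_lt_div (by linarith)]; exact h2
  filter_upwards [const_le_pow h3 2] with d hd
  have hp : 0 < q' ^ d := by positivity
  have hp1 : 1 ≤ q' ^ d := one_le_pow₀ h1.le
  rw [div_pow, le_div_iff₀ hp] at hd
  have := (Nat.lt_floor_add_one (q ^ d))
  linarith

lemma sphere (hcap : S_CAP) (hnet : S_NET) (hball : S_BALL) (hprob : S_PROB) (htop : S_TOP)
    (hcov : S_COV) (hdet : S_DET) (q R : ℝ) (hq : 1 < q) (hR : q / √(q ^ 2 - 1) < R) :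
    ∃ c : ℝ, 0 < c ∧ ∀ᶠ d : ℕ in atTop, ∀ (N : ℕ) (μ : Fin N → Measure (E d))
      [∀ i, IsProbabilityMeasure (μ i)], (∀ i, Isotropic (μ i)) → (∀ i, ∀ᵐ x ∂(μ i), ‖x‖ = 1) →
      ⌊q ^ d⌋₊ ≤ N →
      Measure.pi μ {x | ¬ (closedBall 0 (1 / R) ⊆ poly x ∧ Few (poly x) (R ^ d) ∧
        Few (symPoly x) (R ^ d))} ≤ ENNReal.ofReal (Real.exp (-Real.exp (c * d))) := by
  have hq0 : 0 < q := by linarith
  have hqq : 0 < q ^ 2 - 1 := by nlinarith
  set s := √(q ^ 2 - 1) with hs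
  have hs0 : 0 < s := Real.sqrt_pos.2 hqq
  have hs2 : s ^ 2 = q ^ 2 - 1 := Real.sq_sqrt hqq.le
  have hR0 : 0 < R := lt_trans (by positivity) hR
  set r0 := s / q with hr0
  have hr00 : 0 < r0 := by positivity
  have hr02 : r0 ^ 2 = 1 - 1 / q ^ 2 := by
    rw [hr0, div_pow, hs2]; field_simp
  have hRr : 1 / R < r0 := by
    rw [hr0, div_lt_div_iff₀ hR0 hq0]
    rw [div_lt_iff₀ hs0] at hR
    linarith
  have hiR : 0 < 1 / R := by positivity
  have hiq : 0 < 1 / q := by positivity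
  have hr01 : r0 < 1 := by
    apply lt_of_pow_lt_pow_left₀ 2 zero_le_one
    rw [hr02, one_pow]
    have : 0 < 1 / q ^ 2 := by positivity
    linarith
  set δ := (r0 - 1 / R) / 4 with hδ
  have hδ0 : 0 < δ := by rw [hδ]; linarith
  set a2 := 1 / R + δ with ha2
  set b := 1 / R + 2 * δ with hb
  set κ := 1 / R + 3 * δ with hκ
  have ha20 : 0 < a2 := by rw [ha2]; linarith
  have hb0 : 0 < b := by rw [hb]; linarith
  have hκ0 : 0 < κ := by rw [hκ]; linarith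
  have hab : a2 < b := by rw [ha2, hb]; linarith
  have hbκ : b < κ := by rw [hb, hκ]; linarith
  have hκr : κ < r0 := by rw [hκ]; linarith
  have hκ1 : κ ^ 2 < 1 - 1 / q ^ 2 := by
    rw [← hr02]; exact pow_lt_pow_left₀ hκr hκ0.le two_ne_zero
  have hiq2 : 0 < 1 / q ^ 2 := by positivity
  set t := √(1 - κ ^ 2) with ht
  have ht2 : t ^ 2 = 1 - κ ^ 2 := Real.sq_sqrt (by linarith)
  have ht0 : 0 ≤ t := Real.sqrt_nonneg _
  have hqt : 1 / q < t := by
    apply lt_of_pow_lt_pow_left₀ 2 ht0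
    rw [ht2, div_pow, one_pow]; linarith
  set a := (1 / q + t) / 2 with ha
  have ha0 : 0 < a := by rw [ha]; linarith
  have hat : a < t := by rw [ha]; linarith
  have haq : 1 / q < a := by rw [ha]; linarith
  have hκa : κ ^ 2 + a ^ 2 < 1 := by
    have : a ^ 2 < t ^ 2 := pow_lt_pow_left₀ hat ha0.le two_ne_zero
    linarith
  have ha1 : a < 1 := by
    apply lt_of_pow_lt_pow_left₀ 2 zero_le_one
    have : 0 < κ ^ 2 := by positivity
    linarith
  set q' := (1 / a + q) / 2 with hq'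
  have haq2 : 1 / a < q := by
    rw [div_lt_iff₀ hq0] at haq
    rw [div_lt_iff₀ ha0]; linarith
  have hia : 1 < 1 / a := by rw [one_lt_div ha0]; exact ha1
  have hq'1 : 1 / a < q' := by rw [hq']; linarith
  have hq'2 : q' < q := by rw [hq']; linarith
  have hq'a : 1 < q' * a := by rwa [div_lt_iff₀ ha0] at hq'1
  -- the covering
  set e := (a2 + b) / 2 with he
  have he0 : 0 < e := by rw [he]; linarith
  have hae : a2 < e := by rw [he]; linarith
  have heb : e < b := by rw [he]; linarith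
  have he1 : e < 1 := by linarith
  have he2 : e ^ 2 < 1 := by nlinarith
  set κ₁ := √(1 - e ^ 2) with hκ₁
  have hκ₁2 : κ₁ ^ 2 = 1 - e ^ 2 := Real.sq_sqrt (by linarith)
  have hκ₁0 : 0 < κ₁ := Real.sqrt_pos.2 (by linarith)
  have hc1 : κ₁ ^ 2 + a2 ^ 2 < 1 := by
    have : a2 ^ 2 < e ^ 2 := pow_lt_pow_left₀ hae ha20.le two_ne_zero
    linarith
  have hc2 : 1 - κ₁ ^ 2 < b ^ 2 := by
    have : e ^ 2 < b ^ 2 := pow_lt_pow_left₀ heb he0.le two_ne_zero
    linarith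
  have ha2R : 1 / a2 < R := by
    have : 1 / R < a2 := by rw [ha2]; linarith
    rw [div_lt_iff₀ hR0] at this
    rw [div_lt_iff₀ ha20]; linarith
  have ha21 : 1 < 1 / a2 := by rw [one_lt_div ha20]; linarith
  set R1 := (1 / a2 + R) / 2 with hR1
  have hR11 : 1 / a2 < R1 := by rw [hR1]; linarith
  have hR12 : R1 < R := by rw [hR1]; linarith
  have hR1a : 1 < R1 * a2 := by rwa [div_lt_iff₀ ha20] at hR11
  have hR10 : 1 < R1 := by linarith
  obtain ⟨c, hc, hev⟩ := main_good hcap hnet hball hprob htop hκ0 ha0 hκa hq'a hb0 hbκ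
  obtain ⟨d₀, hd₀⟩ := hcov κ₁ a2 R1 hκ₁0 ha20 hc1 hR1a
  refine ⟨c, hc, ?_⟩
  have hRR : 1 < R / R1 := by rw [one_lt_div (by linarith)]; exact hR12
  filter_upwards [hev, eventually_ge_atTop d₀, const_le_pow hRR 2,
    pow_le_floor (by linarith : 1 < q') hq'2] with d hd hdd h2 hfl N μ _ hμ hμ1 hN
  obtain ⟨W, hW1, hW2, hW3⟩ := hd₀ d hdd
  have hNq : q' ^ d ≤ (N : ℝ) := hfl.trans (by exact_mod_cast hN)
  have hRd : (1 : ℝ) ≤ R1 ^ d := one_le_pow₀ hR10.le
  have hbig : (W.card : ℝ) + 1 ≤ R ^ d := by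
    rw [div_pow, le_div_iff₀ (by positivity)] at h2
    linarith
  refine (measure_mono_ae ?_).trans (hd N N μ hμ hNq le_rfl)
  filter_upwards [ae_pi_norm μ hμ1] with x hx hxx hgood
  apply hxx
  obtain ⟨ρ, hρ0, hF, ⟨i, hi⟩, hball'⟩ := hgood
  have hρ1 : ρ = 1 := by rw [← hi]; exact hx i
  have hρp : 0 < ρ := by rw [hρ1]; exact one_pos
  obtain ⟨h3, h4⟩ := few_pos hdet x ∅ hρp hb0 hκ₁0 hc2 hball'
    (fun j _ => by rw [hx j, hρ1]) hW2 hW3
  simp only [Finset.card_empty, Nat.cast_zero, mul_zero, zero_add] at h3 h4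
  refine ⟨?_, h3.mono hbig, h4.mono hbig⟩
  rw [hρ1, mul_one] at hball'
  exact (closedBall_subset_closedBall (by rw [hb]; linarith)).trans hball'

end Pool.Agent.H266.RP
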