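import Pool.Agent.H266.RP.Defs

/-!
# Covering numbers of random polytopes: the lemmas

`E d = EuclideanSpace ℝ (Fin d)`.  Each `S_X : Prop` below is a lemma, with a proof in words.
-/

set_option autoImplicit false

open MeasureTheory Set Metric
open scoped Pointwise RealInnerProductSpace ENNReal

namespace Pool.Agent.H266.RP

/-- Illumination implies covering, with a step size `s` that works for all points at once.
Proof.  `K = conv {y i}`, `n = card ι` (`n ≥ 1`, otherwise `K = ∅`, `T = ∅`).  Choose for every `i`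
`w_i ∈ W`, `τ_i > 0`; let `τ` be the minimum of the `τ_i` and `s = τ / n`.  By convexity
`y i + τ' w_i ∈ int K` for `0 < τ' ≤ τ_i` (`y i ∈ K`, `y i + τ_i w_i ∈ int K`:
`Convex.combo_self_interior_mem_interior` or `Convex.add_smul_mem_interior`).
Let `x = ∑ l_j y j ∈ K`; some `l_i ≥ 1/n`.  The map `f u = x + l_i (u - y i)` maps `K` into `K`
(`f u = ∑_{j ≠ i} l_j y j + l_i u`) and is a homeomorphism of the space, so it maps `int K` into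
`int K`; so `x + s w_i = f (y i + (s / l_i) w_i)` is in `int K`, as `0 < s / l_i ≤ τ`.  Take
`T = {- s w : w ∈ W}`.  For `L` arbitrary: `k + l = (- s w) + ((k + s w) + l)` and `int K + l` is an
open subset of `K + L`. -/
def S_ILL : Prop := ∀ (d : ℕ) (ι : Type) [Fintype ι] (y : ι → E d) (W : Finset (E d)),
  (∀ i, ∃ w ∈ W, ∃ τ : ℝ, 0 < τ ∧ y i + τ • w ∈ interior (convexHull ℝ (range y))) →
  ∃ T : Finset (E d), T.card ≤ W.card ∧ ∀ L : Set (E d), CoveredBy T (convexHull ℝ (range y) + L)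

/-- A ball in the convex hull, from a `δ`-net `V` of the unit sphere.
Proof.  `K = conv {y i}` is compact and convex.  If `z ∉ K` there is a unit vector `u` with
`⟪k, u⟫ < ⟪z, u⟫` for all `k ∈ K` (`geometric_hahn_banach_closed_point` and
`InnerProductSpace.toDual`; the functional is not zero as `K ≠ ∅`, because `V ≠ ∅` for `0 < d`).
Take `v ∈ V` with `‖u - v‖ ≤ δ` and its `i`:
`‖z‖ ≥ ⟪z, u⟫ > ⟪y i, u⟫ ≥ ⟪y i, v⟫ - δ ‖y i‖ ≥ (κ - δ) ‖y i‖ ≥ (κ - δ) ρ`. -/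
def S_BALL : Prop := ∀ (d : ℕ) (ι : Type) [Fintype ι] (y : ι → E d) (V : Finset (E d))
  (κ δ ρ : ℝ), 0 < d → (∀ v ∈ V, ‖v‖ = 1) → (∀ u : E d, ‖u‖ = 1 → ∃ v ∈ V, ‖u - v‖ ≤ δ) →
  0 ≤ ρ → δ ≤ κ → (∀ v ∈ V, ∃ i, ρ ≤ ‖y i‖ ∧ κ * ‖y i‖ ≤ ⟪y i, v⟫) →
  closedBall 0 ((κ - δ) * ρ) ⊆ convexHull ℝ (range y)

/-- Covering a polytope which contains a large ball.
Proof from `S_ILL`.  Use the directions `- y i` (`i ∈ J`), `- u` (`u ∈ W`) and `0`.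
`0 ∈ int K` because of the ball.  `i ∈ J`: `y i + 1 • (- y i) = 0 ∈ int K`.
`j ∉ J`, `y j = 0`: direction `0`.  `j ∉ J`, `y j ≠ 0`: take `u ∈ W` with
`κ ‖y j‖ ≤ ⟪y j, u⟫ =: τ`, `τ > 0`; then `‖y j - τ u‖² = ‖y j‖² - τ² ≤ (1 - κ²) ‖y j‖² < b² ρ²`
(if `‖y j‖ ≤ ρ`, `ρ > 0`), so `y j + τ • (- u)` is in the open ball, hence in `int K`. -/
def S_DET : Prop := ∀ (d : ℕ) (ι : Type) [Fintype ι] (y : ι → E d) (J : Finset ι)
  (W : Finset (E d)) (b κ ρ : ℝ), 0 < ρ → 0 < b → 0 < κ → 1 - κ ^ 2 < b ^ 2 →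
  closedBall 0 (b * ρ) ⊆ convexHull ℝ (range y) → (∀ j, j ∉ J → ‖y j‖ ≤ ρ) →
  (∀ u ∈ W, ‖u‖ = 1) → (∀ x : E d, ∃ u ∈ W, κ * ‖x‖ ≤ ⟪x, u⟫) →
  ∃ T : Finset (E d), T.card ≤ J.card + W.card + 1 ∧
    ∀ L : Set (E d), CoveredBy T (convexHull ℝ (range y) + L)

/-- Few nonzero points.  Proof from `S_ILL`: let `c ∈ int K`; directions `c - y i` (`i ∈ J`)
and `c`. -/
def S_FEW : Prop := ∀ (d : ℕ) (ι : Type) [Fintype ι] (y : ι → E d) (J : Finset ι),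
  (interior (convexHull ℝ (range y))).Nonempty → (∀ j, j ∉ J → y j = 0) →
  ∃ T : Finset (E d), T.card ≤ J.card + 1 ∧
    ∀ L : Set (E d), CoveredBy T (convexHull ℝ (range y) + L)

/-- Nets of the unit sphere.  Proof: a `δ`-separated finite subset `V` of the unit sphere has at
most `(1 + 2/δ)^d` elements: the balls `ball v (δ/2)` are disjoint and contained in
`ball 0 (1 + δ/2)`; compare volumes (`Measure.addHaar_ball`, as in `Besicovitch.card_le_of_separated`).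
So there is one of greatest cardinality, which is a net. -/
def S_NET : Prop := ∀ (d : ℕ) (δ : ℝ), 0 < δ → ∃ V : Finset (E d),
  (V.card : ℝ) ≤ (1 + 2 / δ) ^ d ∧ (∀ v ∈ V, ‖v‖ = 1) ∧
    ∀ u : E d, ‖u‖ = 1 → ∃ v ∈ V, ‖u - v‖ ≤ δ

/-- Lower bound for the measure of a cone.  Proof.  If `x = 0` the cone is everything but `0`; let
`x ≠ 0`, `u = x / ‖x‖`.  Let `η = (1 - κ² - a²) / (2 κ) > 0` and
`D = {κ u + y : ‖y‖ ≤ a, 0 ≤ ⟪y, u⟫ ≤ η}`.  For `v = κ u + y ∈ D`: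
`‖v‖² = κ² + 2 κ ⟪y, u⟫ + ‖y‖² ≤ κ² + 2 κ η + a² = 1` and `⟪v, u⟫ ≥ κ ≥ κ ‖v‖`, `v ≠ 0`.
So `D` is contained in the unit ball and in the cone.  Volume of `D`: let `K = ⌈a / η⌉`, and
`S_k = {y : ‖y‖ ≤ a, k η ≤ ⟪y, u⟫ ≤ (k + 1) η}`; the translation `y ↦ y - k η u` maps `S_k` into
`S_0` (`‖y - k η u‖² = ‖y‖² - 2 k η ⟪y, u⟫ + k² η² ≤ ‖y‖²`), so `vol S_k ≤ vol S_0`, and
`S_0, ..., S_(K-1)` cover the half ball `{‖y‖ ≤ a, ⟪y, u⟫ ≥ 0}`, whose volume is at least half of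
that of the ball of radius `a` (symmetry `y ↦ -y`).  So `vol D ≥ a^d vol B / (2 K)`,
`c = 1 / (2 K)` (take also `c ≤ 1` and `a < 1` for the case `x = 0`). -/
def S_CAP : Prop := ∀ κ a : ℝ, 0 < κ → 0 < a → κ ^ 2 + a ^ 2 < 1 → ∃ c : ℝ, 0 < c ∧
  ∀ d : ℕ, 1 ≤ d → ∀ x : E d, ENNReal.ofReal (c * a ^ d) ≤ unif d (Cone κ x)

/-- Greedy choice.  Proof: induction on `M`: there is a set `S` of at most `M` points such that at
most `(1 - p)^M |V|` of the `v ∈ V` are missed; for the step, if `U` is the set of the missed `v`,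
the average over `ω` of the number of the `v ∈ U` with `ω ∉ C v` is at most `(1 - p) |U|`, so some
`ω` does as well as the average (`MeasureTheory.exists_le_lintegral` or `exists_le_integral`). -/
def S_GREEDY : Prop := ∀ (Ω : Type) [MeasurableSpace Ω] (P : Measure Ω) [IsProbabilityMeasure P]
  (α : Type) (V : Finset α) (C : α → Set Ω) (p : ℝ), 0 ≤ p → p ≤ 1 →
  (∀ v ∈ V, MeasurableSet (C v)) → (∀ v ∈ V, ENNReal.ofReal p ≤ P (C v)) →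
  ∀ M : ℕ, (1 - p) ^ M * (V.card : ℝ) < 1 →
  ∃ S : Finset Ω, S.card ≤ M ∧ ∀ v ∈ V, ∃ ω ∈ S, ω ∈ C v

/-- Coverings of the sphere by caps.  Proof from `S_NET`, `S_CAP`, `S_GREEDY`.  Let `κ' > κ` with
`κ'² + a² < 1`, `δ = κ' - κ`, `V` a `δ`-net, `p = min 1 (c a^d)` for `κ'`, `C v = Cone κ' v`,
`M = ⌊q^d⌋`.  `(1 - p)^M |V| ≤ exp (- p M) (1 + 2/δ)^d < 1` for large `d`, since
`p M ≥ min(1, c a^d) (q^d - 1)` grows exponentially (`q a > 1`; note `q > 1` as `a < 1`).  Let `W` be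
the set of the `ω / ‖ω‖`, `ω ∈ S`, `ω ≠ 0` (all `ω ∈ Cone` are nonzero).  For `x ≠ 0` take `v ∈ V`
with `‖x / ‖x‖ - v‖ ≤ δ` and `ω ∈ Cone κ' v`, `u = ω / ‖ω‖`:
`⟪x / ‖x‖, u⟫ ≥ ⟪v, u⟫ - δ ≥ κ' - δ = κ`.  For `x = 0` any `u ∈ W` (`W` is not empty, `d ≥ 1`). -/
def S_COV : Prop := ∀ κ a q : ℝ, 0 < κ → 0 < a → κ ^ 2 + a ^ 2 < 1 → 1 < q * a →
  ∃ d₀ : ℕ, ∀ d : ℕ, d₀ ≤ d → ∃ W : Finset (E d), (W.card : ℝ) ≤ q ^ d ∧
    (∀ u ∈ W, ‖u‖ = 1) ∧ ∀ x : E d, ∃ u ∈ W, κ * ‖x‖ ≤ ⟪x, u⟫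

/-- The main probability estimate.  Proof.  Let `A` be the set on the left.  For unit vectors
`v' i` (`i < N`) choose linear isometries `U i` with `U i (v' i) = v` (reflections,
`reflection_sub` or so).  `x ↦ (fun i => U i (x i))` preserves `Measure.pi μ`
(`measurePreserving_pi`), and `Top` depends on the norms only; so the set
`{x | ∀ i ∈ Top, ⟪x i, v' i⟫ < κ ‖x i‖}` has the measure of `A`.  The same for arbitrary nonzero
`v' i` with `⟪x i, v' i⟫ < κ ‖x i‖ ‖v' i‖`.  Average over `v'` with respect to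
`Measure.pi (fun _ => unif d)` (a probability measure, without atom at `0` as `d ≥ 1`) and use
Tonelli (the set of the pairs `(x, v')` is measurable: finite unions and intersections):
`μ A = ∫ Q x dμ x`, `Q x = ∏_{i ∈ Top} unif d {v | ⟪x i, v⟫ < κ ‖x i‖ ‖v‖} ≤ (1 - p)^|Top|`
(`Measure.pi_pi`) and `|Top| ≥ m` (`S_TOP`, or `m = 0`). -/
def S_PROB : Prop := ∀ (d N m : ℕ) (μ : Fin N → Measure (E d)) [∀ i, IsProbabilityMeasure (μ i)],
  (∀ i, Isotropic (μ i)) → 1 ≤ d → m ≤ N → ∀ κ p : ℝ, 0 < κ → 0 ≤ p → p ≤ 1 →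
  (∀ x : E d, ENNReal.ofReal p ≤ unif d (Cone κ x)) → ∀ v : E d, ‖v‖ = 1 →
  Measure.pi μ {x | ∀ i ∈ Top (fun j => ‖x j‖) m, ⟪x i, v⟫ < κ * ‖x i‖} ≤
    ENNReal.ofReal ((1 - p) ^ m)

/-- The `m`-th largest number.  Proof: `Top` is not empty (an index with the greatest value); let
`ρ` be the least `r i`, `i ∈ Top`.  `Top` is closed under `r j ≥ r i`.  If `|Top| < m ≤ N` take
`j ∉ Top` with `r j` greatest among those; then all larger numbers have indices in `Top`, so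
`j ∈ Top`, a contradiction. -/
def S_TOP : Prop := ∀ (N m : ℕ) (r : Fin N → ℝ), 1 ≤ m → m ≤ N → ∃ ρ : ℝ,
  (∀ i, i ∈ Top r m ↔ ρ ≤ r i) ∧ (Finset.univ.filter (fun j => ρ < r j)).card < m ∧
  m ≤ (Top r m).card ∧ ∃ i, r i = ρ

/-- Upper bound for cylinders.  Proof: let `M = ⌈1/δ⌉`; a point `x` of the unit ball in the set is
within `1/2 + 4δ` of one of the points `z + (k δ) w`, `|k| ≤ M` (`k` the nearest integer to
`⟪x, w⟫ / δ`, or its floor, triangle inequality only).  So the volume is at most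
`(2 M + 1) (1/2 + 4δ)^d` times that of the unit ball. -/
def S_CYL : Prop := ∀ δ : ℝ, 0 < δ → ∃ A : ℝ, 0 < A ∧ ∀ d : ℕ, 1 ≤ d → ∀ w z : E d, ‖w‖ = 1 →
  unif d {x | ‖proj w x - z‖ ≤ 1 / 2 + 3 * δ} ≤ ENNReal.ofReal (A * (1 / 2 + 4 * δ) ^ d)

/-- Sequential product bound.  Proof.  (a) `P (⋂ i ∈ J, H i) ≤ c ^ |J|` by induction on `|J|`: let
`i = max J`; the sets `H j`, `j ∈ J`, `j < i` do not depend on the coordinate `i`, so
(integrating over the coordinate `i` first; e.g. `lintegral` of indicator functions,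
`MeasureTheory.lmarginal`, or `measurePreserving_piEquivPiSubtypeProd`, or
`∫⁻ f ∂pi μ = ∫⁻ x, ∫⁻ y, f (update x i y) ∂μ i ∂pi μ`)
`P (⋂ j ∈ J, H j) ≤ c P (⋂ j ∈ J \ {i}, H j)`.  (b) union bound over the `J` with `k` elements, of
which there are `N choose k ≤ N ^ k`. -/
def S_SEQ : Prop := ∀ (ι : Type) [Fintype ι] [LinearOrder ι] (Ω : Type) [MeasurableSpace Ω]
  (μ : ι → Measure Ω) [∀ i, IsProbabilityMeasure (μ i)] (H : ι → Set (ι → Ω)) (c : ℝ≥0∞),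
  (∀ i, MeasurableSet (H i)) →
  (∀ (i : ι) (x y : ι → Ω), (∀ j, j ≤ i → x j = y j) → x ∈ H i → y ∈ H i) →
  (∀ (i : ι) (x : ι → Ω), μ i {y | Function.update x i y ∈ H i} ≤ c) →
  ∀ k : ℕ, Measure.pi μ {x | ∃ J : Finset ι, J.card = k ∧ ∀ i ∈ J, x ∈ H i} ≤
    ((Fintype.card ι : ℝ≥0∞) * c) ^ k

/-- One translate covers few of the points: the deterministic part.  Proof.  `w = t / ‖t‖` if
`t ≠ 0`, any unit vector if `t = 0`.  Let `x i - t ∈ int K`, `f = proj w (x i)`; `⟪f, t⟫ = 0`.  If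
`f = 0` any `j ≠ i` will do (`‖(1/2) proj w (x j)‖ ≤ 1/2`).  If `f ≠ 0`, the functional `⟪f, ·⟫` does
not attain its maximum over `K = conv {x j}` at the interior point `x i - t`, so there is `j` with
`⟪f, x j⟫ > ⟪f, x i - t⟫ = ⟪f, x i⟫ = ‖f‖²` (so `j ≠ i`), and `⟪f, x j⟫ = ⟪f, proj w (x j)⟫`; so
`‖f - (1/2) proj w (x j)‖² = ‖f‖² - ⟪f, x j⟫ + ‖proj w (x j)‖² / 4 ≤ 1/4`. -/
def S_LOWDET : Prop := ∀ (d N : ℕ) (x : Fin N → E d), 1 ≤ d → 2 ≤ N → (∀ i, ‖x i‖ ≤ 1) →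
  ∀ t : E d, ∃ w : E d, ‖w‖ = 1 ∧ ∀ i, x i ∈ (fun y => t + y) '' interior (poly x) →
    ∃ j, j ≠ i ∧ ‖proj w (x i) - (1 / 2 : ℝ) • proj w (x j)‖ ≤ 1 / 2

end Pool.Agent.H266.RP
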