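import Pool.Agent.H266.RP.Main

set_option autoImplicit false

open MeasureTheory Set Metric Filter
open scoped Pointwise RealInnerProductSpace ENNReal Topology

namespace Pool.Agent.H266.RP

/-- There is a set `T` of at most `r` vectors such that, for every set `L`, the set `K + L` (for
`L = {0}`: the set `K`) is covered by the translates `t + int (K + L)`, `t ∈ T`. -/
def Few {d : ℕ} (K : Set (E d)) (r : ℝ) : Prop :=
  ∃ T : Finset (E d), (T.card : ℝ) ≤ r ∧ ∀ L : Set (E d), CoveredBy T (K + L)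

lemma Few.mono {d : ℕ} {K : Set (E d)} {r s : ℝ} (h : Few K r) (hrs : r ≤ s) : Few K s := by
  obtain ⟨T, h1, h2⟩ := h
  exact ⟨T, h1.trans hrs, h2⟩

lemma poly_subset_symPoly {d N : ℕ} (x : Fin N → E d) : poly x ⊆ symPoly x :=
  convexHull_mono subset_union_left

lemma range_sum {d N : ℕ} (x : Fin N → E d) :
    convexHull ℝ (range (Sum.elim x (fun i => - x i))) = symPoly x := by
  rw [Set.Sum.elim_range]; rfl

/-- covering from a ball, `ρ > 0` -/
lemma few_pos (hdet : S_DET) {d N : ℕ} (x : Fin N → E d) (F : Finset (Fin N)) {W : Finset (E d)}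
    {b κ ρ : ℝ} (hρ : 0 < ρ) (hb : 0 < b) (hκ : 0 < κ) (hbκ : 1 - κ ^ 2 < b ^ 2)
    (hball : closedBall 0 (b * ρ) ⊆ poly x) (hF : ∀ j, j ∉ F → ‖x j‖ ≤ ρ)
    (hW1 : ∀ u ∈ W, ‖u‖ = 1) (hW : ∀ x : E d, ∃ u ∈ W, κ * ‖x‖ ≤ ⟪x, u⟫) :
    Few (poly x) (F.card + W.card + 1) ∧ Few (symPoly x) (2 * F.card + W.card + 1) := by
  constructor
  · obtain ⟨T, h1, h2⟩ := hdet d (Fin N) x F W b κ ρ hρ hb hκ hbκ hball hF hW1 hW
    exact ⟨T, by exact_mod_cast h1, h2⟩
  · have hside : ∀ j, j ∉ F.disjSum F → ‖Sum.elim x (fun i => - x i) j‖ ≤ ρ := by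
      rintro (j | j) hj
      · rw [Finset.inl_mem_disjSum] at hj
        simpa using hF j hj
      · rw [Finset.inr_mem_disjSum] at hj
        simpa using hF j hj
    obtain ⟨T, h1, h2⟩ := hdet d (Fin N ⊕ Fin N) (Sum.elim x (fun i => - x i)) (F.disjSum F) W b κ ρ
      hρ hb hκ hbκ (by rw [range_sum]; exact hball.trans (poly_subset_symPoly x)) hside hW1 hW
    rw [range_sum] at h2
    refine ⟨T, ?_, h2⟩
    rw [Finset.card_disjSum] at h1
    have : T.card ≤ 2 * F.card + W.card + 1 := by omega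
    exact_mod_cast this

/-- covering if all but few points are `0` -/
lemma few_zero (hfew : S_FEW) {d N : ℕ} (x : Fin N → E d) (F : Finset (Fin N))
    (hF : ∀ j, j ∉ F → x j = 0) :
    ((interior (poly x)).Nonempty → Few (poly x) (F.card + 1)) ∧
      ((interior (symPoly x)).Nonempty → Few (symPoly x) (2 * F.card + 1)) := by
  constructor
  · intro hi
    obtain ⟨T, h1, h2⟩ := hfew d (Fin N) x F hi hF
    exact ⟨T, by exact_mod_cast h1, h2⟩
  · intro hi
    have hside : ∀ j, j ∉ F.disjSum F → Sum.elim x (fun i => - x i) j = 0 := by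
      rintro (j | j) hj
      · rw [Finset.inl_mem_disjSum] at hj
        simpa using hF j hj
      · rw [Finset.inr_mem_disjSum] at hj
        simpa using hF j hj
    obtain ⟨T, h1, h2⟩ := hfew d (Fin N ⊕ Fin N) (Sum.elim x (fun i => - x i)) (F.disjSum F)
      (by rw [range_sum]; exact hi) hside
    rw [range_sum] at h2
    refine ⟨T, ?_, h2⟩
    rw [Finset.card_disjSum] at h1
    have : T.card ≤ 2 * F.card + 1 := by omega
    exact_mod_cast this

/-- both polytopes have few translates, as far as they have interior points -/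
def Fine {d N : ℕ} (x : Fin N → E d) (r : ℝ) : Prop :=
  ((interior (poly x)).Nonempty → Few (poly x) r) ∧
    ((interior (symPoly x)).Nonempty → Few (symPoly x) r)

lemma fine_of_good (hdet : S_DET) (hfew : S_FEW) {d N m : ℕ} {x : Fin N → E d} {W : Finset (E d)}
    {b κ : ℝ} (hg : Good m b x) (hb : 0 < b) (hκ : 0 < κ) (hbκ : 1 - κ ^ 2 < b ^ 2)
    (hW1 : ∀ u ∈ W, ‖u‖ = 1) (hW : ∀ x : E d, ∃ u ∈ W, κ * ‖x‖ ≤ ⟪x, u⟫) :
    Fine x (2 * m + W.card) := by
  obtain ⟨ρ, hρ0, hF, -, hball⟩ := hg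
  set F := Finset.univ.filter (fun j => ρ < ‖x j‖) with hFd
  have hcard : (F.card : ℝ) + 1 ≤ m := by exact_mod_cast hF
  have hFρ : ∀ j, j ∉ F → ‖x j‖ ≤ ρ := by
    intro j hj
    rw [hFd, Finset.mem_filter] at hj
    push Not at hj
    exact hj (Finset.mem_univ _)
  have hW0 : (0 : ℝ) ≤ W.card := Nat.cast_nonneg _
  have hF0 : (0 : ℝ) ≤ F.card := Nat.cast_nonneg _
  rcases hρ0.eq_or_lt with h | h
  · obtain ⟨h1, h2⟩ := few_zero hfew x F (fun j hj => by
      have := hFρ j hj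
      rw [← h] at this
      exact norm_le_zero_iff.1 this)
    exact ⟨fun hi => (h1 hi).mono (by linarith), fun hi => (h2 hi).mono (by linarith)⟩
  · obtain ⟨h1, h2⟩ := few_pos hdet x F h hb hκ hbκ hball hFρ hW1 hW
    exact ⟨fun _ => h1.mono (by linarith), fun _ => h2.mono (by linarith)⟩

lemma fine_of_small (hfew : S_FEW) {d N m : ℕ} (x : Fin N → E d) (hN : N < m) :
    Fine x (2 * m) := by
  obtain ⟨h1, h2⟩ := few_zero hfew x Finset.univ (fun j hj => (hj (Finset.mem_univ _)).elim)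
  have hcard : ((Finset.univ : Finset (Fin N)).card : ℝ) + 1 ≤ m := by
    rw [Finset.card_fin]; exact_mod_cast hN
  have hF0 : (0 : ℝ) ≤ (Finset.univ : Finset (Fin N)).card := Nat.cast_nonneg _
  exact ⟨fun hi => (h1 hi).mono (by linarith), fun hi => (h2 hi).mono (by linarith)⟩

lemma upper (hcap : S_CAP) (hnet : S_NET) (hball : S_BALL) (hprob : S_PROB) (htop : S_TOP)
    (hcov : S_COV) (hdet : S_DET) (hfew : S_FEW) (R : ℝ) (hR : √2 < R) :
    ∃ c : ℝ, 0 < c ∧ ∀ᶠ d : ℕ in atTop, ∀ (N : ℕ) (μ : Fin N → Measure (E d))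
      [∀ i, IsProbabilityMeasure (μ i)], (∀ i, Isotropic (μ i)) →
      Measure.pi μ {x | ¬ Fine x (R ^ d)} ≤ ENNReal.ofReal (Real.exp (-Real.exp (c * d))) := by
  set s := √2 with hs
  have hs0 : 0 < s := by positivity
  have hs2 : s ^ 2 = 2 := Real.sq_sqrt (by norm_num)
  have hs1 : 1 < s := by nlinarith
  set q := (s + R) / 2 with hq
  have hq1 : s < q := by rw [hq]; linarith
  have hq2 : q < R := by rw [hq]; linarith
  have hq0 : 0 < q := by linarith
  set t := 1 / s with ht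
  have ht0 : 0 < t := by positivity
  have ht2 : t ^ 2 = 1 / 2 := by rw [ht, div_pow, hs2]; norm_num
  have hqt : 1 / q < t := one_div_lt_one_div_of_lt hs0 hq1
  set a := (1 / q + t) / 2 with ha
  have hiq : 0 < 1 / q := by positivity
  have ha0 : 0 < a := by rw [ha]; linarith
  have hat : a < t := by rw [ha]; linarith
  have haq : 1 / q < a := by rw [ha]; linarith
  have hqa : 1 < q * a := by
    rw [div_lt_iff₀ hq0] at haq; linarith
  have ha2 : a ^ 2 < 1 / 2 := by rw [← ht2]; exact pow_lt_pow_left₀ hat ha0.le two_ne_zero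
  set u := √(1 - a ^ 2) with hu
  have hu2 : u ^ 2 = 1 - a ^ 2 := Real.sq_sqrt (by linarith)
  have hu0 : 0 ≤ u := Real.sqrt_nonneg _
  have htu : t < u := by
    apply lt_of_pow_lt_pow_left₀ 2 hu0
    rw [ht2, hu2]; linarith
  set κ := (t + u) / 2 with hκ
  have hκt : t < κ := by rw [hκ]; linarith
  have hκu : κ < u := by rw [hκ]; linarith
  have hκ0 : 0 < κ := by linarith
  have hκa : κ ^ 2 + a ^ 2 < 1 := by
    have : κ ^ 2 < u ^ 2 := pow_lt_pow_left₀ hκu hκ0.le two_ne_zero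
    linarith
  set b := (t + κ) / 2 with hb
  have hbt : t < b := by rw [hb]; linarith
  have hbκ : b < κ := by rw [hb]; linarith
  have hb0 : 0 < b := by linarith
  have htb : 1 - t ^ 2 < b ^ 2 := by
    have : t ^ 2 < b ^ 2 := pow_lt_pow_left₀ hbt ht0.le two_ne_zero
    linarith
  have hta : t ^ 2 + a ^ 2 < 1 := by linarith
  obtain ⟨c, hc, hev⟩ := main_good hcap hnet hball hprob htop hκ0 ha0 hκa hqa hb0 hbκ
  obtain ⟨d₀, hd₀⟩ := hcov t a q ht0 ha0 hta hqa
  refine ⟨c, hc, ?_⟩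
  have hRq : 1 < R / q := by rw [one_lt_div hq0]; exact hq2
  filter_upwards [hev, eventually_ge_atTop d₀, const_le_pow hRq 5] with d hd hdd h5 N μ _ hμ
  obtain ⟨W, hW1, hW2, hW3⟩ := hd₀ d hdd
  set m := ⌈q ^ d⌉₊ with hm
  have hm1 : q ^ d ≤ m := Nat.le_ceil _
  have hqd : 1 ≤ q ^ d := one_le_pow₀ (by linarith)
  have hm2 : (m : ℝ) ≤ q ^ d + 1 := (Nat.ceil_lt_add_one (by linarith)).le
  have hbig : 2 * (m : ℝ) + W.card ≤ R ^ d := by
    have h6 : 5 * q ^ d ≤ R ^ d := by
      rw [div_pow, le_div_iff₀ (by positivity)] at h5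
      exact h5
    linarith
  have hmono : ∀ x : Fin N → E d, Fine x (2 * m + W.card) → Fine x (R ^ d) := fun x hx =>
    ⟨fun hi => (hx.1 hi).mono hbig, fun hi => (hx.2 hi).mono hbig⟩
  by_cases hN : m ≤ N
  · refine (measure_mono ?_).trans (hd N m μ hμ hm1 hN)
    intro x hx hgood
    exact hx (hmono x (fine_of_good hdet hfew hgood hb0 ht0 htb hW2 hW3))
  · have hempty : {x : Fin N → E d | ¬ Fine x (R ^ d)} = ∅ := by
      rw [eq_empty_iff_forall_notMem]
      intro x hx
      apply hx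
      have h7 := fine_of_small hfew x (not_le.1 hN)
      have hW0 : (0 : ℝ) ≤ W.card := Nat.cast_nonneg _
      exact hmono x ⟨fun hi => (h7.1 hi).mono (by linarith), fun hi => (h7.2 hi).mono (by linarith)⟩
    rw [hempty, measure_empty]
    exact zero_le

end Pool.Agent.H266.RP
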